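import Pool.Agent.Y973.HS.Hc

/-!
# Construction of the data from a point over `K` with orthogonal conjugates
-/

set_option autoImplicit false

namespace Pool.Agent.Y973.HS

open Matrix
open Pool.Agent.H320R4.HS (Mat Vec GL5 toC form SO cone hodge HodgeIn IsQSubgroup MT IsTorus
  IsMaximalTorus tangent tangentOf IsHarishChandra Qbar IsStructure StabStable IsRational fam
  mem_of_infinite infinite_rat infinite_circle lam XM cM evG evG_apply evG_X evG_XT evG_c
  exp_nil torus_comm Signature32 hodge_smul_mat toC_mul toC_one)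

section build

variable {K : Type} [Field K] [Algebra ℚ K]

theorem formK_smul_left (J : Matrix (Fin 5) (Fin 5) ℚ) (a : K) (x y : Fin 5 → K) :
    formK J (a • x) y = a * formK J x y := by
  unfold formK
  rw [smul_dotProduct, smul_eq_mul]

theorem formK_smul_right (J : Matrix (Fin 5) (Fin 5) ℚ) (a : K) (x y : Fin 5 → K) :
    formK J x (a • y) = a * formK J x y := by
  unfold formK
  rw [mulVec_smul, dotProduct_smul, smul_eq_mul]

theorem formK_add_left (J : Matrix (Fin 5) (Fin 5) ℚ) (x x' y : Fin 5 → K) :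
    formK J (x + x') y = formK J x y + formK J x' y := by
  unfold formK
  rw [add_dotProduct]

/-- There is a rational vector orthogonal to a vector over a quartic field. -/
theorem exists_u (hfin : Module.finrank ℚ K = 4) (J : Matrix (Fin 5) (Fin 5) ℚ) (o : Fin 5 → K) :
    ∃ u : Fin 5 → ℚ, u ≠ 0 ∧ formK J (fun i => algebraMap ℚ K (u i)) o = 0 := by
  have : FiniteDimensional ℚ K := Module.finite_of_finrank_pos (by rw [hfin]; norm_num)
  let L : (Fin 5 → ℚ) →ₗ[ℚ] K :=
    { toFun := fun x => formK J (fun i => algebraMap ℚ K (x i)) o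
      map_add' := by
        intro x y
        rw [← formK_add_left]
        congr 1
        funext i
        exact map_add _ _ _
      map_smul' := by
        intro r x
        refine Eq.trans ?_ (Algebra.smul_def r (formK J (fun i => algebraMap ℚ K (x i)) o)).symm
        rw [← formK_smul_left]
        congr 1
        funext i
        exact map_mul _ _ _ }
  have h1 : L.ker ≠ ⊥ := by
    apply LinearMap.ker_ne_bot_of_finrank_lt
    rw [hfin]
    simp
  obtain ⟨u, h2, h3⟩ := (Submodule.ne_bot_iff _).1 h1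
  exact ⟨u, h3, h2⟩

theorem ι_rat (ι : K →ₐ[ℚ] ℂ) (u : Fin 5 → ℚ) :
    (fun i => ι (algebraMap ℚ K (u i))) = fun i => (((u i : ℚ) : ℝ) : ℂ) := by
  funext i
  rw [AlgHom.commutes]
  simp

theorem exists_vec (G : GalDat K) (hfin : Module.finrank ℚ K = 4)
    {J : Matrix (Fin 5) (Fin 5) ℚ} (hJ : Signature32 J) (o : Fin 5 → K)
    (oo : formK J o o = 0) (os : formK J o (fun i => G.σ (o i)) = 0)
    (ocs : formK J o (fun i => G.c (G.σ (o i))) = 0)
    (hcone : (fun i => G.ι (o i)) ∈ cone J) :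
    ∃ V : VecDat G J, V.o = o ∧ V.μR < 0 ∧ 0 < V.mR ∧ 0 < V.νR := by
  obtain ⟨u, hu, huo⟩ := exists_u hfin J o
  have hstar : star (fun i => G.ι (o i)) = fun i => G.ι (G.c (o i)) := by
    funext i
    exact (G.hc _).symm
  have hμ : formK J o (fun i => G.c (o i)) ≠ 0 := by
    intro h
    have h1 := hcone.2
    rw [hstar, ← formK_ι, h, map_zero] at h1
    simp at h1
  have hw : (fun i => ((u i : ℚ) : ℝ)) ≠ 0 := by
    intro h
    apply hu
    funext i
    have := congrFun h i
    simpa using this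
  have horth : form J (fun i => ((((u i : ℚ) : ℝ)) : ℂ)) (fun i => G.ι (o i)) = 0 := by
    rw [← ι_rat G.ι, ← formK_ι, huo, map_zero]
  have hpos := pos_of_orth hJ hcone _ hw horth
  have hmm : G.ι (formK J (fun i => algebraMap ℚ K (u i)) (fun i => algebraMap ℚ K (u i))) =
      (fR J (fun i => ((u i : ℚ) : ℝ)) (fun i => ((u i : ℚ) : ℝ)) : ℂ) := by
    rw [formK_ι, ι_rat, form_ofReal]
  have hm : formK J (fun i => algebraMap ℚ K (u i)) (fun i => algebraMap ℚ K (u i)) ≠ 0 := by
    intro h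
    rw [h, map_zero] at hmm
    have : fR J (fun i => ((u i : ℚ) : ℝ)) (fun i => ((u i : ℚ) : ℝ)) = 0 := by
      exact_mod_cast hmm.symm
    linarith
  let V : VecDat G J := ⟨hJ.1, o, u, oo, os, ocs, huo, hμ, hm⟩
  refine ⟨V, rfl, ?_, ?_, ?_⟩
  · have h1 := hcone.2
    rw [hstar, ← formK_ι] at h1
    exact h1
  · change 0 < (G.ι (formK J (fun i => algebraMap ℚ K (u i))
      (fun i => algebraMap ℚ K (u i)))).re
    rw [hmm, Complex.ofReal_re]
    exact hpos
  · -- the vector `2 Re (σ o)`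
    set w : Fin 5 → ℝ := fun i => 2 * (G.ι (G.σ (o i))).re with hwdef
    have hwc : (fun i => (w i : ℂ)) = (fun i => V.frame.P i 2) + (fun i => V.frame.P i 3) := by
      funext i
      have h1 : V.frame.P i 2 = G.ι (G.σ (o i)) := rfl
      have h2 : V.frame.P i 3 = star (G.ι (G.σ (o i))) := G.hc _
      rw [Pi.add_apply, h1, h2]
      simp only [hwdef]
      exact (Complex.add_conj _).symm
    have hadd : ∀ x y z : Vec, form J (x + y) z = form J x z + form J y z := by
      intro x y z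
      unfold form
      rw [add_dotProduct]
    have hadd' : ∀ x y z : Vec, form J x (y + z) = form J x y + form J x z := by
      intro x y z
      unfold form
      rw [mulVec_add, dotProduct_add]
    have hww : (fR J w w : ℂ) = 2 * V.frame.ν := by
      rw [← form_ofReal, hwc]
      simp only [hadd, hadd', Frame.form_col]
      simp [Am]
      ring
    have hwo : form J (fun i => (w i : ℂ)) (fun i => G.ι (o i)) = 0 := by
      rw [hwc, hadd]
      have h1 : form J (fun i => V.frame.P i 2) (fun i => V.frame.P i 1) = 0 := by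
        rw [Frame.form_col]; simp [Am]
      have h2 : form J (fun i => V.frame.P i 3) (fun i => V.frame.P i 1) = 0 := by
        rw [Frame.form_col]; simp [Am]
      refine Eq.trans (congrArg₂ _ h1 h2) (add_zero 0)
    have hw0 : w ≠ 0 := by
      intro h
      rw [h] at hww
      have h1 : fR J 0 0 = 0 := by simp [fR]
      rw [h1] at hww
      have h2 : (2 : ℂ) * V.frame.ν = 0 := by
        rw [← hww]; simp
      rcases mul_eq_zero.1 h2 with h3 | h3
      · exact two_ne_zero h3
      · exact V.frame.hν h3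
    have h1 := pos_of_orth hJ hcone w hw0 hwo
    rw [← V.νR_eq] at hww
    have h2 : fR J w w = 2 * V.νR := by exact_mod_cast hww
    linarith

theorem torus_of (G : GalDat K) (hfin : Module.finrank ℚ K = 4)
    {J : Matrix (Fin 5) (Fin 5) ℚ} (hJ : Signature32 J) (o : Fin 5 → K)
    (oo : formK J o o = 0) (os : formK J o (fun i => G.σ (o i)) = 0)
    (ocs : formK J o (fun i => G.c (G.σ (o i))) = 0)
    (hcone : (fun i => G.ι (o i)) ∈ cone J) :
    IsMaximalTorus (SO J) (MT J (fun i => G.ι (o i))) := by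
  obtain ⟨V, hV, -⟩ := exists_vec G hfin hJ o oo os ocs hcone
  have h1 := V.maximal_MT
  rwa [V.frame_o, hV] at h1

end build

namespace VecDat

variable {K : Type} [Field K] [Algebra ℚ K] {G : GalDat K} {J : Matrix (Fin 5) (Fin 5) ℚ}
  (V : VecDat G J)

/-- The coordinate `v` in the cyclic case. -/
def vcyc (t : K) : K := 2 * (V.m * t ^ 2) * (V.m * t ^ 2 + 2 * V.μ) /
  ((V.m * t ^ 2) ^ 2 - 4 * V.μ * V.ν)

/-- The coordinate `v` in the biquadratic case. -/
def vbiq (t : K) : K := (V.m * t ^ 2 + 2 * V.μ) / (V.μ - V.ν)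

theorem charZ (_ : GalDat K) : CharZero K := charZero_of_injective_algebraMap
  (algebraMap ℚ K).injective

theorem orth_cyc (h : ∀ x, G.σ (G.σ x) = G.c x) (t : ℚ)
    (hden : (V.m * (algebraMap ℚ K t) ^ 2) ^ 2 - 4 * V.μ * V.ν ≠ 0) :
    formK J (V.zK (algebraMap ℚ K t) (V.vcyc (algebraMap ℚ K t)))
      (fun i => G.σ (V.zK (algebraMap ℚ K t) (V.vcyc (algebraMap ℚ K t)) i)) = 0 ∧
    formK J (V.zK (algebraMap ℚ K t) (V.vcyc (algebraMap ℚ K t)))
      (fun i => G.c (G.σ (V.zK (algebraMap ℚ K t) (V.vcyc (algebraMap ℚ K t)) i))) = 0 := by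
  have := charZ G
  have hμ := V.μ_ne
  have hν := V.ν_ne
  have hσμ : G.σ V.μ = V.ν := rfl
  have hσν := V.σν
  have hcμ := V.cμ
  have hcν := V.cν
  have hσm := V.σm
  have hcm := V.cm
  set T := algebraMap ℚ K t with hT
  have hσT : G.σ T = T := AlgEquiv.commutes _ _
  have hcT : G.c T = T := AlgEquiv.commutes _ _
  have h2 : G.σ (2 : K) = 2 := map_ofNat _ _
  have h4 : G.σ (4 : K) = 4 := map_ofNat _ _
  have h2c : G.c (2 : K) = 2 := map_ofNat _ _
  have h4c : G.c (4 : K) = 4 := map_ofNat _ _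
  set v := V.vcyc T with hv
  set c' := -(V.m * T ^ 2 / (2 * V.μ)) with hc'
  have k1 : v * ((V.m * T ^ 2) ^ 2 - 4 * V.μ * V.ν) =
      2 * (V.m * T ^ 2) * (V.m * T ^ 2 + 2 * V.μ) := div_mul_cancel₀ _ hden
  have k2 : G.σ v * ((V.m * T ^ 2) ^ 2 - 4 * V.μ * V.ν) =
      2 * (V.m * T ^ 2) * (V.m * T ^ 2 + 2 * V.ν) := by
    have := congrArg G.σ k1
    simp only [map_mul, map_sub, map_add, map_pow, hσμ, hσν, hσm, hσT, h2, h4] at this
    linear_combination this
  have k3 : G.c v = v := by
    simp only [hv, vcyc, map_div₀, map_mul, map_sub, map_add, map_pow, hcμ, hcν, hcm, hcT, h2c,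
      h4c]
  have k4 : G.c (G.σ v) = G.σ v := by rw [← G.comm, k3]
  have k5 : V.μ * c' = -(V.m * T ^ 2 / 2) := by
    rw [hc']
    field_simp
  have k6 : V.ν * G.σ c' = -(V.m * T ^ 2 / 2) := by
    have := congrArg G.σ k5
    simpa only [map_mul, map_neg, map_div₀, map_pow, hσμ, hσm, hσT, h2] using this
  have k7 : G.c (G.σ c') = G.σ c' := by
    rw [← G.comm]
    congr 1
    rw [hc']
    simp only [map_neg, map_div₀, map_mul, map_pow, hcμ, hcm, hcT, h2c]
  have e1 := V.σ_PK_cyc h ![T, 1, 0, v, c']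
  constructor
  · unfold zK
    rw [e1, formK_PK]
    simp only [cons_val_zero, cons_val_one, cons_val, map_zero, map_one, hσT]
    apply mul_right_cancel₀ hden
    linear_combination ((V.m * T ^ 2) ^ 2 - 4 * V.μ * V.ν) * G.σ v * k5 + V.ν * k1 -
      (V.m * T ^ 2 / 2) * k2
  · have e2 : (fun i => G.c (G.σ (V.zK T v i))) =
        fun i => G.c ((V.PK *ᵥ ![G.σ T, G.σ v, G.σ 1, G.σ c', G.σ 0]) i) := by
      funext i
      exact congrArg G.c (congrFun e1 i)
    rw [e2, c_PK]
    unfold zK
    rw [formK_PK]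
    simp only [cons_val_zero, cons_val_one, cons_val, map_zero, map_one, hσT, hcT, k4, k7]
    apply mul_right_cancel₀ hden
    linear_combination ((V.m * T ^ 2) ^ 2 - 4 * V.μ * V.ν) * v * k6 + V.μ * k2 -
      (V.m * T ^ 2 / 2) * k1

theorem orth_biq (h : ∀ x, G.σ (G.σ x) = x) (t : ℚ) (hden : V.μ - V.ν ≠ 0) :
    formK J (V.zK (algebraMap ℚ K t) (V.vbiq (algebraMap ℚ K t)))
      (fun i => G.σ (V.zK (algebraMap ℚ K t) (V.vbiq (algebraMap ℚ K t)) i)) = 0 ∧
    formK J (V.zK (algebraMap ℚ K t) (V.vbiq (algebraMap ℚ K t)))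
      (fun i => G.c (G.σ (V.zK (algebraMap ℚ K t) (V.vbiq (algebraMap ℚ K t)) i))) = 0 := by
  have := charZ G
  have hμ := V.μ_ne
  have hν := V.ν_ne
  have hσμ : G.σ V.μ = V.ν := rfl
  have hσν := V.σν
  have hcμ := V.cμ
  have hcν := V.cν
  have hσm := V.σm
  have hcm := V.cm
  set T := algebraMap ℚ K t with hT
  have hσT : G.σ T = T := AlgEquiv.commutes _ _
  have hcT : G.c T = T := AlgEquiv.commutes _ _
  have h2 : G.σ (2 : K) = 2 := map_ofNat _ _
  have h2c : G.c (2 : K) = 2 := map_ofNat _ _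
  set v := V.vbiq T with hv
  set c' := -(V.m * T ^ 2 / (2 * V.μ)) with hc'
  have k1 : v * (V.μ - V.ν) = V.m * T ^ 2 + 2 * V.μ := div_mul_cancel₀ _ hden
  have k2 : G.σ v * (V.μ - V.ν) = -(V.m * T ^ 2 + 2 * V.ν) := by
    have := congrArg G.σ k1
    simp only [map_mul, map_sub, map_add, map_pow, hσμ, hσν, hσm, hσT, h2] at this
    linear_combination -this
  have k3 : G.c v = v := by
    simp only [hv, vbiq, map_div₀, map_mul, map_sub, map_add, map_pow, hcμ, hcν, hcm, hcT, h2c]
  have k4 : G.c (G.σ v) = G.σ v := by rw [← G.comm, k3]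
  have k5 : V.μ * c' = -(V.m * T ^ 2 / 2) := by
    rw [hc']
    field_simp
  have k6 : V.ν * G.σ c' = -(V.m * T ^ 2 / 2) := by
    have := congrArg G.σ k5
    simpa only [map_mul, map_neg, map_div₀, map_pow, hσμ, hσm, hσT, h2] using this
  have k7 : G.c (G.σ c') = G.σ c' := by
    rw [← G.comm]
    congr 1
    rw [hc']
    simp only [map_neg, map_div₀, map_mul, map_pow, hcμ, hcm, hcT, h2c]
  have e1 := V.σ_PK_biq h ![T, 1, 0, v, c']
  constructor
  · unfold zK
    rw [e1, formK_PK]
    simp only [cons_val_zero, cons_val_one, cons_val, map_zero, map_one, hσT]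
    apply mul_right_cancel₀ hden
    linear_combination V.μ * k2 + V.ν * k1
  · have e2 : (fun i => G.c (G.σ (V.zK T v i))) =
        fun i => G.c ((V.PK *ᵥ ![G.σ T, G.σ 0, G.σ 1, G.σ c', G.σ v]) i) := by
      funext i
      exact congrArg G.c (congrFun e1 i)
    rw [e2, c_PK]
    unfold zK
    rw [formK_PK]
    simp only [cons_val_zero, cons_val_one, cons_val, map_zero, map_one, hσT, hcT, k4, k7]
    apply mul_right_cancel₀ hden
    linear_combination (V.μ - V.ν) * G.σ v * k5 + (V.μ - V.ν) * v * k6 -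
      (V.m * T ^ 2 / 2) * (k1 + k2)

end VecDat

end Pool.Agent.Y973.HS
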