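import Pool.Agent.Y973.HS.Inf

/-!
# The Galois group of a quartic Galois extension in `ℂ`
-/

set_option autoImplicit false

namespace Pool.Agent.Y973.HS

open Matrix

theorem exists_gal (K : IntermediateField ℚ ℂ) [IsGalois ℚ K] (hfin : Module.finrank ℚ K = 4)
    (hreal : ∃ x : K, star (x : ℂ) ≠ x) :
    ∃ G : GalDat K, G.ι = K.val ∧
      ∀ τ : K ≃ₐ[ℚ] K, τ = 1 ∨ τ = G.c ∨ τ = G.σ ∨ τ = G.σ * G.c := by
  classical
  have : FiniteDimensional ℚ K := Module.finite_of_finrank_pos (by rw [hfin]; norm_num)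
  let χ : ℂ ≃ₐ[ℚ] ℂ := Complex.conjAe.restrictScalars ℚ
  let c : K ≃ₐ[ℚ] K := χ.restrictNormal K
  have hc : ∀ x : K, ((c x : K) : ℂ) = star (x : ℂ) := by
    intro x
    exact AlgEquiv.restrictNormal_commutes χ K x
  have hc1 : c ≠ 1 := by
    intro h
    obtain ⟨x, hx⟩ := hreal
    apply hx
    rw [← hc, h]
    rfl
  have hcc : c * c = 1 := by
    ext x
    change ((c (c x) : K) : ℂ) = (x : ℂ)
    rw [hc, hc, star_star]
  have hcinv : c⁻¹ = c := inv_eq_of_mul_eq_one_left hcc
  have hcard : Fintype.card (K ≃ₐ[ℚ] K) = 4 := by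
    rw [← Nat.card_eq_fintype_card, IsGalois.card_aut_eq_finrank, hfin]
  obtain ⟨σ, hσ1, hσc⟩ : ∃ σ : K ≃ₐ[ℚ] K, σ ≠ 1 ∧ σ ≠ c := by
    by_contra h
    push Not at h
    have h1 : (Finset.univ : Finset (K ≃ₐ[ℚ] K)) ⊆ {1, c} := by
      intro τ _
      by_cases h2 : τ = 1
      · simp [h2]
      · simp [h τ h2]
    have h2 := Finset.card_le_card h1
    rw [Finset.card_univ, hcard] at h2
    have h3 := Finset.card_le_two (a := (1 : K ≃ₐ[ℚ] K)) (b := c)
    omega
  have hall : ∀ τ : K ≃ₐ[ℚ] K, τ = 1 ∨ τ = c ∨ τ = σ ∨ τ = σ * c := by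
    have h1 : ({1, c, σ, σ * c} : Finset (K ≃ₐ[ℚ] K)).card = 4 := by
      rw [Finset.card_insert_of_notMem, Finset.card_insert_of_notMem,
        Finset.card_insert_of_notMem, Finset.card_singleton]
      · simp only [Finset.mem_singleton]
        intro h
        exact hc1 (mul_eq_left.1 h.symm)
      · simp only [Finset.mem_insert, Finset.mem_singleton]
        rintro (h | h)
        · exact hσc h.symm
        · exact hσ1 (mul_eq_right.1 h.symm)
      · simp only [Finset.mem_insert, Finset.mem_singleton]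
        rintro (h | h | h)
        · exact hc1 h.symm
        · exact hσ1 h.symm
        · apply hσc
          rw [← hcinv]
          exact eq_inv_of_mul_eq_one_left h.symm
    intro τ
    have h2 := Finset.eq_univ_of_card _ (h1.trans hcard.symm)
    have h3 : τ ∈ ({1, c, σ, σ * c} : Finset (K ≃ₐ[ℚ] K)) := by
      rw [h2]
      exact Finset.mem_univ _
    simpa using h3
  have hcomm : c * σ = σ * c := by
    rcases hall (c * σ) with h | h | h | h
    · exfalso
      apply hσc
      rw [← hcinv]
      exact eq_inv_of_mul_eq_one_right h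
    · exact absurd (mul_eq_left.1 h) hσ1
    · exact absurd (mul_eq_right.1 h) hc1
    · exact h
  have hsq : σ * σ = c ∨ σ * σ = 1 := by
    rcases hall (σ * σ) with h | h | h | h
    · exact Or.inr h
    · exact Or.inl h
    · exact absurd (mul_eq_left.1 h) hσ1
    · exact absurd (mul_left_cancel h) hσc
  let pb := Field.powerBasisOfFiniteOfSeparable ℚ K
  have hinj : ∀ g h : K ≃ₐ[ℚ] K, g pb.gen = h pb.gen → g = h := by
    intro g h hgh
    have h1 : (g : K →ₐ[ℚ] K) = (h : K →ₐ[ℚ] K) := pb.algHom_ext hgh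
    ext x
    exact congrArg _ (DFunLike.congr_fun h1 x)
  have hθ0 : pb.gen ≠ 0 := by
    intro h
    apply hc1
    apply hinj
    rw [h, map_zero, map_zero]
  have n0 : ∀ g : K ≃ₐ[ℚ] K, (0 : K) ≠ g pb.gen := by
    intro g h
    exact hθ0 ((map_eq_zero g).1 h.symm)
  have n1 : pb.gen ≠ σ pb.gen := fun h => hσ1 (hinj _ _ h).symm
  have n2 : pb.gen ≠ c (σ pb.gen) := by
    intro h
    have h1 : (1 : K ≃ₐ[ℚ] K) = c * σ := hinj _ _ h
    apply hσc
    rw [← hcinv]
    exact eq_inv_of_mul_eq_one_right h1.symm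
  have n3 : pb.gen ≠ c pb.gen := fun h => hc1 (hinj _ _ h).symm
  have n4 : σ pb.gen ≠ c (σ pb.gen) := by
    intro h
    have h1 : σ = c * σ := hinj _ _ h
    exact hc1 (mul_eq_right.1 h1.symm)
  have n5 : σ pb.gen ≠ c pb.gen := fun h => hσc (hinj _ _ h)
  have n6 : c (σ pb.gen) ≠ c pb.gen := by
    intro h
    have h1 : c * σ = c := hinj _ _ h
    exact hσ1 (mul_eq_left.1 h1)
  have hθinj : Function.Injective ![0, pb.gen, σ pb.gen, c (σ pb.gen), c pb.gen] := by
    have m1 := n0 1
    have m2 := n0 σ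
    have m3 : (0 : K) ≠ c (σ pb.gen) := n0 (c * σ)
    have m4 := n0 c
    intro i j h
    fin_cases i <;> fin_cases j <;>
      first
      | rfl
      | exact absurd h m1
      | exact absurd h m2
      | exact absurd h m3
      | exact absurd h m4
      | exact absurd h n1
      | exact absurd h n2
      | exact absurd h n3
      | exact absurd h n4
      | exact absurd h n5
      | exact absurd h n6
      | exact absurd h.symm m1
      | exact absurd h.symm m2
      | exact absurd h.symm m3
      | exact absurd h.symm m4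
      | exact absurd h.symm n1
      | exact absurd h.symm n2
      | exact absurd h.symm n3
      | exact absurd h.symm n4
      | exact absurd h.symm n5
      | exact absurd h.symm n6
  -- an element of norm one
  have hξ : ∃ ξ : K, ξ * c ξ = 1 ∧ ξ ^ 2 ≠ 1 := by
    have hccx : ∀ x : K, c (c x) = x := fun x => DFunLike.congr_fun hcc x
    have hgen : ∀ x : K, x ≠ 0 → x ^ 2 ≠ (c x) ^ 2 → ∃ ξ : K, ξ * c ξ = 1 ∧ ξ ^ 2 ≠ 1 := by
      intro x hx h
      have hcx : c x ≠ 0 := (map_ne_zero c).2 hx
      refine ⟨x / c x, ?_, ?_⟩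
      · rw [map_div₀, hccx, div_mul_div_cancel₀ hcx, div_self hx]
      · rw [div_pow]
        intro h1
        exact h ((div_eq_one_iff_eq (pow_ne_zero _ hcx)).1 h1)
    by_cases h : pb.gen ^ 2 = (c pb.gen) ^ 2
    · have h1 : c pb.gen = -pb.gen := by
        rcases sq_eq_sq_iff_eq_or_eq_neg.1 h with h2 | h2
        · exact absurd h2 n3
        · linear_combination h2
      have hχ : CharZero K := charZero_of_injective_algebraMap (algebraMap ℚ K).injective
      have h2 : c (pb.gen + 1) = 1 - pb.gen := by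
        rw [map_add, h1, map_one]
        ring
      refine hgen (pb.gen + 1) ?_ ?_
      · intro h3
        have h4 : pb.gen = -1 := eq_neg_of_add_eq_zero_left h3
        rw [h4, map_neg, map_one, neg_neg] at h1
        have h5 : (2 : K) = 0 := by linear_combination -h1
        exact two_ne_zero h5
      · rw [h2]
        intro h3
        have h4 : (4 : K) * pb.gen = 0 := by linear_combination h3
        rcases mul_eq_zero.1 h4 with h5 | h5
        · have h6 : (4 : K) ≠ 0 := by norm_num
          exact h6 h5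
        · exact hθ0 h5
    · exact hgen _ hθ0 h
  obtain ⟨ξ, hξ1, hξ2⟩ := hξ
  refine ⟨⟨K.val, c, σ, hc, fun x => (DFunLike.congr_fun hcomm x).symm, ?_, ?_, pb.gen, hθinj,
    ξ, hξ1, hξ2⟩, rfl, hall⟩
  · rcases hsq with h | h
    · exact Or.inl fun x => DFunLike.congr_fun h x
    · exact Or.inr fun x => DFunLike.congr_fun h x
  · intro x hcx hσx
    have h1 : ∀ f : K ≃ₐ[ℚ] K, f x = x := by
      intro f
      rcases hall f with h | h | h | h
      · rw [h]; rfl
      · rw [h]; exact hcx
      · rw [h]; exact hσx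
      · rw [h]
        change σ (c x) = x
        rw [hcx, hσx]
    obtain ⟨r, hr⟩ := (IsGalois.mem_range_algebraMap_iff_fixed x).2 h1
    exact ⟨r, hr.symm⟩

end Pool.Agent.Y973.HS
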