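import Pool.Agent.H320R4.HS.Exp

/-!
# Frames adapted to a special point of an orthogonal Shimura variety of dimension three

Author: helper973. `J` is a rational symmetric `5 × 5` matrix. A frame is a basis
`u, o, o₁, o₃, ō` of `ℂ⁵` in which the form `J` is `m`, `(o, ō) = μ`, `(o₁, o₃) = ν`. This file
contains the torus, the tangent space and the exponentials in terms of a frame; the computations
are those of the starting library `Pool.Agent.H320R4.HS`, where they are done for one matrix `J`.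
-/

set_option autoImplicit false

namespace Pool.Agent.Y973.HS

open Matrix
open Pool.Agent.H320R4.HS (Mat Vec GL5 toC form SO cone hodge HodgeIn IsQSubgroup MT IsTorus
  IsMaximalTorus tangent tangentOf IsHarishChandra Qbar IsStructure StabStable IsRational fam
  mem_of_infinite infinite_rat infinite_circle lam XM cM evG evG_apply evG_X evG_XT evG_c
  exp_nil torus_comm Signature32)

/-- The form in the basis. -/
def Am (m μ ν : ℂ) : Mat :=
  !![m, 0, 0, 0, 0; 0, 0, 0, 0, μ; 0, 0, 0, ν, 0; 0, 0, ν, 0, 0; 0, μ, 0, 0, 0]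

/-- A frame. -/
structure Frame (J : Matrix (Fin 5) (Fin 5) ℚ) where
  /-- the matrix of the basis -/
  P : Mat
  /-- its inverse -/
  Q : Mat
  PQ : P * Q = 1
  QP : Q * P = 1
  /-- `(u, u)` -/
  m : ℂ
  /-- `(o, ō)` -/
  μ : ℂ
  /-- `(o₁, o₃)` -/
  ν : ℂ
  hm : m ≠ 0
  hμ : μ ≠ 0
  hν : ν ≠ 0
  gram : Pᵀ * toC J * P = Am m μ ν
  conj : ∀ j, P j 4 = star (P j 1)

namespace Frame

variable {J : Matrix (Fin 5) (Fin 5) ℚ} (D : Frame J)

/-- The point `o`. -/
def o : Vec := fun j => D.P j 1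

/-- Change of basis. -/
def cb (N : Mat) : Mat := D.P * N * D.Q

theorem cb_mul (N N' : Mat) : D.cb N * D.cb N' = D.cb (N * N') := by
  unfold cb
  calc D.P * N * D.Q * (D.P * N' * D.Q) = D.P * N * (D.Q * D.P) * N' * D.Q := by
        simp only [Matrix.mul_assoc]
    _ = _ := by rw [D.QP, Matrix.mul_one]; simp only [Matrix.mul_assoc]

theorem cb_one : D.cb 1 = 1 := by rw [cb, Matrix.mul_one, D.PQ]

theorem cb_add (N N' : Mat) : D.cb (N + N') = D.cb N + D.cb N' := by
  rw [cb, Matrix.mul_add, Matrix.add_mul]; rfl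

theorem cb_sub (N N' : Mat) : D.cb (N - N') = D.cb N - D.cb N' := by
  rw [cb, Matrix.mul_sub, Matrix.sub_mul]; rfl

theorem cb_smul (c : ℂ) (N : Mat) : D.cb (c • N) = c • D.cb N := by
  rw [cb, Matrix.mul_smul, Matrix.smul_mul]; rfl

theorem cb_zero : D.cb 0 = 0 := by rw [cb, Matrix.mul_zero, Matrix.zero_mul]

theorem cb_inj {N N' : Mat} (h : D.cb N = D.cb N') : N = N' := by
  have h2 : ∀ N, D.Q * D.cb N * D.P = N := by
    intro N
    unfold cb
    calc D.Q * (D.P * N * D.Q) * D.P = (D.Q * D.P) * N * (D.Q * D.P) := by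
          simp only [Matrix.mul_assoc]
      _ = _ := by rw [D.QP]; simp
  rw [← h2 N, ← h2 N', h]

/-- Coordinates. -/
def co (Y : Mat) : Mat := D.Q * Y * D.P

theorem cb_co (Y : Mat) : D.cb (D.co Y) = Y := by
  unfold cb co
  calc D.P * (D.Q * Y * D.P) * D.Q = (D.P * D.Q) * Y * (D.P * D.Q) := by
        simp only [Matrix.mul_assoc]
    _ = _ := by rw [D.PQ]; simp

theorem co_cb (N : Mat) : D.co (D.cb N) = N := D.cb_inj (D.cb_co _)

theorem co_mul (Y Y' : Mat) : D.co (Y * Y') = D.co Y * D.co Y' := by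
  apply D.cb_inj
  rw [D.cb_co, ← D.cb_mul, D.cb_co, D.cb_co]

theorem co_smul (c : ℂ) (Y : Mat) : D.co (c • Y) = c • D.co Y := by
  rw [co, Matrix.mul_smul, Matrix.smul_mul]; rfl

theorem J_eq : toC J = D.Qᵀ * Am D.m D.μ D.ν * D.Q := by
  rw [← D.gram]
  have h : D.Qᵀ * D.Pᵀ = 1 := by rw [← transpose_mul, D.PQ, transpose_one]
  calc toC J = (D.Qᵀ * D.Pᵀ) * toC J * (D.P * D.Q) := by rw [h, D.PQ]; simp
    _ = _ := by simp only [Matrix.mul_assoc]

theorem form_P (x y : Vec) : form J (D.P *ᵥ x) (D.P *ᵥ y) = x ⬝ᵥ (Am D.m D.μ D.ν *ᵥ y) := by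
  unfold form
  rw [← D.gram, mulVec_mulVec]
  simp only [dotProduct_mulVec, vecMul_mulVec, ← Matrix.mul_assoc]

theorem transpose_mul_of {N N' : Mat} :
    (D.cb N)ᵀ * toC J * D.cb N' = D.Qᵀ * (Nᵀ * Am D.m D.μ D.ν * N') * D.Q := by
  unfold cb
  rw [transpose_mul, transpose_mul, ← D.gram]
  simp only [Matrix.mul_assoc]

theorem det_cb (N : Mat) : (D.cb N).det = N.det := by
  unfold cb
  rw [det_mul, det_mul, mul_right_comm, ← det_mul, D.PQ, det_one, one_mul]

theorem Am_symm (m μ ν : ℂ) : (Am m μ ν)ᵀ = Am m μ ν := by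
  ext i j
  fin_cases i <;> fin_cases j <;> simp [Am]

/-- The rank one matrices `x ⊗ J y` for two vectors of the basis. -/
def tn (i j : Fin 5) : Mat :=
  vecMulVec (fun k => D.P k i) (toC J *ᵥ fun k => D.P k j)

/-- The matrix `e_i ⊗ A e_j`. -/
def En (m μ ν : ℂ) (i j : Fin 5) : Mat := Matrix.of fun k l => if k = i then Am m μ ν l j else 0

theorem tn_eq (i j : Fin 5) : D.tn i j = D.cb (En D.m D.μ D.ν i j) := by
  have h1 : (toC J *ᵥ fun k => D.P k j) = D.Qᵀ *ᵥ (fun l => Am D.m D.μ D.ν l j) := by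
    have h2 : (fun k => D.P k j) = D.P *ᵥ (Pi.single j 1) := by
      funext k; simp
    have h3 : (fun l => Am D.m D.μ D.ν l j) = Am D.m D.μ D.ν *ᵥ (Pi.single j 1) := by
      funext k; simp
    rw [h2, h3, D.J_eq, mulVec_mulVec, mulVec_mulVec, Matrix.mul_assoc, D.QP, Matrix.mul_one]
  have h4 : D.cb (En D.m D.μ D.ν i j) =
      vecMulVec (D.P *ᵥ Pi.single i 1) ((fun l => Am D.m D.μ D.ν l j) ᵥ* D.Q) := by
    have h5 : En D.m D.μ D.ν i j = vecMulVec (Pi.single i 1) (fun l => Am D.m D.μ D.ν l j) := by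
      ext k l
      simp only [En, of_apply, vecMulVec_apply, Pi.single_apply]
      split_ifs <;> simp
    rw [cb, h5, mul_vecMulVec, vecMulVec_mul]
  rw [h4, tn, h1, mulVec_transpose]
  congr 1
  funext k
  simp

theorem star_o : star D.o = fun j => D.P j 4 := by
  funext j
  rw [D.conj]
  rfl

theorem form_col (i j : Fin 5) :
    form J (fun k => D.P k i) (fun k => D.P k j) = Am D.m D.μ D.ν i j := by
  have h2 : ∀ j : Fin 5, (fun k => D.P k j) = D.P *ᵥ (Pi.single j 1) := by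
    intro j; funext k; simp
  rw [h2 i, h2 j, D.form_P]
  simp

theorem form_o_star : form J D.o (star D.o) = D.μ := by
  rw [D.star_o]
  exact (D.form_col 1 4).trans (by simp [Am])

theorem form_o : form J D.o D.o = 0 := (D.form_col 1 1).trans (by simp [Am])

/-! ### the torus -/

/-- The elements of the torus. -/
noncomputable def Tel (x y : ℂˣ) : GL5 :=
  ⟨D.cb (diagonal ![1, (x : ℂ), (y : ℂ), (y : ℂ)⁻¹, (x : ℂ)⁻¹]),
    D.cb (diagonal ![1, (x : ℂ)⁻¹, (y : ℂ)⁻¹, (y : ℂ), (x : ℂ)]), by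
    rw [D.cb_mul, diagonal_mul_diagonal, ← D.cb_one]
    congr 1
    rw [← diagonal_one]
    congr 1
    funext k
    fin_cases k <;> simp, by
    rw [D.cb_mul, diagonal_mul_diagonal, ← D.cb_one]
    congr 1
    rw [← diagonal_one]
    congr 1
    funext k
    fin_cases k <;> simp⟩

theorem Tel_val (x y : ℂˣ) :
    (D.Tel x y : Mat) = D.cb (diagonal ![1, (x : ℂ), (y : ℂ), (y : ℂ)⁻¹, (x : ℂ)⁻¹]) := rfl

theorem Tel_mul (x y x' y' : ℂˣ) : D.Tel x y * D.Tel x' y' = D.Tel (x * x') (y * y') := by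
  apply Units.ext
  rw [Units.val_mul, Tel_val, Tel_val, Tel_val, cb_mul, diagonal_mul_diagonal]
  congr 2
  funext k
  fin_cases k <;> simp [mul_comm]

theorem Tel_one : D.Tel 1 1 = 1 := by
  apply Units.ext
  refine Eq.trans ?_ D.cb_one
  rw [Tel_val, ← diagonal_one]
  congr 2
  funext k
  fin_cases k <;> simp

theorem Tel_inv (x y : ℂˣ) : (D.Tel x y)⁻¹ = D.Tel x⁻¹ y⁻¹ := by
  rw [inv_eq_iff_mul_eq_one, Tel_mul, mul_inv_cancel, mul_inv_cancel, Tel_one]

theorem Tel_mem_SO (x y : ℂˣ) : D.Tel x y ∈ SO J := by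
  constructor
  · rw [Tel_val, D.transpose_mul_of]
    conv_rhs => rw [D.J_eq]
    congr 2
    have hx : (x : ℂ) ≠ 0 := x.ne_zero
    have hy : (y : ℂ) ≠ 0 := y.ne_zero
    ext k l
    rw [mul_diagonal, diagonal_transpose, diagonal_mul]
    fin_cases k <;> fin_cases l <;> simp [Am] <;> field_simp
  · rw [Tel_val, det_cb, det_diagonal]
    simp [Fin.prod_univ_five]

/-- The torus. -/
noncomputable def Tor : Subgroup GL5 where
  carrier := {g | ∃ x y : ℂˣ, g = D.Tel x y}
  mul_mem' := by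
    rintro _ _ ⟨x, y, rfl⟩ ⟨x', y', rfl⟩
    exact ⟨_, _, D.Tel_mul _ _ _ _⟩
  one_mem' := ⟨1, 1, D.Tel_one.symm⟩
  inv_mem' := by
    rintro _ ⟨x, y, rfl⟩
    exact ⟨_, _, D.Tel_inv x y⟩

theorem mem_Tor {g : GL5} : g ∈ D.Tor ↔ ∃ x y : ℂˣ, g = D.Tel x y := Iff.rfl

theorem Tor_le_SO : D.Tor ≤ SO J := by
  rintro _ ⟨x, y, rfl⟩
  exact D.Tel_mem_SO x y

/-- The torus is the centralizer in `SO(J)` of a regular diagonal matrix. -/
theorem mem_Tor_iff (d : Fin 5 → ℂ) (hd : Function.Injective d) {g : GL5} :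
    g ∈ D.Tor ↔ g ∈ SO J ∧ (g : Mat) * D.cb (diagonal d) = D.cb (diagonal d) * (g : Mat) := by
  constructor
  · rintro ⟨x, y, rfl⟩
    refine ⟨D.Tel_mem_SO x y, ?_⟩
    rw [Tel_val, cb_mul, cb_mul, diagonal_mul_diagonal, diagonal_mul_diagonal]
    congr 2
    funext k
    exact mul_comm _ _
  · rintro ⟨⟨h1, h2⟩, h3⟩
    set N : Mat := D.co (g : Mat) with hN
    have hg : (g : Mat) = D.cb N := (D.cb_co _).symm
    have h5 : N * diagonal d = diagonal d * N := by
      apply D.cb_inj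
      rw [← cb_mul, ← cb_mul, ← hg, h3]
    have h9 : ∀ k l, k ≠ l → N k l = 0 := by
      intro k l hkl
      have := congrFun (congrFun h5 k) l
      rw [mul_diagonal, diagonal_mul] at this
      have h10 : N k l * (d l - d k) = 0 := by linear_combination this
      rcases mul_eq_zero.1 h10 with h | h
      · exact h
      · exact absurd (hd (sub_eq_zero.1 h)).symm hkl
    have h11 : N = diagonal fun k => N k k := by
      ext k l
      by_cases hkl : k = l
      · subst hkl; simp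
      · rw [h9 k l hkl, diagonal_apply_ne _ hkl]
    have h12 : Nᵀ * Am D.m D.μ D.ν * N = Am D.m D.μ D.ν := by
      have h13 := D.transpose_mul_of (N := N) (N' := N)
      rw [← hg, h1, D.J_eq] at h13
      have h : D.Pᵀ * D.Qᵀ = 1 := by rw [← transpose_mul, D.QP, transpose_one]
      have h14 : ∀ X : Mat, D.Pᵀ * (D.Qᵀ * X * D.Q) * D.P = X := by
        intro X
        calc D.Pᵀ * (D.Qᵀ * X * D.Q) * D.P = (D.Pᵀ * D.Qᵀ) * X * (D.Q * D.P) := by
              simp only [Matrix.mul_assoc]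
          _ = _ := by rw [h, D.QP]; simp
      rw [← h14 (Nᵀ * Am D.m D.μ D.ν * N), ← h13, h14]
    have hμ := D.hμ
    have hν := D.hν
    rw [h11] at h12
    have h1' : N 1 1 * N 4 4 = 1 := by
      have := congrFun (congrFun h12 1) 4
      simp [Am, Matrix.mul_apply, Fin.sum_univ_five, diagonal_transpose] at this
      have h18 : D.μ * (N 1 1 * N 4 4 - 1) = 0 := by linear_combination this
      rcases mul_eq_zero.1 h18 with h | h
      · exact absurd h hμ
      · linear_combination h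
    have h2' : N 2 2 * N 3 3 = 1 := by
      have := congrFun (congrFun h12 2) 3
      simp [Am, Matrix.mul_apply, Fin.sum_univ_five, diagonal_transpose] at this
      have h18 : D.ν * (N 2 2 * N 3 3 - 1) = 0 := by linear_combination this
      rcases mul_eq_zero.1 h18 with h | h
      · exact absurd h hν
      · linear_combination h
    have h19 : N 0 0 = 1 := by
      have hd : N.det = 1 := by
        rw [← D.det_cb, ← hg, h2]
      rw [h11, det_diagonal, Fin.prod_univ_five] at hd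
      linear_combination hd - N 0 0 * (N 2 2 * N 3 3) * h1' - N 0 0 * h2'
    refine ⟨⟨N 1 1, N 4 4, h1', by rw [mul_comm]; exact h1'⟩,
      ⟨N 2 2, N 3 3, h2', by rw [mul_comm]; exact h2'⟩, ?_⟩
    apply Units.ext
    rw [hg, Tel_val]
    congr 1
    refine h11.trans ?_
    congr 1
    funext k
    fin_cases k
    · simp [h19]
    · simp
    · simp
    · simpa using eq_inv_of_mul_eq_one_right h2'
    · simpa using eq_inv_of_mul_eq_one_right h1'

/-- The homomorphism `h_o` in the basis. -/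
theorem hodge_o (z : ℂ) (hz : z ≠ 0) : hodge J D.o z = (D.Tel (lam z hz) 1 : Mat) := by
  have h14 : vecMulVec D.o (toC J *ᵥ star D.o) = D.tn 1 4 := by
    rw [D.star_o]; rfl
  have h41 : vecMulVec (star D.o) (toC J *ᵥ D.o) = D.tn 4 1 := by
    rw [D.star_o]; rfl
  have hs : star z ≠ 0 := star_ne_zero.2 hz
  have hμ := D.hμ
  unfold hodge
  rw [h14, h41, D.form_o_star, D.tn_eq, D.tn_eq, ← D.cb_smul, ← D.cb_smul, ← D.cb_one, ← D.cb_add,
    ← D.cb_add, Tel_val]
  congr 1
  ext k l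
  simp only [lam, Units.val_mk0, Units.val_one]
  fin_cases k <;> fin_cases l <;> simp [En, Am] <;> field_simp <;> ring

end Frame

end Pool.Agent.Y973.HS
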