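import Pool.Agent.Y973.HS.Tan

/-!
# Special points with a Galois reflex field: arithmetic

Author: helper973. `K` is a field with two commuting automorphisms `c` (complex conjugation) and `σ`
with common fixed field `ℚ` and `σ² ∈ {1, c}`.
-/

set_option autoImplicit false

namespace Pool.Agent.Y973.HS

open Matrix
open Pool.Agent.H320R4.HS (Mat Vec GL5 toC form SO cone hodge HodgeIn IsQSubgroup MT IsTorus
  IsMaximalTorus tangent tangentOf IsHarishChandra Qbar IsStructure StabStable IsRational fam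
  mem_of_infinite infinite_rat infinite_circle lam XM cM evG evG_apply evG_X evG_XT evG_c
  exp_nil torus_comm Signature32)

/-- The field data. -/
structure GalDat (K : Type) [Field K] [Algebra ℚ K] where
  /-- the embedding -/
  ι : K →ₐ[ℚ] ℂ
  /-- complex conjugation -/
  c : K ≃ₐ[ℚ] K
  /-- the other automorphism -/
  σ : K ≃ₐ[ℚ] K
  hc : ∀ x, ι (c x) = star (ι x)
  comm : ∀ x, σ (c x) = c (σ x)
  sq : (∀ x, σ (σ x) = c x) ∨ (∀ x, σ (σ x) = x)
  fix : ∀ x, c x = x → σ x = x → ∃ r : ℚ, x = algebraMap ℚ K r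
  /-- a generator -/
  θ : K
  hθ : Function.Injective ![0, θ, σ θ, c (σ θ), c θ]
  /-- an element of norm one -/
  ξ : K
  hξ : ξ * c ξ = 1
  hξ2 : ξ ^ 2 ≠ 1

namespace GalDat

variable {K : Type} [Field K] [Algebra ℚ K] (G : GalDat K)

theorem cc (x : K) : G.c (G.c x) = x := by
  apply G.ι.toRingHom.injective
  change G.ι _ = G.ι _
  rw [G.hc, G.hc, star_star]

/-- The sum over the four conjugates is rational. -/
theorem tr_rat (x : K) : ∃ r : ℚ, x + G.σ x + G.c (G.σ x) + G.c x = algebraMap ℚ K r := by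
  refine G.fix _ ?_ ?_
  · simp only [map_add, G.cc]
    ring
  · rcases G.sq with h | h
    · simp only [map_add, G.comm, h, G.cc]
      ring
    · simp only [map_add, G.comm, h]
      ring

end GalDat

/-- The form over `K`. -/
def formK {K : Type} [Field K] [Algebra ℚ K] (J : Matrix (Fin 5) (Fin 5) ℚ) (x y : Fin 5 → K) : K :=
  x ⬝ᵥ (J.map (algebraMap ℚ K) *ᵥ y)

section formK

variable {K : Type} [Field K] [Algebra ℚ K] {J : Matrix (Fin 5) (Fin 5) ℚ}

theorem formK_comm (hJ : J.IsSymm) (x y : Fin 5 → K) : formK J x y = formK J y x := by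
  unfold formK
  rw [dotProduct_mulVec, dotProduct_comm, ← mulVec_transpose]
  congr 2
  rw [← transpose_map, hJ.eq]

theorem formK_map (τ : K ≃ₐ[ℚ] K) (x y : Fin 5 → K) :
    τ (formK J x y) = formK J (fun i => τ (x i)) (fun i => τ (y i)) := by
  unfold formK
  simp only [dotProduct, mulVec, map_sum, map_mul, map_apply, AlgEquiv.commutes]

theorem formK_ι (ι : K →ₐ[ℚ] ℂ) (x y : Fin 5 → K) :
    ι (formK J x y) = form J (fun i => ι (x i)) (fun i => ι (y i)) := by
  unfold formK form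
  simp only [dotProduct, mulVec, map_sum, map_mul, map_apply, AlgHom.commutes, toC]
  rfl

/-- `x ⊗ J y` -/
def tK (J : Matrix (Fin 5) (Fin 5) ℚ) (x y : Fin 5 → K) : Matrix (Fin 5) (Fin 5) K :=
  vecMulVec x (J.map (algebraMap ℚ K) *ᵥ y)

theorem tK_map (τ : K ≃ₐ[ℚ] K) (x y : Fin 5 → K) :
    (tK J x y).map τ = tK J (fun i => τ (x i)) (fun i => τ (y i)) := by
  ext i j
  simp only [tK, map_apply, vecMulVec_apply, mulVec, dotProduct, map_mul, map_sum,
    AlgEquiv.commutes]

theorem tK_ι (ι : K →ₐ[ℚ] ℂ) (x y : Fin 5 → K) :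
    (tK J x y).map ι = vecMulVec (fun i => ι (x i)) (toC J *ᵥ fun i => ι (y i)) := by
  ext i j
  simp only [tK, map_apply, vecMulVec_apply, mulVec, dotProduct, map_mul, map_sum,
    AlgHom.commutes, toC]
  rfl

end formK

/-- The vectors. -/
structure VecDat {K : Type} [Field K] [Algebra ℚ K] (G : GalDat K)
    (J : Matrix (Fin 5) (Fin 5) ℚ) where
  symm : J.IsSymm
  /-- the point -/
  o : Fin 5 → K
  /-- the rational vector orthogonal to it -/
  u : Fin 5 → ℚ
  oo : formK J o o = 0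
  os : formK J o (fun i => G.σ (o i)) = 0
  ocs : formK J o (fun i => G.c (G.σ (o i))) = 0
  uo : formK J (fun i => algebraMap ℚ K (u i)) o = 0
  hμ : formK J o (fun i => G.c (o i)) ≠ 0
  hm : formK J (fun i => algebraMap ℚ K (u i)) (fun i => algebraMap ℚ K (u i)) ≠ 0

namespace VecDat

variable {K : Type} [Field K] [Algebra ℚ K] {G : GalDat K} {J : Matrix (Fin 5) (Fin 5) ℚ}
  (V : VecDat G J)

/-- The basis. -/
def w (k : Fin 5) : Fin 5 → K :=
  ![fun i => algebraMap ℚ K (V.u i), V.o, fun i => G.σ (V.o i), fun i => G.c (G.σ (V.o i)),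
    fun i => G.c (V.o i)] k

/-- `(u, u)` -/
def m : K := formK J (V.w 0) (V.w 0)

/-- `(o, ō)` -/
def μ : K := formK J (V.w 1) (V.w 4)

/-- `(o₁, o₃)` -/
def ν : K := G.σ V.μ

theorem m_rat : ∃ r : ℚ, V.m = algebraMap ℚ K r := by
  refine ⟨V.u ⬝ᵥ (J *ᵥ V.u), ?_⟩
  simp only [m, formK, w, dotProduct, mulVec, map_sum, map_mul, map_apply]
  rfl

theorem m_ne : V.m ≠ 0 := V.hm

theorem μ_ne : V.μ ≠ 0 := V.hμ

theorem ν_ne : V.ν ≠ 0 := by
  intro h
  exact V.hμ ((map_eq_zero G.σ).1 h)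

theorem cμ : G.c V.μ = V.μ := by
  unfold μ
  rw [formK_map, formK_comm V.symm]
  congr 1
  funext i
  exact G.cc _

theorem cν : G.c V.ν = V.ν := by
  rw [ν, ← G.comm, V.cμ]

theorem σν : G.σ V.ν = V.μ := by
  rcases G.sq with h | h
  · rw [ν, h, V.cμ]
  · rw [ν, h]

theorem c_w0 : (fun i => G.c (V.w 0 i)) = V.w 0 := by
  funext i
  exact AlgEquiv.commutes _ _

theorem σ_w0 : (fun i => G.σ (V.w 0 i)) = V.w 0 := by
  funext i
  exact AlgEquiv.commutes _ _

theorem c_w1 : (fun i => G.c (V.w 1 i)) = V.w 4 := rfl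

theorem c_w2 : (fun i => G.c (V.w 2 i)) = V.w 3 := rfl

theorem c_w3 : (fun i => G.c (V.w 3 i)) = V.w 2 := by
  funext i
  exact G.cc _

theorem c_w4 : (fun i => G.c (V.w 4 i)) = V.w 1 := by
  funext i
  exact G.cc _

theorem σ_w1 : (fun i => G.σ (V.w 1 i)) = V.w 2 := rfl

theorem σ_w4 : (fun i => G.σ (V.w 4 i)) = V.w 3 := by
  funext i
  exact G.comm _

/-- The form over `K` in the basis. -/
def AmK : Matrix (Fin 5) (Fin 5) K :=
  !![V.m, 0, 0, 0, 0; 0, 0, 0, 0, V.μ; 0, 0, 0, V.ν, 0; 0, 0, V.ν, 0, 0; 0, V.μ, 0, 0, 0]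

theorem form_w (i j : Fin 5) : formK J (V.w i) (V.w j) = V.AmK i j := by
  have s := fun i j => formK_comm V.symm (V.w i) (V.w j)
  have h01 : formK J (V.w 0) (V.w 1) = 0 := V.uo
  have h11 : formK J (V.w 1) (V.w 1) = 0 := V.oo
  have h12 : formK J (V.w 1) (V.w 2) = 0 := V.os
  have h13 : formK J (V.w 1) (V.w 3) = 0 := V.ocs
  have h14 : formK J (V.w 1) (V.w 4) = V.μ := rfl
  have h02 : formK J (V.w 0) (V.w 2) = 0 := by
    have := congrArg G.σ h01
    rwa [formK_map, σ_w0, σ_w1, map_zero] at this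
  have h03 : formK J (V.w 0) (V.w 3) = 0 := by
    have := congrArg G.c h02
    rwa [formK_map, c_w0, c_w2, map_zero] at this
  have h04 : formK J (V.w 0) (V.w 4) = 0 := by
    have := congrArg G.c h01
    rwa [formK_map, c_w0, c_w1, map_zero] at this
  have h22 : formK J (V.w 2) (V.w 2) = 0 := by
    have := congrArg G.σ h11
    rwa [formK_map, σ_w1, map_zero] at this
  have h33 : formK J (V.w 3) (V.w 3) = 0 := by
    have := congrArg G.c h22
    rwa [formK_map, c_w2, map_zero] at this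
  have h44 : formK J (V.w 4) (V.w 4) = 0 := by
    have := congrArg G.c h11
    rwa [formK_map, c_w1, map_zero] at this
  have h23 : formK J (V.w 2) (V.w 3) = V.ν := by
    have := congrArg G.σ h14
    rwa [formK_map, σ_w1, σ_w4] at this
  have h24 : formK J (V.w 2) (V.w 4) = 0 := by
    have := congrArg G.c h13
    rw [formK_map, c_w1, c_w3, map_zero] at this
    rw [s]
    exact this
  have h34 : formK J (V.w 3) (V.w 4) = 0 := by
    have := congrArg G.c h12
    rw [formK_map, c_w1, c_w2, map_zero] at this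
    rw [s]
    exact this
  fin_cases i <;> fin_cases j
  · rfl
  · exact h01
  · exact h02
  · exact h03
  · exact h04
  · exact (s 1 0).trans h01
  · exact h11
  · exact h12
  · exact h13
  · exact h14
  · exact (s 2 0).trans h02
  · exact (s 2 1).trans h12
  · exact h22
  · exact h23
  · exact h24
  · exact (s 3 0).trans h03
  · exact (s 3 1).trans h13
  · exact (s 3 2).trans h23
  · exact h33
  · exact h34
  · exact (s 4 0).trans h04
  · exact (s 4 1).trans h14
  · exact (s 4 2).trans h24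
  · exact (s 4 3).trans h34
  · exact h44

/-- The matrix of the basis over `K`. -/
def PK : Matrix (Fin 5) (Fin 5) K := Matrix.of fun i k => V.w k i

theorem gramK : V.PKᵀ * J.map (algebraMap ℚ K) * V.PK = V.AmK := by
  ext i j
  rw [← V.form_w i j, formK, Matrix.mul_assoc, Matrix.mul_apply]
  rfl

theorem det_AmK : V.AmK.det ≠ 0 := by
  have h : V.AmK.det = V.m * V.μ ^ 2 * V.ν ^ 2 := by
    simp [AmK, det_succ_row_zero, Fin.sum_univ_succ, Fin.succAbove]
    ring
  rw [h]
  exact mul_ne_zero (mul_ne_zero V.m_ne (pow_ne_zero _ V.μ_ne)) (pow_ne_zero _ V.ν_ne)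

theorem det_PK : IsUnit V.PK.det := by
  have h := congrArg Matrix.det V.gramK
  rw [det_mul, det_mul, det_transpose] at h
  rw [isUnit_iff_ne_zero]
  intro h0
  rw [h0, mul_zero] at h
  exact V.det_AmK h.symm

/-- The frame. -/
noncomputable def frame : Frame J where
  P := V.PK.map G.ι
  Q := (V.PK⁻¹).map G.ι
  PQ := by
    rw [← Matrix.map_mul, mul_nonsing_inv _ V.det_PK]
    exact Matrix.map_one _ (map_zero _) (map_one _)
  QP := by
    rw [← Matrix.map_mul, nonsing_inv_mul _ V.det_PK]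
    exact Matrix.map_one _ (map_zero _) (map_one _)
  m := G.ι V.m
  μ := G.ι V.μ
  ν := G.ι V.ν
  hm := (map_ne_zero G.ι).2 V.m_ne
  hμ := (map_ne_zero G.ι).2 V.μ_ne
  hν := (map_ne_zero G.ι).2 V.ν_ne
  gram := by
    have h1 : toC J = (J.map (algebraMap ℚ K)).map G.ι := by
      ext i j
      simp only [toC, map_apply, AlgHom.commutes]
      rfl
    rw [h1, ← transpose_map, ← Matrix.map_mul, ← Matrix.map_mul, V.gramK]
    ext i j
    fin_cases i <;> fin_cases j <;> simp [AmK, Am]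
  conj := fun j => G.hc _

theorem frame_m : V.frame.m = G.ι V.m := rfl

theorem frame_μ : V.frame.μ = G.ι V.μ := rfl

theorem frame_ν : V.frame.ν = G.ι V.ν := rfl

theorem frame_o : V.frame.o = fun i => G.ι (V.o i) := rfl

theorem map_tK (i j : Fin 5) : (tK J (V.w i) (V.w j)).map G.ι = V.frame.tn i j := tK_ι _ _ _

end VecDat

/-- Galois conjugation. -/
theorem mem_gal {K : Type} [Field K] [Algebra ℚ K] (ι : K →ₐ[ℚ] ℂ) {H : Subgroup GL5}
    (hH : IsQSubgroup H) (M : Matrix (Fin 5) (Fin 5) K) (τ : K ≃ₐ[ℚ] K) (g g' : GL5)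
    (hg : (g : Mat) = M.map ι) (hg' : (g' : Mat) = (M.map τ).map ι) (h : g ∈ H) : g' ∈ H := by
  obtain ⟨P, hP⟩ := hH
  rw [hP] at h ⊢
  intro p hp
  have key : ∀ M : Matrix (Fin 5) (Fin 5) K, MvPolynomial.aeval (fun ij : Fin 5 × Fin 5 =>
      (M.map ι) ij.1 ij.2) p = ι (MvPolynomial.aeval (fun ij : Fin 5 × Fin 5 => M ij.1 ij.2) p) := by
    intro M
    rw [← AlgHom.comp_apply]
    congr 1
    apply MvPolynomial.algHom_ext
    intro ij
    simp
  have key2 : MvPolynomial.aeval (fun ij : Fin 5 × Fin 5 => (M.map τ) ij.1 ij.2) p =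
      τ (MvPolynomial.aeval (fun ij : Fin 5 × Fin 5 => M ij.1 ij.2) p) := by
    have : τ (MvPolynomial.aeval (fun ij : Fin 5 × Fin 5 => M ij.1 ij.2) p) =
        (τ.toAlgHom.comp (MvPolynomial.aeval (fun ij : Fin 5 × Fin 5 => M ij.1 ij.2))) p := rfl
    rw [this]
    congr 1
    apply MvPolynomial.algHom_ext
    intro ij
    simp
  have h1 := h p hp
  rw [hg, key] at h1
  rw [hg', key, key2]
  have h2 := (map_eq_zero ι).1 h1
  rw [h2, map_zero, map_zero]

end Pool.Agent.Y973.HS
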