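import Pool.Agent.H320R4.HS.Defs

/-!
# Real vectors orthogonal to a point of the domain have positive length
-/

set_option autoImplicit false

namespace Pool.Agent.Y973.HS

open Matrix
open Pool.Agent.H320R4.HS (Mat Vec GL5 toC form SO cone Signature32)

/-- The real form. -/
noncomputable def fR (J : Matrix (Fin 5) (Fin 5) ℚ) (x y : Fin 5 → ℝ) : ℝ :=
  x ⬝ᵥ (J.map (fun q => (q : ℝ)) *ᵥ y)

theorem fR_comm {J : Matrix (Fin 5) (Fin 5) ℚ} (hJ : J.IsSymm) (x y : Fin 5 → ℝ) :
    fR J x y = fR J y x := by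
  unfold fR
  rw [dotProduct_mulVec, dotProduct_comm, ← mulVec_transpose]
  congr 2
  rw [← transpose_map, hJ.eq]

theorem fR_add_left (J : Matrix (Fin 5) (Fin 5) ℚ) (x x' y : Fin 5 → ℝ) :
    fR J (x + x') y = fR J x y + fR J x' y := by
  unfold fR
  rw [add_dotProduct]

theorem fR_add_right (J : Matrix (Fin 5) (Fin 5) ℚ) (x y y' : Fin 5 → ℝ) :
    fR J x (y + y') = fR J x y + fR J x y' := by
  unfold fR
  rw [mulVec_add, dotProduct_add]

theorem fR_smul_left (J : Matrix (Fin 5) (Fin 5) ℚ) (a : ℝ) (x y : Fin 5 → ℝ) :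
    fR J (a • x) y = a * fR J x y := by
  unfold fR
  rw [smul_dotProduct, smul_eq_mul]

theorem fR_smul_right (J : Matrix (Fin 5) (Fin 5) ℚ) (a : ℝ) (x y : Fin 5 → ℝ) :
    fR J x (a • y) = a * fR J x y := by
  unfold fR
  rw [mulVec_smul, dotProduct_smul, smul_eq_mul]

theorem form_re_im (J : Matrix (Fin 5) (Fin 5) ℚ) (x y : Vec) :
    form J x y = ((fR J (fun i => (x i).re) (fun i => (y i).re) -
      fR J (fun i => (x i).im) (fun i => (y i).im) : ℝ) : ℂ) +
      ((fR J (fun i => (x i).re) (fun i => (y i).im) +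
      fR J (fun i => (x i).im) (fun i => (y i).re) : ℝ) : ℂ) * Complex.I := by
  apply Complex.ext
  · simp only [form, fR, dotProduct, mulVec, toC, map_apply, Complex.re_sum, Complex.mul_re,
      Complex.im_sum, Complex.mul_im, Complex.add_re, Complex.ofReal_re, Complex.ofReal_im,
      Complex.I_re, Complex.I_im, Complex.ratCast_re, Complex.ratCast_im]
    simp only [Finset.sum_sub_distrib]
    simp
  · simp only [form, fR, dotProduct, mulVec, toC, map_apply, Complex.re_sum, Complex.mul_re,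
      Complex.im_sum, Complex.mul_im, Complex.add_im, Complex.ofReal_re, Complex.ofReal_im,
      Complex.I_re, Complex.I_im, Complex.ratCast_re, Complex.ratCast_im]
    simp only [Finset.sum_add_distrib]
    simp

theorem exists_kernel (p q w : Fin 5 → ℝ) (B : Matrix (Fin 5) (Fin 5) ℝ) :
    ∃ (a b : Fin 3 → ℝ), (a ≠ 0 ∨ b ≠ 0) ∧
      a 0 • p + a 1 • q + a 2 • w = B *ᵥ ![b 0, b 1, b 2, 0, 0] := by
  let L : ((Fin 3 → ℝ) × (Fin 3 → ℝ)) →ₗ[ℝ] (Fin 5 → ℝ) :=
    { toFun := fun ab => ab.1 0 • p + ab.1 1 • q + ab.1 2 • w -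
        B *ᵥ ![ab.2 0, ab.2 1, ab.2 2, 0, 0]
      map_add' := by
        rintro ⟨a, b⟩ ⟨a', b'⟩
        have h : (![b 0 + b' 0, b 1 + b' 1, b 2 + b' 2, 0, 0] : Fin 5 → ℝ) =
            ![b 0, b 1, b 2, 0, 0] + ![b' 0, b' 1, b' 2, 0, 0] := by
          simp
        simp only [Prod.fst_add, Prod.snd_add, Pi.add_apply, h, mulVec_add, add_smul]
        abel
      map_smul' := by
        rintro r ⟨a, b⟩
        have h : (![r * b 0, r * b 1, r * b 2, 0, 0] : Fin 5 → ℝ) =
            r • ![b 0, b 1, b 2, 0, 0] := by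
          simp
        simp only [Prod.smul_fst, Prod.smul_snd, Pi.smul_apply, smul_eq_mul, h, mulVec_smul,
          RingHom.id_apply, smul_sub, smul_add, mul_smul] }
  have h1 : L.ker ≠ ⊥ := by
    apply LinearMap.ker_ne_bot_of_finrank_lt
    simp
  obtain ⟨⟨a, b⟩, h2, h3⟩ := (Submodule.ne_bot_iff _).1 h1
  refine ⟨a, b, ?_, ?_⟩
  · by_contra h
    push Not at h
    apply h3
    rw [h.1, h.2]
    rfl
  · exact sub_eq_zero.1 h2

/-- A real vector orthogonal to a point of the domain has positive length. -/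
theorem pos_of_orth {J : Matrix (Fin 5) (Fin 5) ℚ} (hJ : Signature32 J) {o : Vec}
    (ho : o ∈ cone J) (w : Fin 5 → ℝ) (hw : w ≠ 0) (h : form J (fun i => (w i : ℂ)) o = 0) :
    0 < fR J w w := by
  obtain ⟨hsym, B, d, hdet, hB, d0, d1, d2, d3, d4⟩ := hJ
  set p : Fin 5 → ℝ := fun i => (o i).re with hp
  set q : Fin 5 → ℝ := fun i => (o i).im with hq
  have s := fR_comm hsym
  have h1 := ho.1
  rw [form_re_im] at h1
  have h2 := ho.2
  rw [form_re_im] at h2
  have e1 : (fun i => (star o i).re) = p := by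
    funext i; simp [hp]
  have e2 : (fun i => (star o i).im) = (-1 : ℝ) • q := by
    funext i; simp [hq]
  rw [e1, e2, fR_smul_right, fR_smul_right] at h2
  have e3 : (fun i => ((w i : ℂ)).re) = w := by
    funext i; simp
  have e4 : (fun i => ((w i : ℂ)).im) = (0 : ℝ) • w := by
    funext i; simp
  rw [form_re_im, e3, e4, fR_smul_left, fR_smul_left] at h
  have h1re := congrArg Complex.re h1
  have h1im := congrArg Complex.im h1
  have hre := congrArg Complex.re h
  have him := congrArg Complex.im h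
  simp at h1re h1im hre him h2
  have hpq : fR J p q = 0 := by
    have := s p q
    linarith
  by_contra hneg
  push Not at hneg
  obtain ⟨a, b, hab, hx⟩ := exists_kernel p q w (B.map (fun q => (q : ℝ)))
  set x : Fin 5 → ℝ := a 0 • p + a 1 • q + a 2 • w with hxdef
  have sqp := s q p
  have swp := s w p
  have swq := s w q
  have n1 : fR J x x = (a 0 ^ 2 + a 1 ^ 2) * fR J p p + a 2 ^ 2 * fR J w w := by
    rw [hxdef]
    simp only [fR_add_left, fR_add_right, fR_smul_left, fR_smul_right]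
    have e5 : fR J q q = fR J p p := by linarith
    have e6 : fR J q p = 0 := by rw [sqp]; exact hpq
    have e7 : fR J p w = 0 := by rw [← swp]; exact hre
    have e8 : fR J q w = 0 := by rw [← swq]; exact him
    rw [hpq, e5, e6, e7, e8, hre, him]
    ring
  have n2 : fR J x x = (d 0 : ℝ) * b 0 ^ 2 + (d 1 : ℝ) * b 1 ^ 2 + (d 2 : ℝ) * b 2 ^ 2 := by
    have hBR : (B.map (fun q => (q : ℝ)))ᵀ * J.map (fun q => (q : ℝ)) * B.map (fun q => (q : ℝ)) =
        diagonal (fun i => (d i : ℝ)) := by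
      have := congrArg (fun M : Matrix (Fin 5) (Fin 5) ℚ => M.map (algebraMap ℚ ℝ)) hB
      simp only [Matrix.map_mul, transpose_map] at this
      refine Eq.trans this ?_
      rw [diagonal_map (map_zero _)]
      rfl
    rw [hx]
    unfold fR
    rw [dotProduct_mulVec, vecMul_mulVec, dotProduct_mulVec, vecMul_vecMul, ← dotProduct_mulVec,
      hBR]
    simp [mulVec_diagonal, dotProduct, Fin.sum_univ_five]
    ring
  have hpp : fR J p p < 0 := by linarith
  have hd0 : (0 : ℝ) < d 0 := by exact_mod_cast d0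
  have hd1 : (0 : ℝ) < d 1 := by exact_mod_cast d1
  have hd2 : (0 : ℝ) < d 2 := by exact_mod_cast d2
  have g1 : (a 0 ^ 2 + a 1 ^ 2) * fR J p p ≤ 0 :=
    mul_nonpos_of_nonneg_of_nonpos (by positivity) hpp.le
  have g2 : a 2 ^ 2 * fR J w w ≤ 0 := mul_nonpos_of_nonneg_of_nonpos (by positivity) hneg
  have g3 : 0 ≤ (d 0 : ℝ) * b 0 ^ 2 := by positivity
  have g4 : 0 ≤ (d 1 : ℝ) * b 1 ^ 2 := by positivity
  have g5 : 0 ≤ (d 2 : ℝ) * b 2 ^ 2 := by positivity
  have k0 : (d 0 : ℝ) * b 0 ^ 2 = 0 := by linarith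
  have k1 : (d 1 : ℝ) * b 1 ^ 2 = 0 := by linarith
  have k2 : (d 2 : ℝ) * b 2 ^ 2 = 0 := by linarith
  have k3 : (a 0 ^ 2 + a 1 ^ 2) * fR J p p = 0 := by linarith
  have b0 : b 0 = 0 := by
    rcases mul_eq_zero.1 k0 with h | h
    · exact absurd h hd0.ne'
    · exact pow_eq_zero_iff (two_ne_zero) |>.1 h
  have b1 : b 1 = 0 := by
    rcases mul_eq_zero.1 k1 with h | h
    · exact absurd h hd1.ne'
    · exact pow_eq_zero_iff (two_ne_zero) |>.1 h
  have b2 : b 2 = 0 := by
    rcases mul_eq_zero.1 k2 with h | h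
    · exact absurd h hd2.ne'
    · exact pow_eq_zero_iff (two_ne_zero) |>.1 h
  have ha : a 0 ^ 2 + a 1 ^ 2 = 0 := by
    rcases mul_eq_zero.1 k3 with h | h
    · exact h
    · exact absurd h hpp.ne
  have a0 : a 0 = 0 := by nlinarith [sq_nonneg (a 0), sq_nonneg (a 1)]
  have a1 : a 1 = 0 := by nlinarith [sq_nonneg (a 0), sq_nonneg (a 1)]
  have hx0 : a 2 • w = 0 := by
    have h5 := hx
    rw [hxdef, a0, a1, b0, b1, b2] at h5
    simp only [zero_smul, zero_add] at h5
    rw [h5]
    funext i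
    simp [mulVec, dotProduct, Fin.sum_univ_five]
  have a2 : a 2 = 0 := by
    rcases smul_eq_zero.1 hx0 with h | h
    · exact h
    · exact absurd h hw
  rcases hab with h | h
  · apply h
    funext i
    fin_cases i
    · exact a0
    · exact a1
    · exact a2
  · apply h
    funext i
    fin_cases i
    · exact b0
    · exact b1
    · exact b2

end Pool.Agent.Y973.HS
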