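import Pool.Agent.Y973.HS.St
import Pool.Agent.Y973.HS.Sig

/-!
# The points of the domain over the plane
-/

set_option autoImplicit false

namespace Pool.Agent.Y973.HS

open Matrix
open Pool.Agent.H320R4.HS (Mat Vec GL5 toC form SO cone hodge HodgeIn IsQSubgroup MT IsTorus
  IsMaximalTorus tangent tangentOf IsHarishChandra Qbar IsStructure StabStable IsRational fam
  mem_of_infinite infinite_rat infinite_circle lam XM cM evG evG_apply evG_X evG_XT evG_c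
  exp_nil torus_comm Signature32 hodge_smul_mat toC_mul toC_one)

namespace Frame

variable {J : Matrix (Fin 5) (Fin 5) ℚ} (D : Frame J)

/-- The point with Harish-Chandra coordinate `Yo t 0 v`. -/
noncomputable def pt (t v : ℂ) : Vec := D.P *ᵥ ![t, 1, 0, v, -(D.m / D.μ * (t * t) / 2)]

theorem o_eq : D.o = D.P *ᵥ (Pi.single 1 1) := by
  funext k; simp [Frame.o]

theorem EG_o (a b c : ℂ) : (D.EG a b c : Mat) *ᵥ D.o =
    D.P *ᵥ ![a, 1, b, c, -(D.m / D.μ * (a * a) / 2 + D.ν / D.μ * (b * c))] := by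
  rw [EG_val, o_eq, cb, mulVec_mulVec, Matrix.mul_assoc, D.QP, Matrix.mul_one,
    ← mulVec_mulVec]
  congr 1
  funext k
  fin_cases k <;> simp [Em]

theorem P_inj {x y : Vec} (h : D.P *ᵥ x = D.P *ᵥ y) : x = y := by
  have h1 := congrArg (fun v => D.Q *ᵥ v) h
  simpa [mulVec_mulVec, D.QP] using h1

theorem hc_pt (t v : ℂ) : IsHarishChandra J D.o (D.pt t v) (D.Yo t 0 v) := by
  refine ⟨D.Yo_mem _ _ _, 1, one_ne_zero, ?_⟩
  rw [exp_Yo, EG_o, one_smul, pt]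
  congr 1
  funext k
  fin_cases k <;> simp

theorem hc_unique (t v : ℂ) {Y : Mat} (h : IsHarishChandra J D.o (D.pt t v) Y) :
    Y = D.Yo t 0 v := by
  obtain ⟨hY, k, hk, h1⟩ := h
  obtain ⟨a, b, c, rfl⟩ := D.mem_tangent.1 hY
  rw [exp_Yo, EG_o, pt, ← mulVec_smul] at h1
  have h2 := D.P_inj h1
  have h20 := congrFun h2 0
  have h21 := congrFun h2 1
  have h22 := congrFun h2 2
  have h23 := congrFun h2 3
  simp at h20 h21 h22 h23
  subst h21
  rw [h20, h22, h23]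
  simp

end Frame

theorem form_ofReal (J : Matrix (Fin 5) (Fin 5) ℚ) (x y : Fin 5 → ℝ) :
    form J (fun i => (x i : ℂ)) (fun i => (y i : ℂ)) = (fR J x y : ℂ) := by
  simp only [form, fR, dotProduct, mulVec, toC, map_apply]
  push_cast
  rfl

namespace VecDat

variable {K : Type} [Field K] [Algebra ℚ K] {G : GalDat K} {J : Matrix (Fin 5) (Fin 5) ℚ}
  (V : VecDat G J)

theorem star_P (x : Vec) : star (V.frame.P *ᵥ x) =
    V.frame.P *ᵥ ![star (x 0), star (x 4), star (x 3), star (x 2), star (x 1)] := by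
  have h : ∀ k i, star (G.ι (V.w k i)) = G.ι (G.c (V.w k i)) := fun k i => (G.hc _).symm
  have h' : ∀ k i, V.frame.P i k = G.ι (V.w k i) := fun k i => rfl
  funext i
  simp only [Pi.star_apply, mulVec, dotProduct, star_add, star_mul', Fin.sum_univ_five, h', h]
  rw [congrFun V.c_w0 i, congrFun V.c_w1 i, congrFun V.c_w2 i, congrFun V.c_w3 i,
    congrFun V.c_w4 i]
  simp
  ring

theorem real_of_c {x : K} (hx : G.c x = x) : ((G.ι x).re : ℂ) = G.ι x := by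
  refine Complex.conj_eq_iff_re.1 ?_
  have := G.hc x
  rw [hx] at this
  exact this.symm

/-- The square length of `u`. -/
noncomputable def mR : ℝ := (G.ι V.m).re

/-- The real number `(o, ō)`. -/
noncomputable def μR : ℝ := (G.ι V.μ).re

/-- The real number `(o₁, o₃)`. -/
noncomputable def νR : ℝ := (G.ι V.ν).re

theorem cm : G.c V.m = V.m := by
  obtain ⟨r, hr⟩ := V.m_rat
  rw [hr]
  exact AlgEquiv.commutes _ _

theorem σm : G.σ V.m = V.m := by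
  obtain ⟨r, hr⟩ := V.m_rat
  rw [hr]
  exact AlgEquiv.commutes _ _

theorem mR_eq : (V.mR : ℂ) = V.frame.m := real_of_c V.cm

theorem μR_eq : (V.μR : ℂ) = V.frame.μ := real_of_c V.cμ

theorem νR_eq : (V.νR : ℂ) = V.frame.ν := real_of_c V.cν

theorem mem_cone (x0 x3 x4 : ℝ) :
    V.frame.P *ᵥ ![(x0 : ℂ), 1, 0, (x3 : ℂ), (x4 : ℂ)] ∈ cone J ↔
      V.mR * x0 ^ 2 + 2 * V.μR * x4 = 0 ∧
        V.mR * x0 ^ 2 + V.μR * (1 + x4 ^ 2) + V.νR * x3 ^ 2 < 0 := by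
  have h1 : form J (V.frame.P *ᵥ ![(x0 : ℂ), 1, 0, (x3 : ℂ), (x4 : ℂ)])
      (V.frame.P *ᵥ ![(x0 : ℂ), 1, 0, (x3 : ℂ), (x4 : ℂ)]) =
      ((V.mR * x0 ^ 2 + 2 * V.μR * x4 : ℝ) : ℂ) := by
    rw [Frame.form_P, ← V.mR_eq, ← V.μR_eq, ← V.νR_eq]
    simp [Am, mulVec, dotProduct, Fin.sum_univ_five]
    ring
  have h2 : form J (V.frame.P *ᵥ ![(x0 : ℂ), 1, 0, (x3 : ℂ), (x4 : ℂ)])
      (star (V.frame.P *ᵥ ![(x0 : ℂ), 1, 0, (x3 : ℂ), (x4 : ℂ)])) =
      ((V.mR * x0 ^ 2 + V.μR * (1 + x4 ^ 2) + V.νR * x3 ^ 2 : ℝ) : ℂ) := by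
    rw [V.star_P, Frame.form_P, ← V.mR_eq, ← V.μR_eq, ← V.νR_eq]
    simp [Am, mulVec, dotProduct, Fin.sum_univ_five]
    ring
  change _ = _ ∧ _ < _ ↔ _
  rw [h1, h2, Complex.ofReal_re]
  norm_cast

theorem cone_ineq {a n s v : ℝ} (ha : 0 < a) (hn : 0 < n) (hs2 : s < 2 * a)
    (hv : 4 * a * n * v ^ 2 < (2 * a - s) ^ 2) (hs : 0 < s) {τ : ℝ} (h0 : 0 ≤ τ) (h1 : τ ≤ 1) :
    s * τ ^ 2 + -a * (1 + (s * τ ^ 2 / (2 * a)) ^ 2) + n * (τ * v) ^ 2 < 0 := by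
  have e1 : s * τ ^ 2 + -a * (1 + (s * τ ^ 2 / (2 * a)) ^ 2) + n * (τ * v) ^ 2 =
      (4 * a * n * (τ * v) ^ 2 - (2 * a - s * τ ^ 2) ^ 2) / (4 * a) := by
    field_simp
    ring
  rw [e1]
  apply div_neg_of_neg_of_pos _ (by positivity)
  have ht0 : 0 ≤ τ ^ 2 := by positivity
  have ht1 : τ ^ 2 ≤ 1 := by nlinarith
  have e2 : (2 * a - s) ^ 2 ≤ (2 * a - s * τ ^ 2) ^ 2 := by
    have h2 : s * τ ^ 2 ≤ s := by nlinarith
    have h3 : 0 < 2 * a - s := by linarith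
    nlinarith
  have e3 : 4 * a * n * (τ * v) ^ 2 ≤ 4 * a * n * v ^ 2 := by
    have h2 : 0 ≤ 4 * a * n * v ^ 2 := by positivity
    calc 4 * a * n * (τ * v) ^ 2 = (4 * a * n * v ^ 2) * τ ^ 2 := by ring
      _ ≤ (4 * a * n * v ^ 2) * 1 := mul_le_mul_of_nonneg_left ht1 h2
      _ = _ := by ring
  linarith

/-- The point with a real coordinate `(t, v)` with `v` not too large is in the same component of
the cone as `o`. -/
theorem joined_pt (hμ : V.μR < 0) (hm : 0 < V.mR) (hν : 0 < V.νR) {t v : ℝ} (ht : 0 < t)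
    (h1 : V.mR * t ^ 2 < 2 * -V.μR)
    (h2 : 4 * -V.μR * V.νR * v ^ 2 < (2 * -V.μR - V.mR * t ^ 2) ^ 2) :
    JoinedIn (cone J) V.frame.o (V.frame.pt t v) := by
  have hμ' : V.μR ≠ 0 := hμ.ne
  refine JoinedIn.ofLine (f := fun τ : ℝ => V.frame.P *ᵥ
    ![((τ * t : ℝ) : ℂ), 1, 0, ((τ * v : ℝ) : ℂ),
      ((V.mR * t ^ 2 * τ ^ 2 / (2 * -V.μR) : ℝ) : ℂ)]) ?_ ?_ ?_ ?_
  · apply Continuous.continuousOn
    refine continuous_pi fun j => ?_
    simp only [mulVec, dotProduct, Fin.sum_univ_five]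
    simp
    fun_prop
  · rw [Frame.o_eq]
    congr 1
    funext k
    fin_cases k <;> simp
  · rw [Frame.pt]
    congr 1
    funext k
    rw [← V.mR_eq, ← V.μR_eq]
    have hμc : (V.μR : ℂ) ≠ 0 := by exact_mod_cast hμ'
    fin_cases k <;> simp
    field_simp
  · rintro _ ⟨τ, hτ, rfl⟩
    refine (V.mem_cone _ _ _).2 ⟨?_, ?_⟩
    · field_simp
      ring
    · have := cone_ineq (a := -V.μR) (n := V.νR) (s := V.mR * t ^ 2) (v := v) (by linarith) hν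
        h1 h2 (by positivity) hτ.1 hτ.2
      refine lt_of_eq_of_lt ?_ this
      ring

/-! ### the form over `K` in the basis -/

theorem formK_PK (x y : Fin 5 → K) : formK J (V.PK *ᵥ x) (V.PK *ᵥ y) =
    V.m * (x 0 * y 0) + V.μ * (x 1 * y 4 + x 4 * y 1) + V.ν * (x 2 * y 3 + x 3 * y 2) := by
  have h : formK J (V.PK *ᵥ x) (V.PK *ᵥ y) = x ⬝ᵥ (V.AmK *ᵥ y) := by
    unfold formK
    rw [← V.gramK, mulVec_mulVec]
    simp only [dotProduct_mulVec, vecMul_mulVec, ← Matrix.mul_assoc]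
  rw [h]
  simp [AmK, mulVec, dotProduct, Fin.sum_univ_five]
  ring

theorem PK_apply (x : Fin 5 → K) (i : Fin 5) : (V.PK *ᵥ x) i =
    V.w 0 i * x 0 + V.w 1 i * x 1 + V.w 2 i * x 2 + V.w 3 i * x 3 + V.w 4 i * x 4 := by
  simp only [mulVec, dotProduct, Fin.sum_univ_five, PK, of_apply]

theorem c_PK (x : Fin 5 → K) : (fun i => G.c ((V.PK *ᵥ x) i)) =
    V.PK *ᵥ ![G.c (x 0), G.c (x 4), G.c (x 3), G.c (x 2), G.c (x 1)] := by
  funext i
  rw [PK_apply, PK_apply]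
  simp only [map_add, map_mul]
  rw [congrFun V.c_w0 i, congrFun V.c_w1 i, congrFun V.c_w2 i, congrFun V.c_w3 i,
    congrFun V.c_w4 i]
  simp
  ring

theorem σ_PK_cyc (h : ∀ x, G.σ (G.σ x) = G.c x) (x : Fin 5 → K) :
    (fun i => G.σ ((V.PK *ᵥ x) i)) =
    V.PK *ᵥ ![G.σ (x 0), G.σ (x 3), G.σ (x 1), G.σ (x 4), G.σ (x 2)] := by
  have h2 : ∀ i, G.σ (V.w 2 i) = V.w 4 i := fun i => h _
  have h3 : ∀ i, G.σ (V.w 3 i) = V.w 1 i := by
    intro i
    change G.σ (G.c (G.σ (V.o i))) = V.o i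
    rw [G.comm, h, G.cc]
  funext i
  rw [PK_apply, PK_apply]
  simp only [map_add, map_mul]
  rw [congrFun V.σ_w0 i, congrFun V.σ_w1 i, h2, h3, congrFun V.σ_w4 i]
  simp
  ring

theorem σ_PK_biq (h : ∀ x, G.σ (G.σ x) = x) (x : Fin 5 → K) :
    (fun i => G.σ ((V.PK *ᵥ x) i)) =
    V.PK *ᵥ ![G.σ (x 0), G.σ (x 2), G.σ (x 1), G.σ (x 4), G.σ (x 3)] := by
  have h2 : ∀ i, G.σ (V.w 2 i) = V.w 1 i := fun i => h _
  have h3 : ∀ i, G.σ (V.w 3 i) = V.w 4 i := by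
    intro i
    change G.σ (G.c (G.σ (V.o i))) = G.c (V.o i)
    rw [G.comm, h]
  funext i
  rw [PK_apply, PK_apply]
  simp only [map_add, map_mul]
  rw [congrFun V.σ_w0 i, congrFun V.σ_w1 i, h2, h3, congrFun V.σ_w4 i]
  simp
  ring

/-- The point over `K`. -/
def zK (t v : K) : Fin 5 → K := V.PK *ᵥ ![t, 1, 0, v, -(V.m * t ^ 2 / (2 * V.μ))]

theorem ι_zK (t v : K) : (fun i => G.ι (V.zK t v i)) = V.frame.pt (G.ι t) (G.ι v) := by
  have h' : ∀ k i, V.frame.P i k = G.ι (V.w k i) := fun k i => rfl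
  funext i
  rw [zK, PK_apply, Frame.pt]
  simp only [mulVec, dotProduct, Fin.sum_univ_five, h', frame_m, frame_μ]
  have h2 : G.ι 2 = 2 := map_ofNat _ _
  simp [h2]
  ring_nf
  simp

theorem zK_zK [CharZero K] (t v : K) : formK J (V.zK t v) (V.zK t v) = 0 := by
  rw [zK, formK_PK]
  have hμ := V.μ_ne
  simp
  field_simp
  ring

end VecDat

end Pool.Agent.Y973.HS
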