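import Pool.Agent.Y973.HS.Build

/-!
# Infinitely many special points over the plane
-/

set_option autoImplicit false

namespace Pool.Agent.Y973.HS

open Matrix
open Pool.Agent.H320R4.HS (Mat Vec GL5 toC form SO cone hodge HodgeIn IsQSubgroup MT IsTorus
  IsMaximalTorus tangent tangentOf IsHarishChandra Qbar IsStructure StabStable IsRational fam
  mem_of_infinite infinite_rat infinite_circle lam XM cM evG evG_apply evG_X evG_XT evG_c
  exp_nil torus_comm Signature32 hodge_smul_mat toC_mul toC_one)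

/-- The Harish-Chandra coordinates in `W` of special points `z` in the component of `o`, which are
not tangent to any Shimura subvariety through `o` whose tangent space is contained in `W`. -/
def BadSet (J : Matrix (Fin 5) (Fin 5) ℚ) (o : Vec) (W : Submodule ℂ Mat) : Set Mat :=
  {Y | Y ∈ W ∧ ∃ z ∈ cone J, JoinedIn (cone J) o z ∧ IsTorus (MT J z) ∧
    IsHarishChandra J o z Y ∧ (∀ Y', IsHarishChandra J o z Y' → Y' = Y) ∧
    ∀ H : Subgroup GL5, IsQSubgroup H → H ≤ SO J → HodgeIn J o H →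
      tangentOf J o H ⊆ (W : Set Mat) → Y ∉ tangentOf J o H}

namespace VecDat

variable {K : Type} [Field K] [Algebra ℚ K] {G : GalDat K} {J : Matrix (Fin 5) (Fin 5) ℚ}
  (V : VecDat G J)

theorem mem_bad (hfin : Module.finrank ℚ K = 4) (hJ : Signature32 J)
    (hμ : V.μR < 0) (hm : 0 < V.mR) (hν : 0 < V.νR) (t : ℚ) (v : K) (ht : 0 < t)
    (hv : G.c v = v) (h1 : V.mR * (t : ℝ) ^ 2 < 2 * -V.μR)
    (h2 : 4 * -V.μR * V.νR * (G.ι v).re ^ 2 < (2 * -V.μR - V.mR * (t : ℝ) ^ 2) ^ 2)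
    (horth : formK J (V.zK (algebraMap ℚ K t) v)
        (fun i => G.σ (V.zK (algebraMap ℚ K t) v i)) = 0 ∧
      formK J (V.zK (algebraMap ℚ K t) v)
        (fun i => G.c (G.σ (V.zK (algebraMap ℚ K t) v i))) = 0) :
    V.frame.Yo (t : ℂ) 0 (G.ι v) ∈ BadSet J V.frame.o V.frame.Vp := by
  have := charZ G
  have htR : (0 : ℝ) < t := by exact_mod_cast ht
  have hj := V.joined_pt hμ hm hν htR h1 h2
  have hz : (fun i => G.ι (V.zK (algebraMap ℚ K t) v i)) = V.frame.pt (t : ℂ) (G.ι v) := by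
    rw [V.ι_zK, AlgHom.commutes]
    rfl
  have hc1 : (((t : ℚ) : ℝ) : ℂ) = (t : ℂ) := by simp
  rw [real_of_c hv, hc1] at hj
  have hcone := hj.target_mem
  refine ⟨V.frame.mem_Vp.2 ⟨_, _, rfl⟩, V.frame.pt (t : ℂ) (G.ι v), hcone, hj, ?_,
    V.frame.hc_pt _ _, fun Y' h => V.frame.hc_unique _ _ h, fun H hH _ hh hW hY => ?_⟩
  · have h3 := torus_of G hfin hJ (V.zK (algebraMap ℚ K t) v) (V.zK_zK _ _) horth.1 horth.2
      (by rw [hz]; exact hcone)
    rw [hz] at h3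
    exact h3.1
  · have h3 := V.tangent_a hH hh hW hY
    have h4 : t = 0 := by exact_mod_cast h3
    exact ht.ne' h4

theorem exists_N {m a b : ℝ} (hm : 0 < m) (ha : 0 < a) (hb : 0 < b) : ∃ N : ℕ, 0 < N ∧
    ∀ k : ℕ, m * ((1 / ((N : ℚ) + k) : ℚ) : ℝ) ^ 2 < 2 * a ∧
      (m * ((1 / ((N : ℚ) + k) : ℚ) : ℝ) ^ 2) ^ 2 < b := by
  set δ : ℝ := min (2 * a) (min 1 b) with hδ
  have hδ0 : 0 < δ := by
    simp only [hδ, lt_min_iff]
    exact ⟨by linarith, one_pos, hb⟩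
  have hδ1 : δ ≤ 2 * a := min_le_left _ _
  have hδ2 : δ ≤ 1 := (min_le_right _ _).trans (min_le_left _ _)
  have hδ3 : δ ≤ b := (min_le_right _ _).trans (min_le_right _ _)
  obtain ⟨N, hN⟩ := exists_nat_gt (m / δ)
  have hmδ : 0 < m / δ := div_pos hm hδ0
  have hNp : (0 : ℝ) < N := hmδ.trans hN
  have hN0 : 0 < N := by exact_mod_cast hNp
  refine ⟨N, hN0, fun k => ?_⟩
  have hN1 : (1 : ℝ) ≤ N := by exact_mod_cast hN0
  have hk0 : (0 : ℝ) ≤ k := Nat.cast_nonneg k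
  have hs : m * ((1 / ((N : ℚ) + k) : ℚ) : ℝ) ^ 2 < δ := by
    push_cast
    rw [div_pow, one_pow, mul_one_div, div_lt_iff₀ (by positivity)]
    have h1 : m < N * δ := by rwa [div_lt_iff₀ hδ0] at hN
    have h2 : (N : ℝ) ≤ ((N : ℝ) + k) ^ 2 := by nlinarith
    nlinarith
  have hs0 : 0 < m * ((1 / ((N : ℚ) + k) : ℚ) : ℝ) ^ 2 := by
    push_cast
    positivity
  refine ⟨by linarith, ?_⟩
  nlinarith

theorem infinite_of (P : ℚ → Mat) (hP : Function.Injective P) (S : Set Mat) {N : ℕ} (hN : 0 < N)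
    (h : ∀ k : ℕ, P (1 / ((N : ℚ) + k)) ∈ S) : S.Infinite := by
  refine Set.infinite_of_injective_forall_mem (f := fun k : ℕ => P (1 / ((N : ℚ) + k))) ?_ h
  intro k l hkl
  have h1 := hP hkl
  have hk : (0 : ℚ) < (N : ℚ) + k := by positivity
  have hl : (0 : ℚ) < (N : ℚ) + l := by positivity
  rw [div_eq_div_iff hk.ne' hl.ne'] at h1
  have h2 : (k : ℚ) = l := by linarith
  exact_mod_cast h2

theorem Yo_inj_rat (v : ℚ → K) : Function.Injective fun t : ℚ =>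
    V.frame.Yo (t : ℂ) 0 (G.ι (v t)) := by
  intro s t h
  have := (V.frame.Yo_inj h).1
  exact_mod_cast this

theorem re_mul_real {x y : K} (hx : G.c x = x) (hy : G.c y = y) :
    (G.ι (x * y)).re = (G.ι x).re * (G.ι y).re := by
  rw [map_mul, ← real_of_c hx, ← real_of_c hy, ← Complex.ofReal_mul, Complex.ofReal_re,
    Complex.ofReal_re, Complex.ofReal_re]

theorem infinite_cyc (hfin : Module.finrank ℚ K = 4) (hJ : Signature32 J)
    (hcyc : ∀ x, G.σ (G.σ x) = G.c x)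
    (hμ : V.μR < 0) (hm : 0 < V.mR) (hν : 0 < V.νR) :
    (BadSet J V.frame.o V.frame.Vp).Infinite := by
  have := charZ G
  obtain ⟨N, hN, hk⟩ := exists_N (b := 4 * -V.μR * V.νR) hm (neg_pos.2 hμ)
    (mul_pos (mul_pos (by norm_num) (neg_pos.2 hμ)) hν)
  refine infinite_of _ (V.Yo_inj_rat (fun t => V.vcyc (algebraMap ℚ K t))) _ hN fun k => ?_
  obtain ⟨h1, h2⟩ := hk k
  set t : ℚ := 1 / ((N : ℚ) + k) with ht
  have ht0 : 0 < t := by positivity
  have htR : (0 : ℝ) < t := by exact_mod_cast ht0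
  set T := algebraMap ℚ K t with hT
  have hcT : G.c T = T := AlgEquiv.commutes _ _
  have h2c : G.c (2 : K) = 2 := map_ofNat _ _
  have h4c : G.c (4 : K) = 4 := map_ofNat _ _
  have hcv : G.c (V.vcyc T) = V.vcyc T := by
    simp only [vcyc, map_div₀, map_mul, map_sub, map_add, map_pow, V.cμ, V.cν, V.cm, hcT, h2c,
      h4c]
  have hιT : G.ι T = ((t : ℝ) : ℂ) := by
    rw [hT, AlgHom.commutes]
    simp
  -- the denominator
  have hden : G.ι ((V.m * T ^ 2) ^ 2 - 4 * V.μ * V.ν) =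
      (((V.mR * (t : ℝ) ^ 2) ^ 2 + 4 * -V.μR * V.νR : ℝ) : ℂ) := by
    have e1 : G.ι V.m = (V.mR : ℂ) := V.mR_eq.symm
    have e2 : G.ι V.μ = (V.μR : ℂ) := V.μR_eq.symm
    have e3 : G.ι V.ν = (V.νR : ℂ) := V.νR_eq.symm
    have e4 : G.ι 4 = 4 := map_ofNat _ _
    simp only [map_sub, map_mul, map_pow, e1, e2, e3, e4, hιT]
    push_cast
    ring
  have hpos : 0 < (V.mR * (t : ℝ) ^ 2) ^ 2 + 4 * -V.μR * V.νR := by
    have : 0 < 4 * -V.μR * V.νR := mul_pos (mul_pos (by norm_num) (neg_pos.2 hμ)) hν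
    positivity
  have hden0 : (V.m * T ^ 2) ^ 2 - 4 * V.μ * V.ν ≠ 0 := by
    intro h
    rw [h, map_zero] at hden
    have : (V.mR * (t : ℝ) ^ 2) ^ 2 + 4 * -V.μR * V.νR = 0 := by exact_mod_cast hden.symm
    linarith
  refine V.mem_bad hfin hJ hμ hm hν t _ ht0 hcv h1 ?_ (V.orth_cyc hcyc t hden0)
  -- the size of `v`
  have hv : (G.ι (V.vcyc T)).re * ((V.mR * (t : ℝ) ^ 2) ^ 2 + 4 * -V.μR * V.νR) =
      2 * (V.mR * (t : ℝ) ^ 2) * (V.mR * (t : ℝ) ^ 2 + 2 * V.μR) := by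
    have h3 : V.vcyc T * ((V.m * T ^ 2) ^ 2 - 4 * V.μ * V.ν) =
        2 * (V.m * T ^ 2) * (V.m * T ^ 2 + 2 * V.μ) := div_mul_cancel₀ _ hden0
    have h4 := congrArg G.ι h3
    rw [map_mul, hden] at h4
    have e1 : G.ι V.m = (V.mR : ℂ) := V.mR_eq.symm
    have e2 : G.ι V.μ = (V.μR : ℂ) := V.μR_eq.symm
    have e4 : G.ι 2 = 2 := map_ofNat _ _
    simp only [map_add, map_mul, map_pow, e1, e2, e4, hιT] at h4
    rw [← real_of_c hcv] at h4
    exact_mod_cast h4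
  set s := V.mR * (t : ℝ) ^ 2 with hs
  set a := -V.μR with ha
  have ha0 : 0 < a := neg_pos.2 hμ
  set x := (G.ι (V.vcyc T)).re with hx
  have hs0 : 0 < s := by positivity
  have hμa : V.μR = -a := by rw [ha, neg_neg]
  rw [hμa] at hv
  -- `x (s² + 4 a ν) = 2 s (s - 2 a)`
  have g1 : (x * (s ^ 2 + 4 * a * V.νR)) ^ 2 = 4 * s ^ 2 * (2 * a - s) ^ 2 := by
    rw [hv]; ring
  have g2 : 4 * a * V.νR * (4 * s ^ 2) < (s ^ 2 + 4 * a * V.νR) ^ 2 := by
    have : 0 < (4 * a * V.νR - s ^ 2) ^ 2 := by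
      have : 0 < 4 * a * V.νR - s ^ 2 := by linarith
      positivity
    nlinarith
  have g3 : 0 < (2 * a - s) ^ 2 := by
    have : 0 < 2 * a - s := by linarith
    positivity
  have g4 : 0 < (s ^ 2 + 4 * a * V.νR) ^ 2 := by positivity
  have g5 : (4 * a * V.νR * x ^ 2) * (s ^ 2 + 4 * a * V.νR) ^ 2 <
      (2 * a - s) ^ 2 * (s ^ 2 + 4 * a * V.νR) ^ 2 := by
    calc (4 * a * V.νR * x ^ 2) * (s ^ 2 + 4 * a * V.νR) ^ 2 =
        4 * a * V.νR * (x * (s ^ 2 + 4 * a * V.νR)) ^ 2 := by ring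
      _ = (4 * a * V.νR * (4 * s ^ 2)) * (2 * a - s) ^ 2 := by rw [g1]; ring
      _ < (s ^ 2 + 4 * a * V.νR) ^ 2 * (2 * a - s) ^ 2 := mul_lt_mul_of_pos_right g2 g3
      _ = _ := by ring
  exact lt_of_mul_lt_mul_right g5 g4.le

theorem infinite_biq (hfin : Module.finrank ℚ K = 4) (hJ : Signature32 J)
    (hbiq : ∀ x, G.σ (G.σ x) = x)
    (hμ : V.μR < 0) (hm : 0 < V.mR) (hν : 0 < V.νR) (hne : V.νR ≠ -V.μR) :
    (BadSet J V.frame.o V.frame.Vp).Infinite := by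
  have := charZ G
  obtain ⟨N, hN, hk⟩ := exists_N (b := 4 * -V.μR * V.νR) hm (neg_pos.2 hμ)
    (mul_pos (mul_pos (by norm_num) (neg_pos.2 hμ)) hν)
  refine infinite_of _ (V.Yo_inj_rat (fun t => V.vbiq (algebraMap ℚ K t))) _ hN fun k => ?_
  obtain ⟨h1, h2⟩ := hk k
  set t : ℚ := 1 / ((N : ℚ) + k) with ht
  have ht0 : 0 < t := by positivity
  have htR : (0 : ℝ) < t := by exact_mod_cast ht0
  set T := algebraMap ℚ K t with hT
  have hcT : G.c T = T := AlgEquiv.commutes _ _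
  have h2c : G.c (2 : K) = 2 := map_ofNat _ _
  have hcv : G.c (V.vbiq T) = V.vbiq T := by
    simp only [vbiq, map_div₀, map_mul, map_sub, map_add, map_pow, V.cμ, V.cν, V.cm, hcT, h2c]
  have hιT : G.ι T = ((t : ℝ) : ℂ) := by
    rw [hT, AlgHom.commutes]
    simp
  have hden : G.ι (V.μ - V.ν) = ((V.μR - V.νR : ℝ) : ℂ) := by
    have e2 : G.ι V.μ = (V.μR : ℂ) := V.μR_eq.symm
    have e3 : G.ι V.ν = (V.νR : ℂ) := V.νR_eq.symm
    simp only [map_sub, e2, e3]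
    push_cast
    ring
  have hden0 : V.μ - V.ν ≠ 0 := by
    intro h
    rw [h, map_zero] at hden
    have : V.μR - V.νR = 0 := by exact_mod_cast hden.symm
    linarith
  refine V.mem_bad hfin hJ hμ hm hν t _ ht0 hcv h1 ?_ (V.orth_biq hbiq t hden0)
  have hv : (G.ι (V.vbiq T)).re * (V.μR - V.νR) = V.mR * (t : ℝ) ^ 2 + 2 * V.μR := by
    have h3 : V.vbiq T * (V.μ - V.ν) = V.m * T ^ 2 + 2 * V.μ := div_mul_cancel₀ _ hden0
    have h4 := congrArg G.ι h3
    rw [map_mul, hden] at h4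
    have e1 : G.ι V.m = (V.mR : ℂ) := V.mR_eq.symm
    have e2 : G.ι V.μ = (V.μR : ℂ) := V.μR_eq.symm
    have e4 : G.ι 2 = 2 := map_ofNat _ _
    simp only [map_add, map_mul, map_pow, e1, e2, e4, hιT] at h4
    rw [← real_of_c hcv] at h4
    exact_mod_cast h4
  set s := V.mR * (t : ℝ) ^ 2 with hs
  set a := -V.μR with ha
  have ha0 : 0 < a := neg_pos.2 hμ
  set x := (G.ι (V.vbiq T)).re with hx
  have hs0 : 0 < s := by positivity
  have hμa : V.μR = -a := by rw [ha, neg_neg]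
  rw [hμa] at hv
  have g1 : (x * (a + V.νR)) ^ 2 = (2 * a - s) ^ 2 := by
    have : x * (a + V.νR) = 2 * a - s := by linear_combination -hv
    rw [this]
  have g2 : 4 * a * V.νR < (a + V.νR) ^ 2 := by
    have : 0 < (a - V.νR) ^ 2 := by
      have : a - V.νR ≠ 0 := fun h => hne (by linarith)
      positivity
    nlinarith
  have g3 : 0 < (2 * a - s) ^ 2 := by
    have : 0 < 2 * a - s := by linarith
    positivity
  have g4 : 0 < (a + V.νR) ^ 2 := by positivity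
  have g5 : (4 * a * V.νR * x ^ 2) * (a + V.νR) ^ 2 < (2 * a - s) ^ 2 * (a + V.νR) ^ 2 := by
    calc (4 * a * V.νR * x ^ 2) * (a + V.νR) ^ 2 = 4 * a * V.νR * (x * (a + V.νR)) ^ 2 := by ring
      _ = (4 * a * V.νR) * (2 * a - s) ^ 2 := by rw [g1]
      _ < (a + V.νR) ^ 2 * (2 * a - s) ^ 2 := mul_lt_mul_of_pos_right g2 g3
      _ = _ := by ring
  exact lt_of_mul_lt_mul_right g5 g4.le

end VecDat

end Pool.Agent.Y973.HS
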