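import Pool.Agent.Y973.HS.Thm

/-!
# Two special points of the Siegel threefold
-/

set_option autoImplicit false

namespace Pool.Agent.Y973.HS

open Matrix
open scoped IntermediateField
open Pool.Agent.H320R4.HS (Mat Vec GL5 toC form SO cone hodge HodgeIn IsQSubgroup MT IsTorus
  IsMaximalTorus tangent tangentOf IsHarishChandra Qbar IsStructure StabStable IsRational
  Signature32)

/-- The split form of signature `(3, 2)`: `(x, x) / 2 = x₀ x₄ - x₁ x₃ + x₂²`. -/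
def J0 : Matrix (Fin 5) (Fin 5) ℚ :=
  !![0, 0, 0, 0, 1; 0, 0, 0, -1, 0; 0, 0, 2, 0, 0; 0, -1, 0, 0, 0; 1, 0, 0, 0, 0]

theorem sig_J0 : Signature32 J0 := by
  refine ⟨?_, !![1, 0, 0, 1, 0; 0, 1, 0, 0, 1; 0, 0, 1, 0, 0; 0, -1, 0, 0, 1; 1, 0, 0, -1, 0],
    ![2, 2, 2, -2, -2], ?_, ?_, ?_, ?_, ?_, ?_, ?_⟩
  · ext i j
    fin_cases i <;> fin_cases j <;> simp [J0]
  · simp [det_succ_row_zero, Fin.sum_univ_succ, Fin.succAbove]
    norm_num
  · ext i j
    fin_cases i <;> fin_cases j <;>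
      simp [J0, Matrix.mul_apply, Fin.sum_univ_five] <;> norm_num
  · exact (by norm_num : (0 : ℚ) < 2)
  · exact (by norm_num : (0 : ℚ) < 2)
  · exact (by norm_num : (0 : ℚ) < 2)
  · exact (by norm_num : (-2 : ℚ) < 0)
  · exact (by norm_num : (-2 : ℚ) < 0)

/-- The point given by a symmetric matrix `(a, b; b, d)`. -/
def pv {R : Type*} [CommRing R] (a b d : R) : Fin 5 → R := ![1, a, b, d, a * d - b ^ 2]

theorem formK_pv {K : Type} [Field K] [Algebra ℚ K] (a b d a' b' d' : K) :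
    formK J0 (pv a b d) (pv a' b' d') =
      (a' * d' - b' ^ 2) + (a * d - b ^ 2) - a * d' - d * a' + 2 * b * b' := by
  simp [formK, pv, J0, mulVec, dotProduct, Fin.sum_univ_five]
  ring

theorem map_pv {R S : Type*} [CommRing R] [CommRing S] (f : R →+* S) (a b d : R) :
    (fun i => f (pv a b d i)) = pv (f a) (f b) (f d) := by
  funext i
  fin_cases i <;> simp [pv]

section cyc

variable {n : ℕ} [NeZero n] {z : ℂ} (hz : IsPrimitiveRoot z n)

include hz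

theorem cyc_ext : IsCyclotomicExtension {n} ℚ ℚ⟮z⟯ := by
  have h1 : IsAlgebraic ℚ z := (hz.isIntegral (NeZero.pos n)).tower_top.isAlgebraic
  change IsCyclotomicExtension {n} ℚ (IntermediateField.adjoin ℚ {z}).toSubalgebra
  rw [IntermediateField.adjoin_simple_toSubalgebra_of_isAlgebraic h1]
  exact hz.adjoin_isCyclotomicExtension ℚ

theorem gen_prim : IsPrimitiveRoot (IntermediateField.AdjoinSimple.gen ℚ z) n := by
  have h : (algebraMap ℚ⟮z⟯ ℂ) (IntermediateField.AdjoinSimple.gen ℚ z) = z :=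
    IntermediateField.AdjoinSimple.algebraMap_gen ℚ z
  refine IsPrimitiveRoot.of_map_of_injective (f := algebraMap ℚ⟮z⟯ ℂ) ?_
    (algebraMap ℚ⟮z⟯ ℂ).injective
  rw [h]
  exact hz

theorem fin_four (hn : n.totient = 4) : Module.finrank ℚ ℚ⟮z⟯ = 4 := by
  have := cyc_ext hz
  rw [IsCyclotomicExtension.finrank (n := n) ℚ⟮z⟯
    (Polynomial.cyclotomic.irreducible_rat (NeZero.pos n)), hn]

theorem gal_cyc : IsGalois ℚ ℚ⟮z⟯ := by
  have := cyc_ext hz
  exact IsCyclotomicExtension.isGalois {n} ℚ ℚ⟮z⟯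

theorem eq_one_of_gen (τ : ℚ⟮z⟯ ≃ₐ[ℚ] ℚ⟮z⟯)
    (h : τ (IntermediateField.AdjoinSimple.gen ℚ z) = IntermediateField.AdjoinSimple.gen ℚ z) :
    τ = 1 := by
  have := cyc_ext hz
  let pb := (gen_prim hz).powerBasis ℚ
  have h1 : (τ : ℚ⟮z⟯ →ₐ[ℚ] ℚ⟮z⟯) = ((1 : ℚ⟮z⟯ ≃ₐ[ℚ] ℚ⟮z⟯) : ℚ⟮z⟯ →ₐ[ℚ] ℚ⟮z⟯) := by
    apply pb.algHom_ext
    have hg : pb.gen = IntermediateField.AdjoinSimple.gen ℚ z :=
      IsPrimitiveRoot.powerBasis_gen ℚ (gen_prim hz)
    rw [hg]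
    exact h
  ext x
  exact congrArg _ (DFunLike.congr_fun h1 x)

theorem pow_of_aut (τ : ℚ⟮z⟯ ≃ₐ[ℚ] ℚ⟮z⟯) : ∃ k < n, k.Coprime n ∧
    τ (IntermediateField.AdjoinSimple.gen ℚ z) = IntermediateField.AdjoinSimple.gen ℚ z ^ k := by
  have h1 : IsPrimitiveRoot (τ (IntermediateField.AdjoinSimple.gen ℚ z)) n :=
    (gen_prim hz).map_of_injective τ.injective
  obtain ⟨k, hk, hk', hk''⟩ := (gen_prim hz).isPrimitiveRoot_iff.1 h1
  exact ⟨k, hk, hk', hk''.symm⟩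

open Polynomial in
/-- A criterion for the hypotheses of the main theorem. -/
theorem criterion (hn : n.totient = 4) (a b d : ℚ[X])
    (horth : ∀ k < n, k.Coprime n → k ≠ n - 1 → ∀ x : ℚ⟮z⟯, IsPrimitiveRoot x n →
      formK J0 (pv (aeval x a) (aeval x b) (aeval x d))
        (pv (aeval (x ^ k) a) (aeval (x ^ k) b) (aeval (x ^ k) d)) = 0)
    (hcone : (form J0 (pv (aeval z a) (aeval z b) (aeval z d))
      (star (pv (aeval z a) (aeval z b) (aeval z d)))).re < 0)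
    (hline : ∀ k < n, k.Coprime n → ∀ x : ℚ⟮z⟯, IsPrimitiveRoot x n →
      aeval (x ^ k) a = aeval x a → aeval (x ^ k) b = aeval x b →
      aeval (x ^ k) d = aeval x d → x ^ k = x) :
    ∃ o : Fin 5 → ℚ⟮z⟯, (∀ i, (o i : ℂ) = pv (aeval z a) (aeval z b) (aeval z d) i) ∧
      (fun i => (o i : ℂ)) ∈ cone J0 ∧ IsTorus (MT J0 fun i => (o i : ℂ)) ∧
      ∀ τ : ℚ⟮z⟯ ≃ₐ[ℚ] ℚ⟮z⟯, (∃ k : ℚ⟮z⟯, ∀ i, τ (o i) = k * o i) → τ = 1 := by
  have := gal_cyc hz
  have hfin := fin_four hz hn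
  set g := IntermediateField.AdjoinSimple.gen ℚ z with hg
  have hgz : (g : ℂ) = z := IntermediateField.AdjoinSimple.algebraMap_gen ℚ z
  have hgp := gen_prim hz
  have hn1 : 1 < n := by
    by_contra h
    have h1 : n = 0 ∨ n = 1 := by omega
    rcases h1 with h1 | h1 <;> rw [h1] at hn <;> simp at hn
  have hcoe : ∀ p : ℚ[X], ((aeval g p : ℚ⟮z⟯) : ℂ) = aeval z p := by
    intro p
    have h1 := Polynomial.aeval_algHom_apply (ℚ⟮z⟯.val) g p
    rw [show ℚ⟮z⟯.val g = z from hgz] at h1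
    exact h1.symm
  set o : Fin 5 → ℚ⟮z⟯ := pv (aeval g a) (aeval g b) (aeval g d) with ho
  have hoC : (fun i => (o i : ℂ)) = pv (aeval z a) (aeval z b) (aeval z d) := by
    rw [← hcoe, ← hcoe, ← hcoe]
    exact map_pv (algebraMap ℚ⟮z⟯ ℂ) _ _ _
  have hτo : ∀ (τ : ℚ⟮z⟯ ≃ₐ[ℚ] ℚ⟮z⟯), (fun i => τ (o i)) =
      pv (aeval (τ g) a) (aeval (τ g) b) (aeval (τ g) d) := by
    intro τ
    have h1 : ∀ p : ℚ[X], τ (aeval g p) = aeval (τ g) p := fun p =>
      (Polynomial.aeval_algHom_apply (τ : ℚ⟮z⟯ →ₐ[ℚ] ℚ⟮z⟯) g p).symm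
    rw [← h1, ← h1, ← h1]
    exact map_pv (τ : ℚ⟮z⟯ →+* ℚ⟮z⟯) _ _ _
  have hoo : formK J0 o o = 0 := by
    rw [ho, formK_pv]
    ring
  have hcone' : (fun i => (o i : ℂ)) ∈ cone J0 := by
    refine ⟨?_, ?_⟩
    · have h1 := formK_ι (J := J0) ℚ⟮z⟯.val o o
      have h2 := congrArg ℚ⟮z⟯.val hoo
      exact (h1.symm.trans h2).trans (map_zero _)
    · rw [hoC]
      exact hcone
  have hreal : ∃ x : ℚ⟮z⟯, star (x : ℂ) ≠ x := by
    by_contra h
    push Not at h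
    have h1 : star (fun i => (o i : ℂ)) = fun i => (o i : ℂ) := by
      funext i
      exact h (o i)
    have h2 := hcone'.2
    rw [h1, hcone'.1] at h2
    simp at h2
  obtain ⟨G, hι, hall⟩ := exists_gal ℚ⟮z⟯ hfin hreal
  have hιo : (fun i => G.ι (o i)) = fun i => (o i : ℂ) := by
    rw [hι]
    rfl
  -- complex conjugation maps the generator to its power `n - 1`
  have hcg : G.c g = g ^ (n - 1) := by
    apply G.ι.toRingHom.injective
    change G.ι _ = G.ι _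
    have h1 : G.ι g = z := by rw [hι]; exact hgz
    have h2 : ‖z‖ = 1 := hz.norm'_eq_one (by omega)
    rw [G.hc, map_pow, h1]
    have h3 : star z = z⁻¹ := by
      rw [Complex.inv_def, Complex.normSq_eq_norm_sq, h2]
      simp
    rw [h3]
    refine inv_eq_of_mul_eq_one_left ?_
    rw [← pow_succ, Nat.sub_add_cancel hn1.le]
    exact hz.pow_eq_one
  have hne : ∀ τ : ℚ⟮z⟯ ≃ₐ[ℚ] ℚ⟮z⟯, τ ≠ G.c → formK J0 o (fun i => τ (o i)) = 0 := by
    intro τ hτ
    obtain ⟨k, hk, hk', hk''⟩ := pow_of_aut hz τ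
    rw [hτo, hk'', ho]
    refine horth k hk hk' ?_ g hgp
    intro h
    apply hτ
    have h1 : (G.c⁻¹ * τ) = 1 := by
      apply eq_one_of_gen hz
      change G.c.symm (τ g) = g
      rw [hk'', h, ← hcg, AlgEquiv.symm_apply_apply]
    exact (inv_mul_eq_one.1 h1).symm
  have hσc : G.σ ≠ G.c := by
    intro h
    have h1 : (2 : Fin 5) = 4 := by
      apply G.hθ
      change G.σ G.θ = G.c G.θ
      rw [h]
    exact absurd h1 (by decide)
  have hσ1 : G.σ ≠ 1 := by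
    intro h
    have h1 : (1 : Fin 5) = 2 := by
      apply G.hθ
      change G.θ = G.σ G.θ
      rw [h]
      rfl
    exact absurd h1 (by decide)
  have hcσ : G.c * G.σ ≠ G.c := fun h => hσ1 (mul_eq_left.1 h)
  have ht := torus_of G hfin sig_J0 o hoo (hne G.σ hσc) (hne (G.c * G.σ) hcσ)
    (by rw [hιo]; exact hcone')
  rw [hιo] at ht
  refine ⟨o, fun i => congrFun hoC i, hcone', ht.1, ?_⟩
  rintro τ ⟨k, hk⟩
  have h0 : k = 1 := by
    have h1 := hk 0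
    have h2 : o 0 = 1 := rfl
    rw [h2, map_one, mul_one] at h1
    exact h1.symm
  subst h0
  obtain ⟨k, hk1, hk2, hk3⟩ := pow_of_aut hz τ
  apply eq_one_of_gen hz
  change τ g = g
  rw [← hg] at hk3
  rw [hk3]
  have h1 := hτo τ
  rw [hk3] at h1
  have h2 : ∀ i, τ (o i) = o i := fun i => by rw [hk i, one_mul]
  refine hline k hk1 hk2 g hgp ?_ ?_ ?_
  · exact (congrFun h1 1).symm.trans (h2 1)
  · exact (congrFun h1 2).symm.trans (h2 2)
  · exact (congrFun h1 3).symm.trans (h2 3)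

end cyc

end Pool.Agent.Y973.HS
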