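import Pool.Agent.Y973.HS.Inst

/-!
# Two special points of the Siegel threefold
-/

set_option autoImplicit false

namespace Pool.Agent.Y973.HS

open Matrix
open scoped IntermediateField
open Pool.Agent.H320R4.HS (Mat Vec GL5 toC form SO cone hodge HodgeIn IsQSubgroup MT IsTorus
  IsMaximalTorus tangent tangentOf IsHarishChandra Qbar IsStructure StabStable IsRational
  Signature32)

theorem form_pv (a b d a' b' d' : ℂ) :
    form J0 (pv a b d) (pv a' b' d') =
      (a' * d' - b' ^ 2) + (a * d - b ^ 2) - a * d' - d * a' + 2 * b * b' := by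
  simp [form, toC, pv, J0, mulVec, dotProduct, Fin.sum_univ_five]
  ring

theorem star_pv (a b d : ℂ) : star (pv a b d) = pv (star a) (star b) (star d) :=
  map_pv (starRingEnd ℂ) a b d

theorem re_exp (n : ℕ) :
    (Complex.exp (2 * Real.pi * Complex.I / n)).re = Real.cos (2 * Real.pi / n) := by
  have : (2 * Real.pi * Complex.I / n : ℂ) = ((2 * Real.pi / n : ℝ) : ℂ) * Complex.I := by
    push_cast
    ring
  rw [this, Complex.exp_ofReal_mul_I_re]

theorem star_mul_self_root {n : ℕ} (hn : n ≠ 0) {z : ℂ} (hz : IsPrimitiveRoot z n) :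
    star z * z = 1 := by
  have h2 : ‖z‖ = 1 := hz.norm'_eq_one hn
  have h3 := Complex.normSq_eq_conj_mul_self (z := z)
  rw [Complex.normSq_eq_norm_sq, h2] at h3
  rw [Complex.star_def, ← h3]
  simp

open Polynomial in
/-- A point with a cyclic field: the point of the Jacobian of `y² = x⁵ - 1`. -/
theorem inst_cyclic : ∃ (K : IntermediateField ℚ ℂ) (o : Fin 5 → K), IsGalois ℚ K ∧
    Module.finrank ℚ K = 4 ∧ IsCyclic (K ≃ₐ[ℚ] K) ∧ (fun i => (o i : ℂ)) ∈ cone J0 ∧
    IsTorus (MT J0 fun i => (o i : ℂ)) ∧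
    ∀ τ : K ≃ₐ[ℚ] K, (∃ k : K, ∀ i, τ (o i) = k * o i) → τ = 1 := by
  set z : ℂ := Complex.exp (2 * Real.pi * Complex.I / (5 : ℕ)) with hzdef
  have hz : IsPrimitiveRoot z 5 := Complex.isPrimitiveRoot_exp 5 (by norm_num)
  have hΦ : ∀ {L : Type} [Field L] [CharZero L] (x : L), IsPrimitiveRoot x 5 →
      x ^ 4 + x ^ 3 + x ^ 2 + x + 1 = 0 := by
    intro L _ _ x hx
    have h1 := hx.geom_sum_eq_zero (by norm_num)
    simp only [Finset.sum_range_succ, Finset.sum_range_zero] at h1
    linear_combination h1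
  have hre : 0 < z.re := by
    rw [hzdef, re_exp]
    apply Real.cos_pos_of_mem_Ioo
    constructor <;> push_cast <;> linarith [Real.pi_pos]
  have hsz : star z = z ^ 4 := by
    have h1 := star_mul_self_root (by norm_num) hz
    have h2 := hz.pow_eq_one
    linear_combination z ^ 4 * h1 - star z * h2
  have hcone : (form J0 (pv (aeval z (-X ^ 4 : ℚ[X])) (aeval z (X ^ 2 + 1 : ℚ[X]))
      (aeval z (X ^ 2 - X ^ 3 : ℚ[X])))
      (star (pv (aeval z (-X ^ 4 : ℚ[X])) (aeval z (X ^ 2 + 1 : ℚ[X]))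
      (aeval z (X ^ 2 - X ^ 3 : ℚ[X]))))).re < 0 := by
    rw [star_pv, form_pv]
    have h1 := hΦ z hz
    simp only [map_neg, map_add, map_sub, map_pow, map_one, aeval_X, star_neg, star_add, star_sub,
      star_pow, star_one, hsz]
    have h2 : ∀ u : ℂ, u = -5 * (z + star z) → u.re < 0 := by
      intro u hu
      rw [hu, Complex.star_def, Complex.add_conj, ← Complex.ofReal_ofNat, ← Complex.ofReal_neg,
        ← Complex.ofReal_mul, Complex.ofReal_re]
      linarith
    apply h2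
    rw [hsz]
    linear_combination (-5*z ^ 0 + 5*z^1 + (-5)*z^2 + (4)*z^4 + (-4)*z^5 + (4)*z^6 + (-3)*z^7 + (-1)*z^8 + (4)*z^9 + (-2)*z^10 + (2)*z^11 + (-2)*z^12 + (-2)*z^13 + (4)*z^14 + (-2)*z^15 + (-1)*z^18 + (2)*z^19 + (-1)*z^20 + (-1)*z^23 + (1)*z^24 + 5) * h1
  obtain ⟨o, -, h1, h2, h3⟩ := criterion hz (by decide) (-X ^ 4) (X ^ 2 + 1) (X ^ 2 - X ^ 3)
    (by
      intro k hk hk' hk'' x hx
      have h1 := hΦ x hx
      rw [formK_pv]
      simp only [map_neg, map_add, map_sub, map_pow, map_one, aeval_X]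
      have : k = 0 ∨ k = 1 ∨ k = 2 ∨ k = 3 := by omega
      rcases this with rfl | rfl | rfl | rfl
      · exact absurd hk' (by decide)
      · ring
      · linear_combination (-x ^ 4 + x ^ 5 + x ^ 6 - x ^ 8 - x ^ 9 + x ^ 10) * h1
      · linear_combination (-x ^ 4 + x ^ 5 - x ^ 6 + 2 * x ^ 7 + x ^ 8 - 3 * x ^ 9 + 2 * x ^ 10
          - 2 * x ^ 11 + x ^ 12 + x ^ 13 - x ^ 14 - x ^ 16 + x ^ 17) * h1)
    hcone
    (by
      intro k hk hk' x hx ha hb hd
      simp only [map_neg, map_add, map_sub, map_pow, map_one, aeval_X] at ha hb hd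
      have h5 : x ^ 5 = 1 := hx.pow_eq_one
      have h5' : (x ^ k) ^ 5 = 1 := by rw [← pow_mul, mul_comm, pow_mul, h5, one_pow]
      have h6 : (x ^ k) ^ 4 = x ^ 4 := neg_injective ha
      calc x ^ k = (x ^ k) ^ 5 * x ^ k := by rw [h5', one_mul]
        _ = (x ^ k) ^ 4 * (x ^ k) ^ 2 := by ring
        _ = x ^ 4 * (x ^ k) ^ 2 := by rw [h6]
        _ = x := by
          have h7 : x * (x ^ k) ^ 4 = 1 := by rw [h6]; linear_combination h5
          have h8 : x ^ k = x := by
            linear_combination (-x ^ k) * h7 + x * h5'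
          rw [h8]
          linear_combination x * h5)
  have := cyc_ext hz
  have h4 : IsCyclic (ℚ⟮z⟯ ≃ₐ[ℚ] ℚ⟮z⟯) := by
    have h5 := ZMod.isCyclic_units_prime (p := 5) (by norm_num)
    exact (IsCyclotomicExtension.autEquivPow (n := 5) ℚ⟮z⟯
      (cyclotomic.irreducible_rat (by norm_num))).isCyclic.2 h5
  exact ⟨ℚ⟮z⟯, o, gal_cyc hz, fin_four hz (by decide), h4, h1, h2, h3⟩

open Polynomial in
/-- A point with a biquadratic field: the point of the product of the elliptic curves with complex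
multiplication by `ℤ[i]` and `ℤ[√-2]`. -/
theorem inst_biq : ∃ (K : IntermediateField ℚ ℂ) (o : Fin 5 → K), IsGalois ℚ K ∧
    Module.finrank ℚ K = 4 ∧ ¬ IsCyclic (K ≃ₐ[ℚ] K) ∧ (fun i => (o i : ℂ)) ∈ cone J0 ∧
    IsTorus (MT J0 fun i => (o i : ℂ)) ∧
    ∀ τ : K ≃ₐ[ℚ] K, (∃ k : K, ∀ i, τ (o i) = k * o i) → τ = 1 := by
  set z : ℂ := Complex.exp (2 * Real.pi * Complex.I / (8 : ℕ)) with hzdef
  have hz : IsPrimitiveRoot z 8 := Complex.isPrimitiveRoot_exp 8 (by norm_num)
  have hΦ : ∀ {L : Type} [Field L] [CharZero L] (x : L), IsPrimitiveRoot x 8 →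
      x ^ 4 + 1 = 0 := by
    intro L _ _ x hx
    have h1 : x ^ 4 ≠ 1 := fun h => by
      have := hx.pow_eq_one_iff_dvd 4 |>.1 h
      omega
    have h2 : (x ^ 4 - 1) * (x ^ 4 + 1) = 0 := by
      have := hx.pow_eq_one
      linear_combination this
    exact (mul_eq_zero.1 h2).resolve_left (sub_ne_zero.2 h1)
  have hre : 0 < z.re := by
    rw [hzdef, re_exp]
    apply Real.cos_pos_of_mem_Ioo
    constructor <;> push_cast <;> linarith [Real.pi_pos]
  have hsz : star z = -z ^ 3 := by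
    have h1 := star_mul_self_root (by norm_num) hz
    have h2 := hΦ z hz
    linear_combination -z ^ 3 * h1 + star z * h2
  have hcone : (form J0 (pv (aeval z (X ^ 2 : ℚ[X])) (aeval z (0 : ℚ[X]))
      (aeval z (X + X ^ 3 : ℚ[X])))
      (star (pv (aeval z (X ^ 2 : ℚ[X])) (aeval z (0 : ℚ[X]))
      (aeval z (X + X ^ 3 : ℚ[X]))))).re < 0 := by
    rw [star_pv, form_pv]
    have h1 := hΦ z hz
    simp only [map_add, map_pow, map_zero, aeval_X, star_add,
      star_pow, star_zero, hsz]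
    have h2 : ∀ u : ℂ, u = -4 * (z + star z) → u.re < 0 := by
      intro u hu
      rw [hu, Complex.star_def, Complex.add_conj, ← Complex.ofReal_ofNat, ← Complex.ofReal_neg,
        ← Complex.ofReal_mul, Complex.ofReal_re]
      linarith
    apply h2
    rw [hsz]
    linear_combination (4 * z - 3 * z ^ 3 - 2 * z ^ 5 + 2 * z ^ 7 - z ^ 11) * h1
  obtain ⟨o, -, h1, h2, h3⟩ := criterion hz (by decide) (X ^ 2) 0 (X + X ^ 3)
    (by
      intro k hk hk' hk'' x hx
      have h1 := hΦ x hx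
      rw [formK_pv]
      simp only [map_add, map_pow, map_zero, aeval_X]
      have : k = 0 ∨ k = 1 ∨ k = 2 ∨ k = 3 ∨ k = 4 ∨ k = 5 ∨ k = 6 := by omega
      rcases this with rfl | rfl | rfl | rfl | rfl | rfl | rfl
      · exact absurd hk' (by decide)
      · ring
      · exact absurd hk' (by decide)
      · linear_combination (x ^ 3 - 2 * x ^ 7 + x ^ 11) * h1
      · exact absurd hk' (by decide)
      · linear_combination (x ^ 3 + x ^ 5 - 2 * x ^ 7 - x ^ 9 + x ^ 11 - x ^ 17 + x ^ 21) * h1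
      · exact absurd hk' (by decide))
    hcone
    (by
      intro k hk hk' x hx ha hb hd
      simp only [map_add, map_pow, map_zero, aeval_X] at ha hb hd
      have h4 := hΦ x hx
      have hx0 : x ≠ 0 := by
        rintro rfl
        norm_num at h4
      have h2 : x ^ 2 ≠ 0 := pow_ne_zero 2 hx0
      have hm : x ^ 4 ≠ 1 := fun h => by
        rw [h] at h4
        norm_num at h4
      have : k = 0 ∨ k = 1 ∨ k = 2 ∨ k = 3 ∨ k = 4 ∨ k = 5 ∨ k = 6 ∨ k = 7 := by omega
      rcases this with rfl | rfl | rfl | rfl | rfl | rfl | rfl | rfl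
      · exact absurd hk' (by decide)
      · exact pow_one x
      · exact absurd hk' (by decide)
      · exfalso
        apply hm
        apply mul_left_cancel₀ h2
        linear_combination ha
      · exact absurd hk' (by decide)
      · exfalso
        have h5 : x * (1 + x ^ 2) = 0 := by
          linear_combination (1 / 2 : ℚ⟮z⟯) * (-hd + (x + x ^ 3 - x ^ 7 + x ^ 11) * h4)
        have h6 := (mul_eq_zero.1 h5).resolve_left hx0
        apply hm
        linear_combination (x ^ 2 - 1) * h6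
      · exact absurd hk' (by decide)
      · exfalso
        apply hm
        apply mul_left_cancel₀ h2
        linear_combination ha - (x ^ 10 - x ^ 6) * h4)
  have := cyc_ext hz
  have h4 : ¬ IsCyclic (ℚ⟮z⟯ ≃ₐ[ℚ] ℚ⟮z⟯) := by
    intro h
    exact ZMod.not_isCyclic_units_eight ((IsCyclotomicExtension.autEquivPow (n := 8) ℚ⟮z⟯
      (cyclotomic.irreducible_rat (by norm_num))).isCyclic.1 h)
  exact ⟨ℚ⟮z⟯, o, gal_cyc hz, fin_four hz (by decide), h4, h1, h2, h3⟩

end Pool.Agent.Y973.HS
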