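import Pool.Agent.Y973.HS.Gal

/-!
# The Mumford-Tate group of `o` is the torus of the frame
-/

set_option autoImplicit false

namespace Pool.Agent.Y973.HS

open Matrix
open Pool.Agent.H320R4.HS (Mat Vec GL5 toC form SO cone hodge HodgeIn IsQSubgroup MT IsTorus
  IsMaximalTorus tangent tangentOf IsHarishChandra Qbar IsStructure StabStable IsRational fam
  mem_of_infinite infinite_rat infinite_circle lam XM cM evG evG_apply evG_X evG_XT evG_c
  exp_nil torus_comm Signature32)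

namespace Frame

variable {J : Matrix (Fin 5) (Fin 5) ℚ} (D : Frame J)

/-- The projection to the `k`-th vector. -/
def Ek (k : Fin 5) : Mat := D.cb (Matrix.single k k 1)

theorem cb_diag (d : Fin 5 → ℂ) : D.cb (diagonal d) = ∑ k, d k • D.Ek k := by
  have h : diagonal d = ∑ k, d k • (Matrix.single k k (1 : ℂ)) := by
    ext i j
    rw [Matrix.sum_apply]
    simp only [Matrix.smul_apply, Matrix.single_apply, smul_eq_mul]
    by_cases hij : i = j
    · subst hij
      simp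
    · rw [diagonal_apply_ne _ hij]
      symm
      refine Finset.sum_eq_zero fun k _ => ?_
      rw [if_neg (fun h => hij (h.1.symm.trans h.2)), mul_zero]
  rw [h]
  simp only [Fin.sum_univ_five, cb_add, cb_smul, Ek]

theorem Tel_fam1 (x : ℂˣ) : (D.Tel x 1 : Mat) = fam D.Ek ![0, 1, 0, 0, -1] x := by
  rw [Tel_val, cb_diag]
  unfold fam
  refine Finset.sum_congr rfl fun k _ => ?_
  fin_cases k <;> simp

theorem Tel_fam2 (x : ℂˣ) : (D.Tel 1 x : Mat) = fam D.Ek ![0, 0, 1, -1, 0] x := by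
  rw [Tel_val, cb_diag]
  unfold fam
  refine Finset.sum_congr rfl fun k _ => ?_
  fin_cases k <;> simp

theorem hodgeIn_Tor : HodgeIn J D.o D.Tor := fun z hz =>
  ⟨D.Tel (lam z hz) 1, ⟨_, _, rfl⟩, (D.hodge_o z hz).symm⟩

theorem isTorus_Tor : IsTorus D.Tor := by
  refine ⟨2, ⟨D.P, D.Q, D.PQ, D.QP⟩, ![![0, 0], ![1, 0], ![0, 1], ![0, -1], ![-1, 0]],
    fun g => ?_⟩
  have key : ∀ t : Fin 2 → ℂˣ, (D.Tel (t 0) (t 1) : Mat) = D.P *
      diagonal (fun i => ∏ j, ((t j : ℂ) ^ (![![0, 0], ![1, 0], ![0, 1], ![0, -1], ![-1, 0]] :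
        Fin 5 → Fin 2 → ℤ) i j)) * D.Q := by
    intro t
    rw [Tel_val]
    unfold cb
    congr 3
    funext k
    fin_cases k <;> simp [Fin.prod_univ_two]
  rw [mem_Tor]
  constructor
  · rintro ⟨x, y, rfl⟩
    exact ⟨![x, y], by simpa using key ![x, y]⟩
  · rintro ⟨t, ht⟩
    exact ⟨t 0, t 1, Units.ext (by rw [ht, key t]; rfl)⟩

theorem maximal_Tor : IsMaximalTorus (SO J) D.Tor := by
  refine ⟨D.isTorus_Tor, D.Tor_le_SO, fun T' hT' hle hT => ?_⟩
  intro g hg
  have h2 : (2 : ℂ) ≠ 0 := two_ne_zero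
  have h3 : (3 : ℂ) ≠ 0 := three_ne_zero
  have hd : Function.Injective ![(1 : ℂ), 2, 3, 3⁻¹, 2⁻¹] := by
    intro i j
    fin_cases i <;> fin_cases j <;> simp <;> norm_num
  refine (D.mem_Tor_iff _ hd).2 ⟨hle hg, ?_⟩
  have h1 := torus_comm hT' hg (hT ⟨Units.mk0 2 h2, Units.mk0 3 h3, rfl⟩)
  have h4 := congrArg Units.val h1
  rw [Units.val_mul, Units.val_mul, Tel_val] at h4
  exact h4

/-- The torus is algebraic over `ℚ` if some rational matrix is diagonal and regular. -/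
theorem isQ_Tor {d : Fin 5 → ℂ} (hd : Function.Injective d) {R : Matrix (Fin 5) (Fin 5) ℚ}
    (hR : toC R = D.cb (diagonal d)) : IsQSubgroup D.Tor := by
  refine ⟨{p | ∃ i j, p = (XMᵀ * cM J * XM - cM J) i j} ∪
    {p | ∃ i j, p = (XM * cM R - cM R * XM) i j} ∪ {XM.det - 1}, fun g => ?_⟩
  have h1 : ∀ i j, evG g ((XMᵀ * cM J * XM - cM J) i j) =
      ((g : Mat)ᵀ * toC J * (g : Mat) - toC J) i j := by
    intro i j
    have : (evG g).mapMatrix (XMᵀ * cM J * XM - cM J) =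
        (g : Mat)ᵀ * toC J * (g : Mat) - toC J := by
      rw [map_sub, map_mul, map_mul, evG_X, evG_XT, evG_c]
    rw [← this]
    rfl
  have h2 : ∀ i j, evG g ((XM * cM R - cM R * XM) i j) =
      ((g : Mat) * toC R - toC R * (g : Mat)) i j := by
    intro i j
    have : (evG g).mapMatrix (XM * cM R - cM R * XM) =
        (g : Mat) * toC R - toC R * (g : Mat) := by
      rw [map_sub, map_mul, map_mul, evG_X, evG_c]
    rw [← this]
    rfl
  have h3 : evG g (XM.det - 1) = (g : Mat).det - 1 := by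
    rw [map_sub, map_one, RingHom.map_det, evG_X]
  rw [D.mem_Tor_iff d hd, ← hR]
  constructor
  · rintro ⟨⟨a, b⟩, c'⟩ p hp
    rw [evG_apply]
    rcases hp with (⟨i, j, rfl⟩ | ⟨i, j, rfl⟩) | hp
    · rw [h1, a]
      simp
    · rw [h2, c']
      simp
    · rw [Set.mem_singleton_iff.1 hp, h3, b]
      simp
  · intro h
    refine ⟨⟨?_, ?_⟩, ?_⟩
    · ext i j
      have := h _ (Or.inl (Or.inl ⟨i, j, rfl⟩))
      rw [evG_apply, h1, Matrix.sub_apply] at this
      exact sub_eq_zero.1 this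
    · have := h _ (Or.inr rfl)
      rw [evG_apply, h3] at this
      exact sub_eq_zero.1 this
    · ext i j
      have := h _ (Or.inl (Or.inr ⟨i, j, rfl⟩))
      rw [evG_apply, h2, Matrix.sub_apply] at this
      exact sub_eq_zero.1 this

end Frame

namespace VecDat

variable {K : Type} [Field K] [Algebra ℚ K] {G : GalDat K} {J : Matrix (Fin 5) (Fin 5) ℚ}
  (V : VecDat G J)

/-- The diagonal matrices with conjugate entries are rational. -/
theorem rat_diag (ρ : K) : ∃ R : Matrix (Fin 5) (Fin 5) ℚ, toC R =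
    V.frame.cb (diagonal ![0, G.ι ρ, G.ι (G.σ ρ), G.ι (G.c (G.σ ρ)), G.ι (G.c ρ)]) := by
  have h : ∀ i j, ∃ r : ℚ, (ρ / V.μ) * tK J (V.w 1) (V.w 4) i j +
      (G.σ ρ / V.ν) * tK J (V.w 2) (V.w 3) i j + (G.c (G.σ ρ) / V.ν) * tK J (V.w 3) (V.w 2) i j +
      (G.c ρ / V.μ) * tK J (V.w 4) (V.w 1) i j = algebraMap ℚ K r := by
    intro i j
    obtain ⟨r, hr⟩ := G.tr_rat ((ρ / V.μ) * tK J (V.w 1) (V.w 4) i j)
    refine ⟨r, ?_⟩
    rw [← hr]
    have e1 : G.σ (tK J (V.w 1) (V.w 4) i j) = tK J (V.w 2) (V.w 3) i j := by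
      have := congrFun (congrFun (tK_map (J := J) G.σ (V.w 1) (V.w 4)) i) j
      rwa [σ_w1, σ_w4, map_apply] at this
    have e2 : G.c (tK J (V.w 2) (V.w 3) i j) = tK J (V.w 3) (V.w 2) i j := by
      have := congrFun (congrFun (tK_map (J := J) G.c (V.w 2) (V.w 3)) i) j
      rwa [c_w2, c_w3, map_apply] at this
    have e3 : G.c (tK J (V.w 1) (V.w 4) i j) = tK J (V.w 4) (V.w 1) i j := by
      have := congrFun (congrFun (tK_map (J := J) G.c (V.w 1) (V.w 4)) i) j
      rwa [c_w1, c_w4, map_apply] at this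
    have e4 : G.σ V.μ = V.ν := rfl
    simp only [map_mul, map_div₀, e1, e2, e3, e4, V.cμ, V.cν]
  choose R hR using h
  refine ⟨Matrix.of R, ?_⟩
  have h1 : toC (Matrix.of R) = (G.ι (ρ / V.μ)) • V.frame.tn 1 4 +
      (G.ι (G.σ ρ / V.ν)) • V.frame.tn 2 3 + (G.ι (G.c (G.σ ρ) / V.ν)) • V.frame.tn 3 2 +
      (G.ι (G.c ρ / V.μ)) • V.frame.tn 4 1 := by
    ext i j
    have h2 := congrArg G.ι (hR i j)
    rw [AlgHom.commutes] at h2
    simp only [map_add, map_mul] at h2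
    simp only [Matrix.add_apply, Matrix.smul_apply, ← V.map_tK, map_apply, smul_eq_mul]
    rw [h2]
    rfl
  rw [h1, Frame.tn_eq, Frame.tn_eq, Frame.tn_eq, Frame.tn_eq, ← Frame.cb_smul, ← Frame.cb_smul,
    ← Frame.cb_smul, ← Frame.cb_smul, ← Frame.cb_add, ← Frame.cb_add, ← Frame.cb_add]
  congr 1
  have hμ := V.frame.hμ
  have hν := V.frame.hν
  rw [frame_μ] at hμ
  rw [frame_ν] at hν
  ext k l
  simp only [frame_m, frame_μ, frame_ν, map_div₀, Matrix.add_apply, Matrix.smul_apply, Frame.En,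
    of_apply]
  fin_cases k <;> fin_cases l <;> simp [Am, hμ, hν]

/-- A rational regular diagonal matrix. -/
theorem exists_reg : ∃ (d : Fin 5 → ℂ) (R : Matrix (Fin 5) (Fin 5) ℚ), Function.Injective d ∧
    toC R = V.frame.cb (diagonal d) := by
  obtain ⟨R, hR⟩ := V.rat_diag G.θ
  refine ⟨_, R, ?_, hR⟩
  have h1 : (![0, G.ι G.θ, G.ι (G.σ G.θ), G.ι (G.c (G.σ G.θ)), G.ι (G.c G.θ)] : Fin 5 → ℂ) =
      fun i => G.ι (![0, G.θ, G.σ G.θ, G.c (G.σ G.θ), G.c G.θ] i) := by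
    funext i
    fin_cases i <;> simp
  rw [h1]
  exact G.ι.toRingHom.injective.comp G.hθ

theorem isQ_Tor : IsQSubgroup V.frame.Tor := by
  obtain ⟨d, R, hd, hR⟩ := V.exists_reg
  exact V.frame.isQ_Tor hd hR

theorem ι_one (i j : Fin 5) : G.ι ((1 : Matrix (Fin 5) (Fin 5) K) i j) = (1 : Mat) i j := by
  rw [one_apply, one_apply]
  split_ifs <;> simp

theorem τ_one (τ : K ≃ₐ[ℚ] K) (i j : Fin 5) :
    τ ((1 : Matrix (Fin 5) (Fin 5) K) i j) = (1 : Matrix (Fin 5) (Fin 5) K) i j := by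
  rw [one_apply]
  split_ifs <;> simp

theorem Tor_le {H : Subgroup GL5} (hH : IsQSubgroup H) (hh : HodgeIn J V.frame.o H) :
    V.frame.Tor ≤ H := by
  have s1 : ∀ x : ℂˣ, V.frame.Tel x 1 ∈ H := by
    refine mem_of_infinite hH V.frame.Ek _ (fun x => V.frame.Tel x 1) V.frame.Tel_fam1 _
      infinite_circle ?_
    rintro x ⟨z, hz, hx⟩
    obtain ⟨g, hg, hg'⟩ := hh z hz
    have : g = V.frame.Tel x 1 := by
      apply Units.ext
      rw [hg', V.frame.hodge_o z hz]
      have h1 : lam z hz = x := by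
        apply Units.ext
        rw [hx]
        rfl
      rw [h1]
    rw [← this]
    exact hg
  have s2 : ∀ x : ℂˣ, V.frame.Tel 1 x ∈ H := by
    refine mem_of_infinite hH V.frame.Ek _ (fun x => V.frame.Tel 1 x) V.frame.Tel_fam2 _
      infinite_rat ?_
    rintro x ⟨r, hr, hx⟩
    have hμ := V.frame.hμ
    have hν := V.frame.hν
    rw [frame_μ] at hμ
    rw [frame_ν] at hν
    have hrι : G.ι (algebraMap ℚ K r) = (r : ℂ) := AlgHom.commutes _ _
    refine mem_gal G.ι hH (1 + ((algebraMap ℚ K r - 1) / V.μ) • tK J (V.w 1) (V.w 4) +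
      (((algebraMap ℚ K r)⁻¹ - 1) / V.μ) • tK J (V.w 4) (V.w 1)) G.σ
      (V.frame.Tel x 1) (V.frame.Tel 1 x) ?_ ?_ (s1 x)
    · have h1 : ((1 + ((algebraMap ℚ K r - 1) / V.μ) • tK J (V.w 1) (V.w 4) +
          (((algebraMap ℚ K r)⁻¹ - 1) / V.μ) • tK J (V.w 4) (V.w 1)).map G.ι) =
          1 + (((r : ℂ) - 1) / G.ι V.μ) • V.frame.tn 1 4 +
          (((r : ℂ)⁻¹ - 1) / G.ι V.μ) • V.frame.tn 4 1 := by
        rw [← V.map_tK, ← V.map_tK]
        ext i j
        simp only [map_apply, ι_one, τ_one, Matrix.add_apply, Matrix.smul_apply, smul_eq_mul, map_add, map_mul,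
          map_div₀, map_sub, map_one, map_inv₀, hrι]
      rw [h1, Frame.Tel_val, Frame.tn_eq, Frame.tn_eq, ← Frame.cb_smul, ← Frame.cb_smul,
        ← Frame.cb_one, ← Frame.cb_add, ← Frame.cb_add, hx]
      congr 1
      ext k l
      simp only [frame_m, frame_μ, frame_ν]
      fin_cases k <;> fin_cases l <;> simp [Frame.En, Am] <;> field_simp <;> ring
    · have h1 : (((1 + ((algebraMap ℚ K r - 1) / V.μ) • tK J (V.w 1) (V.w 4) +
          (((algebraMap ℚ K r)⁻¹ - 1) / V.μ) • tK J (V.w 4) (V.w 1)).map G.σ).map G.ι) =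
          1 + (((r : ℂ) - 1) / G.ι V.ν) • V.frame.tn 2 3 +
          (((r : ℂ)⁻¹ - 1) / G.ι V.ν) • V.frame.tn 3 2 := by
        have e1 : (tK J (V.w 1) (V.w 4)).map G.σ = tK J (V.w 2) (V.w 3) := by
          rw [tK_map, σ_w1, σ_w4]
        have e2 : (tK J (V.w 4) (V.w 1)).map G.σ = tK J (V.w 3) (V.w 2) := by
          rw [tK_map, σ_w1, σ_w4]
        rw [← V.map_tK, ← V.map_tK, ← e1, ← e2]
        ext i j
        have e4 : G.σ V.μ = V.ν := rfl
        simp only [map_apply, ι_one, τ_one, Matrix.add_apply, Matrix.smul_apply, smul_eq_mul, map_add, map_mul,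
          map_div₀, map_sub, map_one, map_inv₀, AlgEquiv.commutes, hrι, e4]
      rw [h1, Frame.Tel_val, Frame.tn_eq, Frame.tn_eq, ← Frame.cb_smul, ← Frame.cb_smul,
        ← Frame.cb_one, ← Frame.cb_add, ← Frame.cb_add, hx]
      congr 1
      ext k l
      simp only [frame_m, frame_μ, frame_ν]
      fin_cases k <;> fin_cases l <;> simp [Frame.En, Am] <;> field_simp <;> ring
  intro g hg
  obtain ⟨x, y, rfl⟩ := hg
  have : V.frame.Tel x y = V.frame.Tel x 1 * V.frame.Tel 1 y := by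
    rw [Frame.Tel_mul, mul_one, one_mul]
  rw [this]
  exact H.mul_mem (s1 x) (s2 y)

theorem MT_o : MT J V.frame.o = V.frame.Tor := by
  apply le_antisymm
  · exact sInf_le ⟨V.isQ_Tor, V.frame.Tor_le_SO, V.frame.hodgeIn_Tor⟩
  · refine le_sInf fun H hH => V.Tor_le hH.1 hH.2.2

theorem maximal_MT : IsMaximalTorus (SO J) (MT J V.frame.o) := by
  rw [V.MT_o]
  exact V.frame.maximal_Tor

/-! ### conjugates of exponentials -/

theorem EG_c_conj (hcyc : ∀ x, G.σ (G.σ x) = G.c x) {H : Subgroup GL5} (hH : IsQSubgroup H)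
    (r : ℚ) (h : V.frame.EG 0 0 (r * G.ι V.μ) ∈ H) : V.frame.EG 0 (-(r * G.ι V.μ)) 0 ∈ H := by
  have hμ := V.frame.hμ
  have hν := V.frame.hν
  rw [frame_μ] at hμ
  rw [frame_ν] at hν
  have hrι : G.ι (algebraMap ℚ K r) = (r : ℂ) := AlgHom.commutes _ _
  refine mem_gal G.ι hH (1 + (algebraMap ℚ K r) • (tK J (V.w 3) (V.w 4) - tK J (V.w 4) (V.w 3)))
    (G.c.trans G.σ) _ _ ?_ ?_ h
  · have h1 : ((1 + (algebraMap ℚ K r) • (tK J (V.w 3) (V.w 4) - tK J (V.w 4) (V.w 3))).map G.ι) =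
        1 + (r : ℂ) • (V.frame.tn 3 4 - V.frame.tn 4 3) := by
      rw [← V.map_tK, ← V.map_tK]
      ext i j
      simp only [map_apply, ι_one, τ_one, Matrix.add_apply, Matrix.smul_apply, smul_eq_mul, map_add, map_mul,
        map_sub, hrι, Matrix.sub_apply]
    rw [h1, Frame.EG_val, Frame.tn_eq, Frame.tn_eq, ← Frame.cb_sub, ← Frame.cb_smul,
      ← Frame.cb_one, ← Frame.cb_add]
    congr 1
    ext k l
    simp only [frame_m, frame_μ, frame_ν, Matrix.add_apply, Matrix.sub_apply, Matrix.smul_apply,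
      Frame.En, of_apply]
    fin_cases k <;> fin_cases l <;> simp [Am, Em] <;> try field_simp
  · have e1 : (tK J (V.w 3) (V.w 4)).map (G.c.trans G.σ) = tK J (V.w 4) (V.w 2) := by
      rw [tK_map]
      congr 1
      · funext i
        change G.σ (G.c (G.c (G.σ (V.o i)))) = G.c (V.o i)
        rw [G.cc, hcyc]
      · funext i
        change G.σ (G.c (G.c (V.o i))) = G.σ (V.o i)
        rw [G.cc]
    have e2 : (tK J (V.w 4) (V.w 3)).map (G.c.trans G.σ) = tK J (V.w 2) (V.w 4) := by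
      rw [tK_map]
      congr 1
      · funext i
        change G.σ (G.c (G.c (V.o i))) = G.σ (V.o i)
        rw [G.cc]
      · funext i
        change G.σ (G.c (G.c (G.σ (V.o i)))) = G.c (V.o i)
        rw [G.cc, hcyc]
    have h1 : (((1 + (algebraMap ℚ K r) • (tK J (V.w 3) (V.w 4) -
        tK J (V.w 4) (V.w 3))).map (G.c.trans G.σ)).map G.ι) =
        1 + (r : ℂ) • (V.frame.tn 4 2 - V.frame.tn 2 4) := by
      rw [← V.map_tK, ← V.map_tK, ← e1, ← e2]
      ext i j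
      simp only [map_apply, ι_one, τ_one, Matrix.add_apply, Matrix.smul_apply, smul_eq_mul, map_add, map_mul,
        map_sub, AlgEquiv.commutes, hrι, Matrix.sub_apply]
    rw [h1, Frame.EG_val, Frame.tn_eq, Frame.tn_eq, ← Frame.cb_sub, ← Frame.cb_smul,
      ← Frame.cb_one, ← Frame.cb_add]
    congr 1
    ext k l
    simp only [frame_m, frame_μ, frame_ν, Matrix.add_apply, Matrix.sub_apply, Matrix.smul_apply,
      Frame.En, of_apply]
    fin_cases k <;> fin_cases l <;> simp [Am, Em] <;> try field_simp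

theorem EG_a_conj {H : Subgroup GL5} (hH : IsQSubgroup H)
    (r : ℚ) (h : V.frame.EG (r * G.ι V.μ) 0 0 ∈ H) : V.frame.BG r ∈ H := by
  have hμ := V.frame.hμ
  have hν := V.frame.hν
  rw [frame_μ] at hμ
  rw [frame_ν] at hν
  have hrι : G.ι (algebraMap ℚ K r) = (r : ℂ) := AlgHom.commutes _ _
  obtain ⟨m₀, hm₀⟩ := V.m_rat
  have hmι : G.ι V.m = (m₀ : ℂ) := by
    rw [hm₀]
    exact AlgHom.commutes _ _
  refine mem_gal G.ι hH (1 + (algebraMap ℚ K r) • (tK J (V.w 0) (V.w 4) - tK J (V.w 4) (V.w 0)) -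
    (algebraMap ℚ K (r ^ 2 * m₀ / 2)) • tK J (V.w 4) (V.w 4)) (G.c.trans G.σ) _ _ ?_ ?_ h
  · have h1 : ((1 + (algebraMap ℚ K r) • (tK J (V.w 0) (V.w 4) - tK J (V.w 4) (V.w 0)) -
        (algebraMap ℚ K (r ^ 2 * m₀ / 2)) • tK J (V.w 4) (V.w 4)).map G.ι) =
        1 + (r : ℂ) • (V.frame.tn 0 4 - V.frame.tn 4 0) -
        ((r : ℂ) ^ 2 * m₀ / 2) • V.frame.tn 4 4 := by
      have hr2 : G.ι (algebraMap ℚ K (r ^ 2 * m₀ / 2)) = ((r : ℂ) ^ 2 * m₀ / 2) := by
        rw [AlgHom.commutes]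
        simp
      rw [← V.map_tK, ← V.map_tK, ← V.map_tK]
      ext i j
      simp only [map_apply, ι_one, τ_one, Matrix.add_apply, Matrix.smul_apply, smul_eq_mul, map_add, map_mul,
        map_sub, hrι, hr2, Matrix.sub_apply]
    rw [h1, Frame.EG_val, Frame.tn_eq, Frame.tn_eq, Frame.tn_eq, ← Frame.cb_sub, ← Frame.cb_smul,
      ← Frame.cb_smul, ← Frame.cb_one, ← Frame.cb_add, ← Frame.cb_sub]
    congr 1
    ext k l
    simp only [frame_m, frame_μ, frame_ν, hmι, Matrix.add_apply, Matrix.sub_apply,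
      Matrix.smul_apply, Frame.En, of_apply]
    fin_cases k <;> fin_cases l <;> simp [Am, Em] <;> try field_simp
  · have e1 : (tK J (V.w 0) (V.w 4)).map (G.c.trans G.σ) = tK J (V.w 0) (V.w 2) := by
      rw [tK_map]
      congr 1
      · funext i
        exact AlgEquiv.commutes _ _
      · funext i
        change G.σ (G.c (G.c (V.o i))) = G.σ (V.o i)
        rw [G.cc]
    have e2 : (tK J (V.w 4) (V.w 0)).map (G.c.trans G.σ) = tK J (V.w 2) (V.w 0) := by
      rw [tK_map]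
      congr 1
      · funext i
        change G.σ (G.c (G.c (V.o i))) = G.σ (V.o i)
        rw [G.cc]
      · funext i
        exact AlgEquiv.commutes _ _
    have e3 : (tK J (V.w 4) (V.w 4)).map (G.c.trans G.σ) = tK J (V.w 2) (V.w 2) := by
      rw [tK_map]
      congr 1
      · funext i
        change G.σ (G.c (G.c (V.o i))) = G.σ (V.o i)
        rw [G.cc]
      · funext i
        change G.σ (G.c (G.c (V.o i))) = G.σ (V.o i)
        rw [G.cc]
    have h1 : (((1 + (algebraMap ℚ K r) • (tK J (V.w 0) (V.w 4) - tK J (V.w 4) (V.w 0)) -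
        (algebraMap ℚ K (r ^ 2 * m₀ / 2)) • tK J (V.w 4) (V.w 4)).map (G.c.trans G.σ)).map G.ι) =
        1 + (r : ℂ) • (V.frame.tn 0 2 - V.frame.tn 2 0) -
        ((r : ℂ) ^ 2 * m₀ / 2) • V.frame.tn 2 2 := by
      have hr2 : G.ι (algebraMap ℚ K (r ^ 2 * m₀ / 2)) = ((r : ℂ) ^ 2 * m₀ / 2) := by
        rw [AlgHom.commutes]
        simp
      rw [← V.map_tK, ← V.map_tK, ← V.map_tK, ← e1, ← e2, ← e3]
      ext i j
      simp only [map_apply, ι_one, τ_one, Matrix.add_apply, Matrix.smul_apply, smul_eq_mul, map_add, map_mul,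
        map_sub, AlgEquiv.commutes, hrι, hr2, Matrix.sub_apply]
    rw [h1, Frame.BG_val, Frame.tn_eq, Frame.tn_eq, Frame.tn_eq, ← Frame.cb_sub, ← Frame.cb_smul,
      ← Frame.cb_smul, ← Frame.cb_one, ← Frame.cb_add, ← Frame.cb_sub]
    congr 1
    ext k l
    simp only [frame_m, frame_μ, frame_ν, hmι, Matrix.add_apply, Matrix.sub_apply,
      Matrix.smul_apply, Frame.En, of_apply]
    fin_cases k <;> fin_cases l <;> simp [Am, Frame.Bm] <;> try ring

end VecDat

end Pool.Agent.Y973.HS
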