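import Pool.Agent.Y973.HS.Fld

/-!
# A special point with a quartic Galois field of definition has orthogonal conjugates
-/

set_option autoImplicit false

namespace Pool.Agent.Y973.HS

open Matrix
open Pool.Agent.H320R4.HS (Mat Vec GL5 toC form SO cone hodge HodgeIn IsQSubgroup MT IsTorus
  IsMaximalTorus tangent tangentOf IsHarishChandra Qbar IsStructure StabStable IsRational fam
  mem_of_infinite infinite_rat infinite_circle lam XM cM evG evG_apply evG_X evG_XT evG_c
  exp_nil torus_comm Signature32 hodge_smul_mat toC_mul toC_one)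

section pair

variable {J : Matrix (Fin 5) (Fin 5) ℚ}

theorem form_comm (hJ : J.IsSymm) (x y : Vec) : form J x y = form J y x := by
  have h : (toC J)ᵀ = toC J := by
    unfold toC
    rw [← transpose_map, hJ.eq]
  unfold form
  rw [dotProduct_mulVec, dotProduct_comm, ← mulVec_transpose, h]

theorem form_add_right (x y y' : Vec) : form J x (y + y') = form J x y + form J x y' := by
  unfold form
  rw [mulVec_add, dotProduct_add]

theorem form_smul_right (a : ℂ) (x y : Vec) : form J x (a • y) = a * form J x y := by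
  unfold form
  rw [mulVec_smul, dotProduct_smul, smul_eq_mul]

/-- The matrix which is `l` on `a`, `l⁻¹` on `a'` and `1` on the orthogonal complement. -/
noncomputable def EM (J : Matrix (Fin 5) (Fin 5) ℚ) (a a' : Vec) (l : ℂ) : Mat :=
  1 + ((l - 1) / form J a a') • vecMulVec a (toC J *ᵥ a') +
    ((l⁻¹ - 1) / form J a a') • vecMulVec a' (toC J *ᵥ a)

theorem EM_mulVec (hJ : J.IsSymm) (a a' x : Vec) (l : ℂ) : EM J a a' l *ᵥ x =
    x + ((l - 1) / form J a a' * form J a' x) • a +
      ((l⁻¹ - 1) / form J a a' * form J a x) • a' := by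
  have h : ∀ a' : Vec, (toC J *ᵥ a') ⬝ᵥ x = form J a' x := by
    intro a'
    rw [form_comm hJ]
    unfold form
    rw [dotProduct_comm]
  unfold EM
  rw [add_mulVec, add_mulVec, one_mulVec, smul_mulVec, smul_mulVec, vecMulVec_mulVec,
    vecMulVec_mulVec, h, h]
  funext i
  simp
  ring

theorem EM_mul (hJ : J.IsSymm) {a a' : Vec} (h1 : form J a a = 0) (h2 : form J a' a' = 0)
    (h3 : form J a a' ≠ 0) (l l' : ℂ) (hl : l ≠ 0) (hl' : l' ≠ 0) :
    EM J a a' l * EM J a a' l' = EM J a a' (l * l') := by
  have h : ∀ x y : Vec, (toC J *ᵥ x) ⬝ᵥ y = form J x y := by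
    intro x y
    rw [form_comm hJ]
    unfold form
    rw [dotProduct_comm]
  have h4 : form J a' a = form J a a' := form_comm hJ _ _
  have m1 : vecMulVec a (toC J *ᵥ a') * vecMulVec a (toC J *ᵥ a') =
      form J a a' • vecMulVec a (toC J *ᵥ a') := by
    rw [vecMulVec_mul_vecMulVec, h, h4]
    ext i j
    simp [vecMulVec_apply]
    ring
  have m2 : vecMulVec a' (toC J *ᵥ a) * vecMulVec a' (toC J *ᵥ a) =
      form J a a' • vecMulVec a' (toC J *ᵥ a) := by
    rw [vecMulVec_mul_vecMulVec, h]
    ext i j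
    simp [vecMulVec_apply]
    ring
  have m3 : vecMulVec a (toC J *ᵥ a') * vecMulVec a' (toC J *ᵥ a) = 0 := by
    rw [vecMulVec_mul_vecMulVec, h, h2]
    ext i j
    simp [vecMulVec_apply]
  have m4 : vecMulVec a' (toC J *ᵥ a) * vecMulVec a (toC J *ᵥ a') = 0 := by
    rw [vecMulVec_mul_vecMulVec, h, h1]
    ext i j
    simp [vecMulVec_apply]
  unfold EM
  generalize vecMulVec a (toC J *ᵥ a') = A at *
  generalize vecMulVec a' (toC J *ᵥ a) = B at *
  generalize form J a a' = μ at *
  have e : ∀ x y x' y' : ℂ, (1 + x • A + y • B) * (1 + x' • A + y' • B) =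
      1 + (x + x' + x * x' * μ) • A + (y + y' + y * y' * μ) • B := by
    intro x y x' y'
    simp only [Matrix.mul_add, Matrix.add_mul, Matrix.smul_mul, Matrix.mul_smul, Matrix.one_mul,
      Matrix.mul_one, m1, m2, m3, m4, smul_zero, add_zero, zero_add, smul_smul]
    module
  rw [e]
  congr 2
  · congr 1
    congr 1
    field_simp
    ring
  · field_simp
    ring

theorem EM_one (a a' : Vec) : EM J a a' 1 = 1 := by
  unfold EM
  simp

/-- The same as an element of `GL₅(ℂ)`. -/
noncomputable def EU (hJ : J.IsSymm) {a a' : Vec} (h1 : form J a a = 0) (h2 : form J a' a' = 0)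
    (h3 : form J a a' ≠ 0) (l : ℂˣ) : GL5 :=
  ⟨EM J a a' l, EM J a a' (l : ℂ)⁻¹, by
    rw [EM_mul hJ h1 h2 h3 _ _ l.ne_zero (inv_ne_zero l.ne_zero), mul_inv_cancel₀ l.ne_zero,
      EM_one], by
    rw [EM_mul hJ h1 h2 h3 _ _ (inv_ne_zero l.ne_zero) l.ne_zero, inv_mul_cancel₀ l.ne_zero,
      EM_one]⟩

theorem eigen_of_comm (hJ : J.IsSymm) {a a' b b' : Vec} (h1 : form J a a = 0)
    (h3 : form J a a' ≠ 0) (g1 : form J b b = 0)
    (g2 : form J b' b' = 0) (g3 : form J b b' ≠ 0)
    (hcomm : EM J a a' 2 * EM J b b' 2 = EM J b b' 2 * EM J a a' 2) (hab : form J b a ≠ 0) :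
    a = (form J b a / form J b b') • b' := by
  have h4 : form J a' a = form J a a' := form_comm hJ _ _
  have g4 : form J b' b = form J b b' := form_comm hJ _ _
  have e1 : EM J a a' 2 *ᵥ a = (2 : ℂ) • a := by
    rw [EM_mulVec hJ, h1, h4]
    funext i
    simp
    field_simp
    ring
  set y : Vec := EM J b b' 2 *ᵥ a with hy
  have e2 : EM J a a' 2 *ᵥ y = (2 : ℂ) • y := by
    rw [hy, mulVec_mulVec, hcomm, ← mulVec_mulVec, e1, mulVec_smul]
  have e3 : form J a y = 0 := by
    have h5 := congrArg (fun v => form J a v) e2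
    simp only [EM_mulVec hJ, form_add_right, form_smul_right, h1] at h5
    have h6 : (2⁻¹ - 1) / form J a a' * form J a y * form J a a' = -(1 / 2) * form J a y := by
      field_simp
      ring
    rw [h6] at h5
    linear_combination (-2 / 3 : ℂ) * h5
  have e4 : y = (1 / form J a a' * form J a' y) • a := by
    have h5 := e2
    rw [EM_mulVec hJ, e3] at h5
    funext i
    have h6 := congrFun h5 i
    simp at h6
    simp
    linear_combination -h6
  set κ := 1 / form J a a' * form J a' y with hκ
  have e5 : y = a + ((2 - 1) / form J b b' * form J b' a) • b +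
      ((2⁻¹ - 1) / form J b b' * form J b a) • b' := by
    rw [hy, EM_mulVec hJ]
  have e6 : κ = 1 / 2 := by
    have h5 := congrArg (fun v => form J b v) e5
    rw [e4] at h5
    simp only [form_add_right, form_smul_right, g1] at h5
    have h6 : (2⁻¹ - 1) / form J b b' * form J b a * form J b b' = -(1 / 2) * form J b a := by
      field_simp
      ring
    rw [h6] at h5
    apply mul_right_cancel₀ hab
    linear_combination h5
  have e7 : form J b' a = 0 := by
    have h5 := congrArg (fun v => form J b' v) e5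
    rw [e4, e6] at h5
    simp only [form_add_right, form_smul_right, g2, g4] at h5
    have h6 : (2 - 1) / form J b b' * form J b' a * form J b b' = form J b' a := by
      field_simp
      ring
    rw [h6] at h5
    linear_combination (-2 / 3 : ℂ) * h5
  rw [e4, e6, e7] at e5
  funext i
  have h6 := congrFun e5 i
  simp at h6
  simp
  linear_combination -2 * h6

/-- The powers of the cocharacter of `h_o`. -/
theorem EU_mem {H : Subgroup GL5} (hH : IsQSubgroup H) {o : Vec} (hJ : J.IsSymm)
    (h1 : form J o o = 0) (h2 : form J (star o) (star o) = 0) (h3 : form J o (star o) ≠ 0)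
    (hh : HodgeIn J o H) (l : ℂˣ) : EU hJ h1 h2 h3 l ∈ H := by
  refine mem_of_infinite hH ![1 - (1 / form J o (star o)) • vecMulVec o (toC J *ᵥ star o) -
    (1 / form J o (star o)) • vecMulVec (star o) (toC J *ᵥ o),
    (1 / form J o (star o)) • vecMulVec o (toC J *ᵥ star o),
    (1 / form J o (star o)) • vecMulVec (star o) (toC J *ᵥ o)] ![0, 1, -1]
    (fun l => EU hJ h1 h2 h3 l) ?_ _ infinite_circle ?_ l
  · intro x
    change EM J o (star o) x = _
    simp only [fam, Fin.sum_univ_three, EM]
    simp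
    ext i j
    simp
    ring
  · rintro x ⟨z, hz, hx⟩
    obtain ⟨g, hg, hg'⟩ := hh z hz
    have : g = EU hJ h1 h2 h3 x := by
      apply Units.ext
      rw [hg']
      change _ = EM J o (star o) x
      unfold hodge EM
      rw [hx, inv_div]
    rw [← this]
    exact hg

end pair

section gal

variable {K : Type} [Field K] [Algebra ℚ K]

theorem orth_of_torus (G : GalDat K) {J : Matrix (Fin 5) (Fin 5) ℚ} (hJ : J.IsSymm)
    (o : Fin 5 → K) (hcone : (fun i => G.ι (o i)) ∈ cone J)
    (hT : IsTorus (MT J (fun i => G.ι (o i)))) (τ : K ≃ₐ[ℚ] K) (hne : formK J o (fun i => τ (o i)) ≠ 0) :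
    ∃ k : K, k ≠ 0 ∧ ∀ i, o i = k * τ (G.c (o i)) := by
  have := VecDat.charZ G
  set oC : Vec := fun i => G.ι (o i) with hoC
  have hstar : star oC = fun i => G.ι (G.c (o i)) := by
    funext i
    exact (G.hc _).symm
  have f1 : form J oC oC = 0 := hcone.1
  have f3 : form J oC (star oC) ≠ 0 := by
    intro h
    have := hcone.2
    rw [h] at this
    simp at this
  have oo : formK J o o = 0 := by
    have : G.ι (formK J o o) = 0 := by rw [formK_ι]; exact f1
    exact (map_eq_zero G.ι).1 this
  have cco : formK J (fun i => G.c (o i)) (fun i => G.c (o i)) = 0 := by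
    rw [← formK_map, oo, map_zero]
  have f2 : form J (star oC) (star oC) = 0 := by
    rw [hstar, ← formK_ι, cco, map_zero]
  set μ := formK J o (fun i => G.c (o i)) with hμ
  have hμι : G.ι μ = form J oC (star oC) := by rw [hμ, formK_ι, hstar]
  have hμ0 : μ ≠ 0 := by
    intro h
    apply f3
    rw [← hμι, h, map_zero]
  -- the conjugates
  set b : Vec := fun i => G.ι (τ (o i)) with hb
  set b' : Vec := fun i => G.ι (τ (G.c (o i))) with hb'
  have g1 : form J b b = 0 := by
    rw [hb, ← formK_ι, ← formK_map, oo, map_zero, map_zero]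
  have g2 : form J b' b' = 0 := by
    have : formK J (fun i => τ (G.c (o i))) (fun i => τ (G.c (o i))) = 0 := by
      have := formK_map (J := J) τ (fun i => G.c (o i)) (fun i => G.c (o i))
      rw [← this, cco, map_zero]
    rw [hb', ← formK_ι, this, map_zero]
  have gμ : form J b b' = G.ι (τ μ) := by
    rw [hb, hb', ← formK_ι, hμ, formK_map]
  have g3 : form J b b' ≠ 0 := by
    rw [gμ]
    exact (map_ne_zero G.ι).2 ((map_ne_zero τ).2 hμ0)
  have h2u : (2 : ℂ) ≠ 0 := two_ne_zero
  -- both lie in the Mumford-Tate group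
  have m1 : EU hJ f1 f2 f3 (Units.mk0 2 h2u) ∈ MT J oC := by
    refine Subgroup.mem_sInf.2 fun H hH => EU_mem hH.1 hJ f1 f2 f3 hH.2.2 _
  have m2 : EU hJ g1 g2 g3 (Units.mk0 2 h2u) ∈ MT J oC := by
    refine Subgroup.mem_sInf.2 fun H hH => ?_
    have h5 := EU_mem hH.1 hJ f1 f2 f3 hH.2.2 (Units.mk0 2 h2u)
    refine mem_gal G.ι hH.1 (1 + ((2 - 1) / μ) • tK J o (fun i => G.c (o i)) +
      ((2⁻¹ - 1) / μ) • tK J (fun i => G.c (o i)) o) τ _ _ ?_ ?_ h5
    · change EM J oC (star oC) 2 = _
      have e2 : G.ι 2 = 2 := map_ofNat _ _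
      have t1 := tK_ι (J := J) G.ι o (fun i => G.c (o i))
      have t2 := tK_ι (J := J) G.ι (fun i => G.c (o i)) o
      rw [← hstar] at t1 t2
      unfold EM
      rw [← t1, ← t2, ← hμι]
      ext i j
      simp only [map_apply, VecDat.ι_one, Matrix.add_apply, Matrix.smul_apply, smul_eq_mul,
        map_add, map_mul, map_div₀, map_sub, map_one, map_inv₀, e2]
    · change EM J b b' 2 = _
      have e2 : G.ι 2 = 2 := map_ofNat _ _
      have e3 : τ 2 = 2 := map_ofNat _ _
      have t1 := tK_ι (J := J) G.ι (fun i => τ (o i)) (fun i => τ (G.c (o i)))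
      have t2 := tK_ι (J := J) G.ι (fun i => τ (G.c (o i))) (fun i => τ (o i))
      rw [← tK_map (J := J) τ o (fun i => G.c (o i))] at t1
      rw [← tK_map (J := J) τ (fun i => G.c (o i)) o] at t2
      unfold EM
      rw [hb, hb', ← t1, ← t2, ← hb, ← hb', gμ]
      ext i j
      simp only [map_apply, VecDat.ι_one, VecDat.τ_one, Matrix.add_apply, Matrix.smul_apply,
        smul_eq_mul, map_add, map_mul, map_div₀, map_sub, map_one, map_inv₀, e2, e3]
  have hcomm := congrArg Units.val (torus_comm hT m1 m2)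
  rw [Units.val_mul, Units.val_mul] at hcomm
  have hba : form J b oC ≠ 0 := by
    rw [form_comm hJ, hb, hoC, ← formK_ι]
    exact (map_ne_zero G.ι).2 hne
  have h6 := eigen_of_comm hJ f1 f3 g1 g2 g3 hcomm hba
  refine ⟨formK J (fun i => τ (o i)) o / τ μ, ?_, fun i => ?_⟩
  · refine div_ne_zero ?_ ((map_ne_zero τ).2 hμ0)
    rw [formK_comm hJ]
    exact hne
  · have h7 := congrFun h6 i
    apply G.ι.toRingHom.injective
    change G.ι _ = G.ι _
    rw [map_mul, map_div₀, formK_ι]
    rw [gμ] at h7
    exact h7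

end gal

end Pool.Agent.Y973.HS
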