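import Pool.Agent.Y973.HS.Mt
import Pool.Agent.H320R4.HS.Special

/-!
# The groups whose orbit at `o` is tangent to the plane, and the rationality of the plane
-/

set_option autoImplicit false

namespace Pool.Agent.Y973.HS

open Matrix
open Pool.Agent.H320R4.HS (Mat Vec GL5 toC form SO cone hodge HodgeIn IsQSubgroup MT IsTorus
  IsMaximalTorus tangent tangentOf IsHarishChandra Qbar IsStructure StabStable IsRational fam
  mem_of_infinite infinite_rat infinite_circle lam XM cM evG evG_apply evG_X evG_XT evG_c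
  exp_nil torus_comm Signature32 hodge_smul_mat toC_mul toC_one)

namespace Frame

variable {J : Matrix (Fin 5) (Fin 5) ℚ} (D : Frame J)

/-- The matrices of the family `EG 0 x 0`. -/
noncomputable def Bf : Fin 2 → Mat := ![1, D.Yo 0 1 0]

theorem EG_b_fam (b : ℂ) (x : ℂˣ) :
    (D.EG 0 (x * b) 0 : Mat) = fam ![1, D.Yo 0 b 0] ![0, 1] x := by
  have h : (D.EG 0 (x * b) 0 : Mat) = 1 + (x : ℂ) • D.Yo 0 b 0 := by
    rw [EG_val, Yo_smul, Yo, ← D.cb_one, ← cb_add]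
    congr 1
    ext i j
    fin_cases i <;> fin_cases j <;> simp [Em, Ny]
  rw [h]
  simp [fam, Fin.sum_univ_two]

theorem BG_fam (x : ℂˣ) : (D.BG x : Mat) = fam ![1, D.cb !![0, 0, 0, D.ν, 0; 0, 0, 0, 0, 0;
    -D.m, 0, 0, 0, 0; 0, 0, 0, 0, 0; 0, 0, 0, 0, 0], D.cb !![0, 0, 0, 0, 0; 0, 0, 0, 0, 0;
    0, 0, 0, -(D.m * D.ν / 2), 0; 0, 0, 0, 0, 0; 0, 0, 0, 0, 0]] ![0, 1, 2] x := by
  have h : Bm D.m D.ν x = 1 + (x : ℂ) • !![0, 0, 0, D.ν, 0; 0, 0, 0, 0, 0;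
      -D.m, 0, 0, 0, 0; 0, 0, 0, 0, 0; 0, 0, 0, 0, 0] +
      ((x : ℂ) ^ 2) • !![0, 0, 0, 0, 0; 0, 0, 0, 0, 0;
      0, 0, 0, -(D.m * D.ν / 2), 0; 0, 0, 0, 0, 0; 0, 0, 0, 0, 0] := by
    ext i j
    rw [Matrix.add_apply, Matrix.add_apply, Matrix.smul_apply, Matrix.smul_apply]
    fin_cases i <;> fin_cases j <;> simp [Bm] <;> ring
  rw [BG_val, h, cb_add, cb_add, cb_smul, cb_smul, cb_one]
  simp only [fam, Fin.sum_univ_three]
  simp

end Frame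

namespace VecDat

variable {K : Type} [Field K] [Algebra ℚ K] {G : GalDat K} {J : Matrix (Fin 5) (Fin 5) ℚ}
  (V : VecDat G J)

theorem b_of_c (hcyc : ∀ x, G.σ (G.σ x) = G.c x) {H : Subgroup GL5} (hH : IsQSubgroup H)
    (h : ∀ s, V.frame.EG 0 0 s ∈ H) (s : ℂ) : V.frame.EG 0 s 0 ∈ H := by
  have hq := V.frame.hμ
  rw [frame_μ] at hq
  have h1 : ∀ x : ℂˣ, V.frame.EG 0 (x * -G.ι V.μ) 0 ∈ H := by
    refine mem_of_infinite hH _ _ (fun x : ℂˣ => V.frame.EG 0 (x * -G.ι V.μ) 0)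
      (V.frame.EG_b_fam (-G.ι V.μ)) _ infinite_rat ?_
    rintro x ⟨r, hr, hx⟩
    rw [hx]
    have := V.EG_c_conj hcyc hH r (h _)
    convert this using 2
    ring
  by_cases hs : s = 0
  · rw [hs, Frame.EG_zero]
    exact H.one_mem
  · have := h1 (Units.mk0 (s / -G.ι V.μ) (div_ne_zero hs (neg_ne_zero.2 hq)))
    rw [Units.val_mk0, div_mul_cancel₀ _ (neg_ne_zero.2 hq)] at this
    exact this

theorem b_of_a {H : Subgroup GL5} (hH : IsQSubgroup H)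
    (h : ∀ s, V.frame.EG s 0 0 ∈ H) (s : ℂ) : V.frame.EG 0 s 0 ∈ H := by
  have hq := V.frame.hμ
  have hq0 := V.frame.hm
  have h1 : ∀ x : ℂˣ, V.frame.BG x ∈ H := by
    refine mem_of_infinite hH _ _ (fun x : ℂˣ => V.frame.BG x) V.frame.BG_fam _ infinite_rat ?_
    rintro x ⟨r, hr, hx⟩
    rw [hx]
    exact V.EG_a_conj hH r (h _)
  by_cases hs : s = 0
  · rw [hs, Frame.EG_zero]
    exact H.one_mem
  · have hqq : V.frame.m * V.frame.μ ≠ 0 := mul_ne_zero hq0 hq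
    have h2 := h1 (Units.mk0 (s / (V.frame.m * V.frame.μ)) (div_ne_zero hs hqq))
    rw [Units.val_mk0] at h2
    have h3 := V.frame.BG_comm (s / (V.frame.m * V.frame.μ))
    rw [div_mul_cancel₀ _ hqq] at h3
    rw [eq_mul_inv_iff_mul_eq.2 h3.symm]
    exact H.mul_mem (H.mul_mem (h _) h2) (H.inv_mem (H.mul_mem h2 (h _)))

theorem split_tangent {H : Subgroup GL5} (hH : IsQSubgroup H) (hh : HodgeIn J V.frame.o H)
    {a c : ℂ} (hY : V.frame.Yo a 0 c ∈ tangentOf J V.frame.o H) (s : ℂ) :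
    V.frame.EG (s * a) 0 0 ∈ H ∧ V.frame.EG 0 0 (s * c) ∈ H := by
  have hT := V.Tor_le hH hh
  rw [Frame.mem_tangentOf] at hY
  simp only [mul_zero] at hY
  have h2 : (2 : ℂ) ≠ 0 := two_ne_zero
  have key : ∀ s : ℂ, V.frame.EG 0 0 (s * c) ∈ H := by
    intro s
    have h3 := hY (2 * s)
    have h4 : V.frame.Tel 1 (Units.mk0 2 h2) * V.frame.EG (2 * s * a) 0 (2 * s * c) *
        (V.frame.Tel 1 (Units.mk0 2 h2))⁻¹ ∈ H :=
      H.mul_mem (H.mul_mem (hT ⟨_, _, rfl⟩) h3) (H.inv_mem (hT ⟨_, _, rfl⟩))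
    rw [Frame.Tel_conj] at h4
    have h5 := H.mul_mem h3 (H.inv_mem h4)
    rw [Frame.EG_inv, Frame.EG_mul] at h5
    convert h5 using 2
    · simp
    · simp
    · simp
      ring
  refine ⟨?_, key s⟩
  have h6 := H.mul_mem (hY s) (H.inv_mem (key s))
  rw [Frame.EG_inv, Frame.EG_mul] at h6
  convert h6 using 2
  · simp
  · simp
  · simp

theorem not_b {H : Subgroup GL5} (hV : tangentOf J V.frame.o H ⊆ V.frame.Vp) :
    ¬ ∀ s, V.frame.EG 0 s 0 ∈ H := by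
  intro h
  have h1 : V.frame.Yo 0 1 0 ∈ tangentOf J V.frame.o H := by
    rw [Frame.mem_tangentOf]
    intro s
    have := h s
    simpa using this
  obtain ⟨a, c, h2⟩ := V.frame.mem_Vp.1 (hV h1)
  exact one_ne_zero (V.frame.Yo_inj h2).2.1

/-- A group whose orbit is tangent to the plane is tangent to the line of `o₃`. -/
theorem tangent_a {H : Subgroup GL5} (hH : IsQSubgroup H) (hh : HodgeIn J V.frame.o H)
    (hV : tangentOf J V.frame.o H ⊆ V.frame.Vp) {a b c : ℂ}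
    (hY : V.frame.Yo a b c ∈ tangentOf J V.frame.o H) : a = 0 := by
  obtain ⟨a', c', h1⟩ := V.frame.mem_Vp.1 (hV hY)
  have h2 := (V.frame.Yo_inj h1).2.1
  subst h2
  by_contra ha
  apply V.not_b hV
  apply V.b_of_a hH
  intro s
  have h3 := (V.split_tangent hH hh hY (s / a)).1
  rwa [div_mul_cancel₀ _ ha] at h3

theorem tangent_cyc (hcyc : ∀ x, G.σ (G.σ x) = G.c x) {H : Subgroup GL5} (hH : IsQSubgroup H)
    (hh : HodgeIn J V.frame.o H) (hV : tangentOf J V.frame.o H ⊆ V.frame.Vp) :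
    tangentOf J V.frame.o H ⊆ {0} := by
  intro Y hY
  obtain ⟨a, c, rfl⟩ := V.frame.mem_Vp.1 (hV hY)
  have ha := V.tangent_a hH hh hV hY
  subst ha
  have hc : c = 0 := by
    by_contra hc
    apply V.not_b hV
    apply V.b_of_c hcyc hH
    intro s
    have h3 := (V.split_tangent hH hh hY (s / c)).2
    rwa [div_mul_cancel₀ _ hc] at h3
  subst hc
  exact V.frame.Yo_zero

/-! ### the rational element of the torus -/

theorem ξ_ne : G.ξ ≠ 0 := by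
  intro h
  have := G.hξ
  rw [h, zero_mul] at this
  exact zero_ne_one this

/-- The element as a unit. -/
noncomputable def xu (G : GalDat K) : ℂˣ := Units.mk0 (G.ι G.ξ) ((map_ne_zero G.ι).2 ξ_ne)

/-- Its conjugate. -/
noncomputable def yu (G : GalDat K) : ℂˣ :=
  Units.mk0 (G.ι (G.σ G.ξ)) ((map_ne_zero G.ι).2 ((map_ne_zero G.σ).2 ξ_ne))

theorem rat_Tel : ∃ R : Matrix (Fin 5) (Fin 5) ℚ,
    (V.frame.Tel (xu G) (yu G) : Mat) = toC R := by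
  obtain ⟨R, hR⟩ := V.rat_diag (G.ξ - 1)
  refine ⟨1 + R, ?_⟩
  have h1 : toC (1 + R) = 1 + toC R := by
    ext i j
    simp only [toC, map_apply, Matrix.add_apply, Rat.cast_add, one_apply]
    split_ifs <;> simp
  rw [h1, hR, Frame.Tel_val, ← V.frame.cb_one, ← V.frame.cb_add]
  congr 1
  have hc : G.c G.ξ = G.ξ⁻¹ := eq_inv_of_mul_eq_one_right G.hξ
  have hcs : G.c (G.σ G.ξ) = (G.σ G.ξ)⁻¹ := by
    rw [← G.comm, hc, map_inv₀]
  ext k l
  by_cases hkl : k = l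
  · subst hkl
    fin_cases k <;> simp [xu, yu, hc, hcs]
  · rw [Matrix.add_apply, diagonal_apply_ne _ hkl, diagonal_apply_ne _ hkl, one_apply_ne hkl]
    simp

theorem Tel_o (x y : ℂˣ) : (V.frame.Tel x y : Mat) *ᵥ V.frame.o = (x : ℂ) • V.frame.o := by
  have h2 : V.frame.o = V.frame.P *ᵥ (Pi.single 1 1) := by
    funext k; simp [Frame.o]
  rw [Frame.Tel_val, h2, Frame.cb, mulVec_mulVec, Matrix.mul_assoc, V.frame.QP, Matrix.mul_one,
    ← mulVec_mulVec, ← mulVec_smul]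
  congr 1
  funext k
  fin_cases k <;> simp [mulVec, dotProduct, Fin.sum_univ_five, diagonal]

theorem ι_mem [Algebra.IsAlgebraic ℚ K] (x : K) : G.ι x ∈ Qbar := by
  rw [mem_algebraicClosure_iff]
  exact (Algebra.IsAlgebraic.isAlgebraic (R := ℚ) x).algHom G.ι

/-- The projection. -/
noncomputable def Φ : Mat →ₗ[ℂ] Mat where
  toFun Y := (V.frame.Tel (xu G) (yu G) : Mat) * Y *
    (((V.frame.Tel (xu G) (yu G))⁻¹ : GL5) : Mat) - (G.ι (G.σ G.ξ / G.ξ)) • Y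
  map_add' := by
    intro Y Y'
    rw [Matrix.mul_add, Matrix.add_mul, smul_add]
    abel
  map_smul' := by
    intro c Y
    rw [Matrix.mul_smul, Matrix.smul_mul, RingHom.id_apply, smul_sub, smul_comm]

theorem Φ_apply (Y : Mat) : V.Φ Y =
    (V.frame.Tel (xu G) (yu G) : Mat) * Y * (((V.frame.Tel (xu G) (yu G))⁻¹ : GL5) : Mat) -
      (G.ι (G.σ G.ξ / G.ξ)) • Y := rfl

theorem Φ_Yo (a b c : ℂ) : V.Φ (V.frame.Yo a b c) =
    V.frame.Yo (a * ((1 - G.ι (G.σ G.ξ)) / G.ι G.ξ)) 0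
      (c * ((1 - G.ι (G.σ G.ξ) ^ 2) / (G.ι G.ξ * G.ι (G.σ G.ξ)))) := by
  have hx : G.ι G.ξ ≠ 0 := (map_ne_zero G.ι).2 ξ_ne
  have hy : G.ι (G.σ G.ξ) ≠ 0 := (map_ne_zero G.ι).2 ((map_ne_zero G.σ).2 ξ_ne)
  rw [Φ_apply, Frame.Tel_conj_Yo, Frame.Yo_smul]
  have h1 : ∀ a b c a' b' c', V.frame.Yo a b c - V.frame.Yo a' b' c' =
      V.frame.Yo (a - a') (b - b') (c - c') := by
    intro a b c a' b' c'
    have := V.frame.Yo_lin 1 a b c (-1) a' b' c'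
    simp only [one_smul, neg_smul, one_mul, neg_mul] at this
    rw [sub_eq_add_neg, this]
    simp only [sub_eq_add_neg]
  rw [h1, map_div₀]
  simp only [xu, yu, Units.val_mk0]
  congr 1
  · field_simp
  · field_simp
    ring
  · field_simp

theorem rational_Vp [Algebra.IsAlgebraic ℚ K] {L : Submodule Qbar Mat}
    (hL : IsStructure L (tangent J V.frame.o)) (hst : StabStable J V.frame.o L) :
    IsRational L V.frame.Vp := by
  have hx : G.ι G.ξ ≠ 0 := (map_ne_zero G.ι).2 ξ_ne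
  have hy : G.ι (G.σ G.ξ) ≠ 0 := (map_ne_zero G.ι).2 ((map_ne_zero G.σ).2 ξ_ne)
  have hsq : (1 - G.ι (G.σ G.ξ) ^ 2) ≠ 0 := by
    intro h
    have h1 : G.ι (G.σ (1 - G.ξ ^ 2)) = 0 := by
      simpa using h
    have h2 := (map_eq_zero G.σ).1 ((map_eq_zero G.ι).1 h1)
    exact G.hξ2 (sub_eq_zero.1 h2).symm
  have hs1 : (1 - G.ι (G.σ G.ξ)) ≠ 0 := by
    intro h
    apply hsq
    linear_combination (1 + G.ι (G.σ G.ξ)) * h
  have hΦ : ∀ Y ∈ L, V.Φ Y ∈ L := by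
    intro Y hY
    rw [Φ_apply]
    refine L.sub_mem ?_ ?_
    · exact hst _ (V.frame.Tel_mem_SO _ _) V.rat_Tel ⟨_, V.Tel_o _ _⟩ Y hY
    · exact L.smul_mem (⟨_, ι_mem (G := G) (G.σ G.ξ / G.ξ)⟩ : Qbar) hY
  unfold IsRational
  apply le_antisymm
  · exact Submodule.span_le.2 Set.inter_subset_left
  intro Y hY
  obtain ⟨a, c, rfl⟩ := V.frame.mem_Vp.1 hY
  obtain ⟨n, b, -, hs, hb⟩ := hL
  have hA : ((1 - G.ι (G.σ G.ξ)) / G.ι G.ξ) ≠ 0 := div_ne_zero hs1 hx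
  have hC : ((1 - G.ι (G.σ G.ξ) ^ 2) / (G.ι G.ξ * G.ι (G.σ G.ξ))) ≠ 0 :=
    div_ne_zero hsq (mul_ne_zero hx hy)
  have h1 : V.frame.Yo a 0 c = V.Φ (V.frame.Yo (a / ((1 - G.ι (G.σ G.ξ)) / G.ι G.ξ)) 0
      (c / ((1 - G.ι (G.σ G.ξ) ^ 2) / (G.ι G.ξ * G.ι (G.σ G.ξ))))) := by
    rw [Φ_Yo, div_mul_cancel₀ _ hA, div_mul_cancel₀ _ hC]
  have h2 : V.frame.Yo (a / ((1 - G.ι (G.σ G.ξ)) / G.ι G.ξ)) 0
      (c / ((1 - G.ι (G.σ G.ξ) ^ 2) / (G.ι G.ξ * G.ι (G.σ G.ξ)))) ∈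
      Submodule.span ℂ (Set.range b) := by
    rw [hs]
    exact V.frame.Yo_mem _ _ _
  have h3 := Submodule.mem_map_of_mem (f := V.Φ) h2
  rw [Submodule.map_span, ← h1] at h3
  refine Submodule.span_mono ?_ h3
  rintro _ ⟨_, ⟨i, rfl⟩, rfl⟩
  refine ⟨?_, ?_⟩
  · have h4 : b i ∈ tangent J V.frame.o := by
      rw [← hs]
      exact Submodule.subset_span ⟨i, rfl⟩
    obtain ⟨a', b', c', h5⟩ := V.frame.mem_tangent.1 h4
    rw [h5, Φ_Yo]
    exact V.frame.mem_Vp.2 ⟨_, _, rfl⟩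
  · refine hΦ _ ?_
    rw [← hb]
    exact Submodule.subset_span ⟨i, rfl⟩

end VecDat

end Pool.Agent.Y973.HS
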