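import Pool.Agent.Y973.HS.Pl

/-!
# A stable structure on the tangent space exists; invariance under scaling of `o`
-/

set_option autoImplicit false

namespace Pool.Agent.Y973.HS

open Matrix
open Pool.Agent.H320R4.HS (Mat Vec GL5 toC form SO cone hodge HodgeIn IsQSubgroup MT IsTorus
  IsMaximalTorus tangent tangentOf IsHarishChandra Qbar IsStructure StabStable IsRational fam
  mem_of_infinite infinite_rat infinite_circle lam XM cM evG evG_apply evG_X evG_XT evG_c
  exp_nil torus_comm Signature32 hodge_smul_mat toC_mul toC_one)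

section scaling

variable (J : Matrix (Fin 5) (Fin 5) ℚ) (o : Vec)

theorem hodge_smul {c : ℂ} (hc : c ≠ 0) (z : ℂ) : hodge J (c • o) z = hodge J o z := by
  have hs : star (c • o) = star c • star o := by rw [star_smul]
  have hc' : star c ≠ 0 := star_ne_zero.2 hc
  have hf : form J (c • o) (star c • star o) = c * star c * form J o (star o) := by
    unfold form
    rw [mulVec_smul, smul_dotProduct, dotProduct_smul, smul_eq_mul, smul_eq_mul, mul_assoc]
  unfold hodge
  rw [hs, hf]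
  by_cases hq : form J o (star o) = 0
  · rw [hq]
    simp
  congr 1
  · congr 1
    ext i j
    simp only [Matrix.smul_apply, vecMulVec_apply, mulVec_smul, Pi.smul_apply, smul_eq_mul]
    field_simp
  · ext i j
    simp only [Matrix.smul_apply, vecMulVec_apply, mulVec_smul, Pi.smul_apply, smul_eq_mul]
    field_simp

theorem hodgeIn_smul {c : ℂ} (hc : c ≠ 0) (H : Subgroup GL5) :
    HodgeIn J (c • o) H ↔ HodgeIn J o H := by
  unfold HodgeIn
  simp only [hodge_smul J o hc]

theorem MT_smul {c : ℂ} (hc : c ≠ 0) : MT J (c • o) = MT J o := by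
  unfold MT
  simp only [hodgeIn_smul J o hc]

theorem tangent_smul {c : ℂ} (hc : c ≠ 0) : tangent J (c • o) = tangent J o := by
  ext Y
  change _ ∧ _ ↔ _ ∧ _
  simp only [hodge_smul J o hc]

theorem tangentOf_smul {c : ℂ} (hc : c ≠ 0) (H : Subgroup GL5) :
    tangentOf J (c • o) H = tangentOf J o H := by
  unfold tangentOf
  rw [tangent_smul J o hc]

theorem form_smul_smul (a b : ℂ) (x y : Vec) : form J (a • x) (b • y) = a * b * form J x y := by
  unfold form
  rw [mulVec_smul, smul_dotProduct, dotProduct_smul, smul_eq_mul, smul_eq_mul, mul_assoc]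

theorem cone_smul {c : ℂ} (hc : c ≠ 0) : c • o ∈ cone J ↔ o ∈ cone J := by
  have hs : star (c • o) = star c • star o := by rw [star_smul]
  have hn : c * star c = ((Complex.normSq c : ℝ) : ℂ) := Complex.mul_conj c
  have hp : 0 < Complex.normSq c := Complex.normSq_pos.2 hc
  change _ ∧ _ ↔ _ ∧ _
  rw [hs, form_smul_smul, form_smul_smul, hn, Complex.re_ofReal_mul]
  constructor
  · rintro ⟨h1, h2⟩
    refine ⟨?_, ?_⟩
    · rcases mul_eq_zero.1 h1 with h | h
      · exact absurd h (mul_ne_zero hc hc)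
      · exact h
    · by_contra h
      have := mul_nonneg hp.le (not_lt.1 h)
      linarith
  · rintro ⟨h1, h2⟩
    exact ⟨by rw [h1, mul_zero], mul_neg_of_pos_of_neg hp h2⟩

theorem stab_smul {c : ℂ} (hc : c ≠ 0) (g : Mat) :
    (∃ a : ℂ, g *ᵥ (c • o) = a • (c • o)) ↔ ∃ a : ℂ, g *ᵥ o = a • o := by
  constructor
  · rintro ⟨a, h⟩
    refine ⟨a, ?_⟩
    rw [mulVec_smul, smul_comm a c] at h
    exact smul_right_injective _ hc h
  · rintro ⟨a, h⟩
    exact ⟨a, by rw [mulVec_smul, h, smul_comm]⟩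

theorem stabStable_smul {c : ℂ} (hc : c ≠ 0) (L : Submodule Qbar Mat) :
    StabStable J (c • o) L ↔ StabStable J o L := by
  unfold StabStable
  simp only [stab_smul o hc]

theorem hc_smul {c : ℂ} (hc : c ≠ 0) (x : Vec) (Y : Mat) :
    IsHarishChandra J (c • o) x Y ↔ IsHarishChandra J o x Y := by
  unfold IsHarishChandra
  rw [tangent_smul J o hc]
  refine and_congr_right fun _ => ?_
  constructor
  · rintro ⟨a, ha, h⟩
    refine ⟨c⁻¹ * a, mul_ne_zero (inv_ne_zero hc) ha, ?_⟩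
    rw [mulVec_smul] at h
    rw [mul_smul, ← h, inv_smul_smul₀ hc]
  · rintro ⟨a, ha, h⟩
    refine ⟨c * a, mul_ne_zero hc ha, ?_⟩
    rw [mulVec_smul, h, mul_smul]

/-- The multiples of a point of the cone lie in the same component. -/
theorem joined_smul {c : ℂ} (hc : c ≠ 0) (ho : o ∈ cone J) : JoinedIn (cone J) o (c • o) := by
  -- the path `exp(t log c) o`
  have h1 : Complex.exp (Complex.log c) = c := Complex.exp_log hc
  refine JoinedIn.ofLine (f := fun t : ℝ => Complex.exp (t * Complex.log c) • o) ?_ ?_ ?_ ?_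
  · apply Continuous.continuousOn
    fun_prop
  · simp
  · simp [h1]
  · rintro _ ⟨s, hs, rfl⟩
    exact (cone_smul J o (Complex.exp_ne_zero _)).2 ho

end scaling

section conj

theorem conj_mem_tangent {J : Matrix (Fin 5) (Fin 5) ℚ} {o : Vec} (ho : o ≠ 0) {g : GL5}
    (hg : g ∈ SO J) {M : Matrix (Fin 5) (Fin 5) ℚ}
    (hM : (g : Mat) = toC M) {c : ℂ} (hc : (g : Mat) *ᵥ o = c • o) {Y : Mat}
    (hY : Y ∈ tangent J o) : (g : Mat) * Y * ((g⁻¹ : GL5) : Mat) ∈ tangent J o := by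
  have hgi : (g : Mat) * ((g⁻¹ : GL5) : Mat) = 1 := by
    rw [← Units.val_mul, mul_inv_cancel, Units.val_one]
  have hgi' : ((g⁻¹ : GL5) : Mat) * (g : Mat) = 1 := by
    rw [← Units.val_mul, inv_mul_cancel, Units.val_one]
  have hc0 : c ≠ 0 := by
    rintro rfl
    rw [zero_smul] at hc
    have h1 := congrArg (fun v => ((g⁻¹ : GL5) : Mat) *ᵥ v) hc
    simp only [mulVec_mulVec, hgi', one_mulVec, mulVec_zero] at h1
    exact ho h1
  have hh : ∀ z, hodge J o z * (g : Mat) = (g : Mat) * hodge J o z := by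
    intro z
    have h1 := hodge_smul_mat hg hM o z
    rw [hc, hodge_smul J o hc0] at h1
    calc hodge J o z * (g : Mat)
        = (g : Mat) * hodge J o z * ((g⁻¹ : GL5) : Mat) * (g : Mat) := by rw [← h1]
      _ = _ := by rw [Matrix.mul_assoc, hgi', Matrix.mul_one]
  have hh' : ∀ z, ((g⁻¹ : GL5) : Mat) * hodge J o z = hodge J o z * ((g⁻¹ : GL5) : Mat) := by
    intro z
    calc ((g⁻¹ : GL5) : Mat) * hodge J o z
        = ((g⁻¹ : GL5) : Mat) * (hodge J o z * (g : Mat)) * ((g⁻¹ : GL5) : Mat) := by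
          rw [Matrix.mul_assoc, Matrix.mul_assoc, hgi, Matrix.mul_one]
      _ = (((g⁻¹ : GL5) : Mat) * (g : Mat)) * hodge J o z * ((g⁻¹ : GL5) : Mat) := by
          rw [hh z]
          simp only [Matrix.mul_assoc]
      _ = _ := by rw [hgi', Matrix.one_mul]
  obtain ⟨h1, h2⟩ := hY
  have hJg : toC J * (g : Mat) = ((g⁻¹ : GL5) : Mat)ᵀ * toC J := by
    calc toC J * (g : Mat)
        = ((g : Mat) * ((g⁻¹ : GL5) : Mat))ᵀ * toC J * (g : Mat) := by rw [hgi]; simp
      _ = ((g⁻¹ : GL5) : Mat)ᵀ * ((g : Mat)ᵀ * toC J * (g : Mat)) := by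
          rw [transpose_mul]
          simp only [Matrix.mul_assoc]
      _ = _ := by rw [hg.1]
  have hgJ : (g : Mat)ᵀ * toC J = toC J * ((g⁻¹ : GL5) : Mat) := by
    calc (g : Mat)ᵀ * toC J = (g : Mat)ᵀ * toC J * ((g : Mat) * ((g⁻¹ : GL5) : Mat)) := by
          rw [hgi, Matrix.mul_one]
      _ = ((g : Mat)ᵀ * toC J * (g : Mat)) * ((g⁻¹ : GL5) : Mat) := by
          simp only [Matrix.mul_assoc]
      _ = _ := by rw [hg.1]
  constructor
  · rw [transpose_mul, transpose_mul]
    calc ((g⁻¹ : GL5) : Mat)ᵀ * (Yᵀ * (g : Mat)ᵀ) * toC J +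
          toC J * ((g : Mat) * Y * ((g⁻¹ : GL5) : Mat))
        = ((g⁻¹ : GL5) : Mat)ᵀ * Yᵀ * ((g : Mat)ᵀ * toC J) +
          (toC J * (g : Mat)) * Y * ((g⁻¹ : GL5) : Mat) := by simp only [Matrix.mul_assoc]
      _ = ((g⁻¹ : GL5) : Mat)ᵀ * (Yᵀ * toC J + toC J * Y) * ((g⁻¹ : GL5) : Mat) := by
          rw [hgJ, hJg, Matrix.mul_add, Matrix.add_mul]
          simp only [Matrix.mul_assoc]
      _ = 0 := by rw [h1]; simp
  · intro z hz
    calc hodge J o z * ((g : Mat) * Y * ((g⁻¹ : GL5) : Mat))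
        = (hodge J o z * (g : Mat)) * Y * ((g⁻¹ : GL5) : Mat) := by simp only [Matrix.mul_assoc]
      _ = (g : Mat) * (hodge J o z * Y) * ((g⁻¹ : GL5) : Mat) := by
          rw [hh z]
          simp only [Matrix.mul_assoc]
      _ = (star z / z) • ((g : Mat) * Y * (hodge J o z * ((g⁻¹ : GL5) : Mat))) := by
          rw [h2 z hz, Matrix.mul_smul, Matrix.smul_mul]
          simp only [Matrix.mul_assoc]
      _ = _ := by
          rw [← hh' z]
          simp only [Matrix.mul_assoc]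

end conj

namespace VecDat

variable {K : Type} [Field K] [Algebra ℚ K] {G : GalDat K} {J : Matrix (Fin 5) (Fin 5) ℚ}
  (V : VecDat G J)

theorem o_ne : V.frame.o ≠ 0 := by
  intro h
  have h1 := V.frame.form_o_star
  rw [h] at h1
  unfold form at h1
  simp at h1
  exact V.frame.hμ h1.symm

theorem exists_stable [Algebra.IsAlgebraic ℚ K] : ∃ L : Submodule Qbar Mat,
    IsStructure L (tangent J V.frame.o) ∧ StabStable J V.frame.o L := by
  refine ⟨Submodule.span Qbar (Set.range V.frame.bs), ⟨3, V.frame.bs, V.frame.bs_indep,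
    V.frame.span_bs, rfl⟩, ?_⟩
  rintro g hg ⟨M, hM⟩ ⟨c, hc⟩ Y hY
  rw [Submodule.mem_span_range_iff_exists_fun] at hY ⊢
  obtain ⟨f, rfl⟩ := hY
  have hsm : ∀ (r : Qbar) (Y : Mat), r • Y = (r : ℂ) • Y := fun _ _ => rfl
  rw [V.frame.bs_comb (R := Qbar) (fun r => (r : ℂ)) hsm] at *
  obtain ⟨a', b', c', h1⟩ := V.frame.mem_tangent.1 (conj_mem_tangent V.o_ne hg hM hc
    (V.frame.Yo_mem (f 0) (f 1) (f 2)))
  -- the matrices with algebraic entries
  have mulm : ∀ A B : Mat, (∀ i j, A i j ∈ Qbar) → (∀ i j, B i j ∈ Qbar) →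
      ∀ i j, (A * B) i j ∈ Qbar := by
    intro A B hA hB i j
    rw [mul_apply]
    exact sum_mem fun k _ => mul_mem (hA i k) (hB k j)
  have hF : ∀ i j, V.frame.P i j ∈ Qbar := fun i j => ι_mem _
  have hFi : ∀ i j, V.frame.Q i j ∈ Qbar := fun i j => ι_mem _
  have hratm : ∀ (N : Matrix (Fin 5) (Fin 5) ℚ) (i j), toC N i j ∈ Qbar := by
    intro N i j
    exact algebraMap_mem Qbar (N i j)
  have hgi : ∀ i j, ((g⁻¹ : GL5) : Mat) i j ∈ Qbar := by
    have h2 : ((g⁻¹ : GL5) : Mat) = toC M⁻¹ := by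
      have hdet : IsUnit M.det := by
        have h3 := hg.2
        rw [hM] at h3
        have h4 : (toC M).det = ((M.det : ℚ) : ℂ) := by
          unfold toC
          exact ((algebraMap ℚ ℂ).map_det M).symm
        rw [h4] at h3
        have h5 : M.det = 1 := by exact_mod_cast h3
        rw [h5]
        exact isUnit_one
      have h6 : (g : Mat) * toC M⁻¹ = 1 := by
        rw [hM, ← toC_mul, mul_nonsing_inv _ hdet, toC_one]
      calc ((g⁻¹ : GL5) : Mat) = ((g⁻¹ : GL5) : Mat) * ((g : Mat) * toC M⁻¹) := by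
            rw [h6, Matrix.mul_one]
        _ = (((g⁻¹ : GL5) : Mat) * (g : Mat)) * toC M⁻¹ := by rw [Matrix.mul_assoc]
        _ = _ := by rw [← Units.val_mul, inv_mul_cancel, Units.val_one, Matrix.one_mul]
    intro i j
    rw [h2]
    exact hratm _ i j
  have hN : ∀ i j, Ny (V.frame.m / V.frame.μ) (V.frame.ν / V.frame.μ) (f 0) (f 1) (f 2) i j ∈
      Qbar := by
    have hd : V.frame.m / V.frame.μ ∈ Qbar := div_mem (ι_mem _) (ι_mem _)
    have hd2 : V.frame.ν / V.frame.μ ∈ Qbar := div_mem (ι_mem _) (ι_mem _)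
    intro i j
    fin_cases i <;> fin_cases j <;> simp only [Ny] <;>
      first
      | exact zero_mem _
      | exact (f 0).2
      | exact (f 1).2
      | exact (f 2).2
      | exact neg_mem (mul_mem hd (f 0).2)
      | exact neg_mem (mul_mem hd2 (f 1).2)
      | exact neg_mem (mul_mem hd2 (f 2).2)
  have hall : ∀ i j, (V.frame.Q * ((g : Mat) * V.frame.Yo (f 0) (f 1) (f 2) *
      ((g⁻¹ : GL5) : Mat)) * V.frame.P) i j ∈ Qbar := by
    refine mulm _ _ (mulm _ _ hFi (mulm _ _ (mulm _ _ ?_ ?_) hgi)) hF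
    · rw [hM]
      exact hratm M
    · exact mulm _ _ (mulm _ _ hF hN) hFi
  have h7 : V.frame.Q * ((g : Mat) * V.frame.Yo (f 0) (f 1) (f 2) * ((g⁻¹ : GL5) : Mat)) *
      V.frame.P = Ny (V.frame.m / V.frame.μ) (V.frame.ν / V.frame.μ) a' b' c' := by
    rw [h1]
    exact V.frame.co_cb _
  rw [h7] at hall
  have ha : a' ∈ Qbar := by simpa [Ny] using hall 0 1
  have hb : b' ∈ Qbar := by simpa [Ny] using hall 2 1
  have hc' : c' ∈ Qbar := by simpa [Ny] using hall 3 1
  refine ⟨![⟨a', ha⟩, ⟨b', hb⟩, ⟨c', hc'⟩], ?_⟩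
  rw [V.frame.bs_comb (R := Qbar) (fun r => (r : ℂ)) hsm]
  exact h1.symm

end VecDat

end Pool.Agent.Y973.HS
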