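import Pool.Agent.Y973.HS.Frame

/-!
# The tangent space at `o` and the exponentials of the tangent vectors
-/

set_option autoImplicit false

namespace Pool.Agent.Y973.HS

open Matrix
open Pool.Agent.H320R4.HS (Mat Vec GL5 toC form SO cone hodge HodgeIn IsQSubgroup MT IsTorus
  IsMaximalTorus tangent tangentOf IsHarishChandra Qbar IsStructure StabStable IsRational fam
  mem_of_infinite infinite_rat infinite_circle lam XM cM evG evG_apply evG_X evG_XT evG_c
  exp_nil torus_comm Signature32)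

/-- The tangent vectors in the basis (`p = m / μ`, `r = ν / μ`). -/
def Ny (p r a b c : ℂ) : Mat :=
  !![0, a, 0, 0, 0; 0, 0, 0, 0, 0; 0, b, 0, 0, 0; 0, c, 0, 0, 0;
    -(p * a), 0, -(r * c), -(r * b), 0]

theorem Ny_lin (p r s a b c t a' b' c' : ℂ) :
    s • Ny p r a b c + t • Ny p r a' b' c' =
      Ny p r (s * a + t * a') (s * b + t * b') (s * c + t * c') := by
  ext i j
  fin_cases i <;> fin_cases j <;> simp [Ny] <;> ring

theorem Ny_weight (p r a b c l : ℂ) (hl : l ≠ 0) :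
    diagonal ![1, l, 1, 1, l⁻¹] * Ny p r a b c =
      l⁻¹ • (Ny p r a b c * diagonal ![1, l, 1, 1, l⁻¹]) := by
  ext i j
  rw [diagonal_mul, Matrix.smul_apply, mul_diagonal]
  fin_cases i <;> fin_cases j <;> simp [Ny] <;> field_simp

/-- The exponentials in the basis. -/
noncomputable def Em (p r a b c : ℂ) : Mat :=
  !![1, a, 0, 0, 0; 0, 1, 0, 0, 0; 0, b, 1, 0, 0; 0, c, 0, 1, 0;
    -(p * a), -(p * (a * a) / 2 + r * (b * c)), -(r * c), -(r * b), 1]

theorem Em_mul (p r a b c a' b' c' : ℂ) :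
    Em p r a b c * Em p r a' b' c' = Em p r (a + a') (b + b') (c + c') := by
  ext i j
  rw [Matrix.mul_apply, Fin.sum_univ_five]
  fin_cases i <;> fin_cases j <;> simp [Em] <;> ring

theorem Em_zero (p r : ℂ) : Em p r 0 0 0 = 1 := by
  ext i j
  fin_cases i <;> fin_cases j <;> simp [Em]

theorem Ny_sq (p r a b c : ℂ) :
    1 + Ny p r a b c + (1 / 2 : ℂ) • (Ny p r a b c * Ny p r a b c) = Em p r a b c := by
  ext i j
  rw [Matrix.add_apply, Matrix.smul_apply, Matrix.mul_apply, Fin.sum_univ_five]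
  fin_cases i <;> fin_cases j <;> simp [Em, Ny] <;> ring

theorem Ny_cube (p r a b c : ℂ) : Ny p r a b c * Ny p r a b c * Ny p r a b c = 0 := by
  ext i j
  rw [Matrix.mul_apply]
  simp only [Matrix.mul_apply, Fin.sum_univ_five]
  fin_cases i <;> fin_cases j <;> simp [Ny]

theorem Em_conj (p r a b c : ℂ) (x y : ℂ) (hx : x ≠ 0) (hy : y ≠ 0) :
    diagonal ![1, x, y, y⁻¹, x⁻¹] * Em p r a b c =
      Em p r (a / x) (b * y / x) (c / (x * y)) * diagonal ![1, x, y, y⁻¹, x⁻¹] := by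
  ext i j
  rw [diagonal_mul, mul_diagonal]
  fin_cases i <;> fin_cases j <;> simp [Em] <;> field_simp

theorem Ny_conj (p r a b c : ℂ) (x y : ℂ) (hx : x ≠ 0) (hy : y ≠ 0) :
    diagonal ![1, x, y, y⁻¹, x⁻¹] * Ny p r a b c =
      Ny p r (a / x) (b * y / x) (c / (x * y)) * diagonal ![1, x, y, y⁻¹, x⁻¹] := by
  ext i j
  rw [diagonal_mul, mul_diagonal]
  fin_cases i <;> fin_cases j <;> simp [Ny] <;> field_simp

theorem Ny_skew (m μ ν a b c : ℂ) (h : μ ≠ 0) :
    (Ny (m / μ) (ν / μ) a b c)ᵀ * Am m μ ν + Am m μ ν * Ny (m / μ) (ν / μ) a b c = 0 := by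
  ext i j
  fin_cases i <;> fin_cases j <;>
    simp [Ny, Am, Matrix.mul_apply, Fin.sum_univ_five] <;> field_simp <;> ring

namespace Frame

variable {J : Matrix (Fin 5) (Fin 5) ℚ} (D : Frame J)

/-- The tangent vectors. -/
noncomputable def Yo (a b c : ℂ) : Mat := D.cb (Ny (D.m / D.μ) (D.ν / D.μ) a b c)

theorem Yo_lin (s a b c t a' b' c' : ℂ) :
    s • D.Yo a b c + t • D.Yo a' b' c' =
      D.Yo (s * a + t * a') (s * b + t * b') (s * c + t * c') := by
  unfold Yo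
  rw [← Ny_lin, cb_add, cb_smul, cb_smul]

theorem Yo_smul (s a b c : ℂ) : s • D.Yo a b c = D.Yo (s * a) (s * b) (s * c) := by
  have := D.Yo_lin s a b c 0 0 0 0
  simpa using this

theorem Yo_zero : D.Yo 0 0 0 = 0 := by
  have := D.Yo_smul 0 0 0 0
  simpa using this.symm

theorem Yo_inj {a b c a' b' c' : ℂ} (h : D.Yo a b c = D.Yo a' b' c') :
    a = a' ∧ b = b' ∧ c = c' := by
  have h1 := D.cb_inj h
  refine ⟨?_, ?_, ?_⟩
  · simpa [Ny] using congrFun (congrFun h1 0) 1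
  · simpa [Ny] using congrFun (congrFun h1 2) 1
  · simpa [Ny] using congrFun (congrFun h1 3) 1

theorem skew_cb (N : Mat) : (D.cb N)ᵀ * toC J + toC J * D.cb N =
    D.Qᵀ * (Nᵀ * Am D.m D.μ D.ν + Am D.m D.μ D.ν * N) * D.Q := by
  have hT : D.Pᵀ * D.Qᵀ = 1 := by rw [← transpose_mul, D.QP, transpose_one]
  have h1 : (D.cb N)ᵀ * toC J = D.Qᵀ * (Nᵀ * Am D.m D.μ D.ν) * D.Q := by
    rw [D.J_eq]
    unfold cb
    rw [transpose_mul, transpose_mul]
    calc D.Qᵀ * (Nᵀ * D.Pᵀ) * (D.Qᵀ * Am D.m D.μ D.ν * D.Q)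
        = D.Qᵀ * Nᵀ * (D.Pᵀ * D.Qᵀ) * Am D.m D.μ D.ν * D.Q := by simp only [Matrix.mul_assoc]
      _ = _ := by rw [hT, Matrix.mul_one]; simp only [Matrix.mul_assoc]
  have h2 : toC J * D.cb N = D.Qᵀ * (Am D.m D.μ D.ν * N) * D.Q := by
    rw [D.J_eq]
    unfold cb
    calc D.Qᵀ * Am D.m D.μ D.ν * D.Q * (D.P * N * D.Q)
        = D.Qᵀ * Am D.m D.μ D.ν * (D.Q * D.P) * N * D.Q := by simp only [Matrix.mul_assoc]
      _ = _ := by rw [D.QP, Matrix.mul_one]; simp only [Matrix.mul_assoc]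
  rw [h1, h2, ← Matrix.add_mul, ← Matrix.mul_add]

theorem Yo_mem (a b c : ℂ) : D.Yo a b c ∈ tangent J D.o := by
  constructor
  · unfold Yo
    rw [skew_cb, Ny_skew _ _ _ _ _ _ D.hμ]
    simp
  · intro z hz
    have hs : star z ≠ 0 := star_ne_zero.2 hz
    rw [D.hodge_o z hz, Tel_val]
    have hl : (z / star z) ≠ 0 := div_ne_zero hz hs
    have h1 : (![1, ((lam z hz : ℂˣ) : ℂ), ((1 : ℂˣ) : ℂ), ((1 : ℂˣ) : ℂ)⁻¹,
        ((lam z hz : ℂˣ) : ℂ)⁻¹] : Fin 5 → ℂ) = ![1, z / star z, 1, 1, (z / star z)⁻¹] := by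
      simp [lam]
    have h2 : star z / z = (z / star z)⁻¹ := by rw [inv_div]
    rw [h1, h2, Yo, cb_mul, cb_mul, ← cb_smul, Ny_weight _ _ _ _ _ _ hl]

theorem mem_tangent {Y : Mat} : Y ∈ tangent J D.o ↔ ∃ a b c, Y = D.Yo a b c := by
  constructor
  swap
  · rintro ⟨a, b, c, rfl⟩
    exact D.Yo_mem a b c
  rintro ⟨h1, h2⟩
  set N : Mat := D.co Y with hN
  have hY : Y = D.cb N := (D.cb_co Y).symm
  -- the weight condition for `z = 1 + i`
  have hz : (1 + Complex.I) ≠ 0 := by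
    intro h
    have := congrArg Complex.re h
    simp at this
  have h3 := h2 _ hz
  have hl : (1 + Complex.I) / star (1 + Complex.I) = Complex.I := by
    rw [div_eq_iff (star_ne_zero.2 hz)]
    simp
    linear_combination (1 : ℂ) * Complex.I_sq
  have hl' : star (1 + Complex.I) / (1 + Complex.I) = -Complex.I := by
    rw [← inv_div, hl, Complex.inv_I]
  rw [hl', D.hodge_o _ hz, Tel_val] at h3
  have h4 : (![1, ((lam _ hz : ℂˣ) : ℂ), ((1 : ℂˣ) : ℂ), ((1 : ℂˣ) : ℂ)⁻¹,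
      ((lam _ hz : ℂˣ) : ℂ)⁻¹] : Fin 5 → ℂ) = ![1, Complex.I, 1, 1, -Complex.I] := by
    have : ((lam _ hz : ℂˣ) : ℂ) = Complex.I := hl
    rw [this]
    simp
  rw [h4] at h3
  have h5 : diagonal ![1, Complex.I, 1, 1, -Complex.I] * N =
      (-Complex.I) • (N * diagonal ![1, Complex.I, 1, 1, -Complex.I]) := by
    apply D.cb_inj
    rw [cb_smul, ← cb_mul, ← cb_mul, ← hY, h3]
  have h8 : ∀ i j, N i j * ((![1, Complex.I, 1, 1, -Complex.I] : Fin 5 → ℂ) i +
      Complex.I * (![1, Complex.I, 1, 1, -Complex.I] : Fin 5 → ℂ) j) = 0 := by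
    intro i j
    have := congrFun (congrFun h5 i) j
    rw [diagonal_mul, Matrix.smul_apply, mul_diagonal, smul_eq_mul] at this
    linear_combination this
  have hv : ∀ i j, ((![1, Complex.I, 1, 1, -Complex.I] : Fin 5 → ℂ) i +
      Complex.I * (![1, Complex.I, 1, 1, -Complex.I] : Fin 5 → ℂ) j) ≠ 0 → N i j = 0 := by
    intro i j h
    exact (mul_eq_zero.1 (h8 i j)).resolve_right h
  -- the skew condition
  have h9 : Nᵀ * Am D.m D.μ D.ν + Am D.m D.μ D.ν * N = 0 := by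
    have h10 : D.Pᵀ * (Yᵀ * toC J + toC J * Y) * D.P =
        Nᵀ * Am D.m D.μ D.ν + Am D.m D.μ D.ν * N := by
      have h := D.skew_cb N
      rw [← hY] at h
      have hT : D.Pᵀ * D.Qᵀ = 1 := by rw [← transpose_mul, D.QP, transpose_one]
      rw [h]
      calc D.Pᵀ * (D.Qᵀ * (Nᵀ * Am D.m D.μ D.ν + Am D.m D.μ D.ν * N) * D.Q) * D.P
          = (D.Pᵀ * D.Qᵀ) * (Nᵀ * Am D.m D.μ D.ν + Am D.m D.μ D.ν * N) * (D.Q * D.P) := by
            simp only [Matrix.mul_assoc]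
        _ = _ := by rw [hT, D.QP]; simp
    rw [← h10, h1]
    simp
  have hq := D.hμ
  have s10 := congrFun (congrFun h9 1) 0
  have s13 := congrFun (congrFun h9 1) 3
  have s12 := congrFun (congrFun h9 1) 2
  simp [Am, Matrix.mul_apply, Matrix.vecMul, dotProduct, Fin.sum_univ_five] at s10 s13 s12
  refine ⟨N 0 1, N 2 1, N 3 1, ?_⟩
  rw [hY]
  unfold Yo
  congr 1
  have zero : ∀ i j : Fin 5, (i, j) ∉ ({(0, 1), (2, 1), (3, 1), (4, 0), (4, 2), (4, 3)} :
      Finset (Fin 5 × Fin 5)) → N i j = 0 := by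
    intro i j hij
    apply hv
    revert hij
    fin_cases i <;> fin_cases j <;> intro hij <;>
      first
      | exact absurd (by decide) hij
      | (intro h
         first
         | (have h' := congrArg Complex.re h
            simp at h'
            done)
         | (have h' := congrArg Complex.im h
            simp at h'
            done)
         | (have h' := congrArg Complex.re h
            norm_num at h'
            done)
         | (have h' := congrArg Complex.im h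
            norm_num at h'
            done))
  have e40 : N 4 0 = -(D.m / D.μ * N 0 1) := by
    field_simp
    linear_combination s10
  have e42 : N 4 2 = -(D.ν / D.μ * N 3 1) := by
    field_simp
    linear_combination s12
  have e43 : N 4 3 = -(D.ν / D.μ * N 2 1) := by
    field_simp
    linear_combination s13
  ext i j
  by_cases hij : (i, j) ∈ ({(0, 1), (2, 1), (3, 1), (4, 0), (4, 2), (4, 3)} :
      Finset (Fin 5 × Fin 5))
  · simp only [Finset.mem_insert, Finset.mem_singleton, Prod.mk.injEq] at hij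
    rcases hij with ⟨rfl, rfl⟩ | ⟨rfl, rfl⟩ | ⟨rfl, rfl⟩ | ⟨rfl, rfl⟩ | ⟨rfl, rfl⟩ | ⟨rfl, rfl⟩
    · simp [Ny]
    · simp [Ny]
    · simp [Ny]
    · rw [e40]; simp [Ny]
    · rw [e42]; simp [Ny]
    · rw [e43]; simp [Ny]
  · rw [zero i j hij]
    revert hij
    fin_cases i <;> fin_cases j <;> intro hij <;>
      first
      | exact absurd (by decide) hij
      | simp [Ny]

/-- The exponentials of the tangent vectors as elements of `GL₅(ℂ)`. -/
noncomputable def EG (a b c : ℂ) : GL5 :=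
  ⟨D.cb (Em (D.m / D.μ) (D.ν / D.μ) a b c), D.cb (Em (D.m / D.μ) (D.ν / D.μ) (-a) (-b) (-c)),
    by rw [cb_mul, Em_mul]; simp [Em_zero, cb_one],
    by rw [cb_mul, Em_mul]; simp [Em_zero, cb_one]⟩

theorem EG_val (a b c : ℂ) : (D.EG a b c : Mat) = D.cb (Em (D.m / D.μ) (D.ν / D.μ) a b c) := rfl

theorem EG_mul (a b c a' b' c' : ℂ) :
    D.EG a b c * D.EG a' b' c' = D.EG (a + a') (b + b') (c + c') := by
  apply Units.ext
  rw [Units.val_mul, EG_val, EG_val, EG_val, cb_mul, Em_mul]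

theorem EG_zero : D.EG 0 0 0 = 1 := by
  apply Units.ext
  rw [EG_val, Em_zero, cb_one]
  rfl

theorem EG_inv (a b c : ℂ) : (D.EG a b c)⁻¹ = D.EG (-a) (-b) (-c) := by
  rw [inv_eq_iff_mul_eq_one, EG_mul]
  simp [EG_zero]

theorem exp_Yo (a b c : ℂ) : NormedSpace.exp (D.Yo a b c) = (D.EG a b c : Mat) := by
  have h : D.Yo a b c * D.Yo a b c * D.Yo a b c = 0 := by
    unfold Yo
    rw [cb_mul, cb_mul, Ny_cube, cb_zero]
  rw [exp_nil _ h, EG_val, ← Ny_sq, cb_add, cb_add, cb_smul, ← cb_mul, cb_one]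
  rfl

theorem exp_smul_Yo (s a b c : ℂ) :
    NormedSpace.exp (s • D.Yo a b c) = (D.EG (s * a) (s * b) (s * c) : Mat) := by
  rw [Yo_smul, exp_Yo]

theorem Tel_conj (x y : ℂˣ) (a b c : ℂ) :
    D.Tel x y * D.EG a b c * (D.Tel x y)⁻¹ = D.EG (a / x) (b * y / x) (c / (x * y)) := by
  rw [mul_inv_eq_iff_eq_mul]
  apply Units.ext
  rw [Units.val_mul, Units.val_mul, Tel_val, EG_val, EG_val, cb_mul, cb_mul,
    Em_conj _ _ _ _ _ _ _ x.ne_zero y.ne_zero]

theorem Tel_conj_Yo (x y : ℂˣ) (a b c : ℂ) :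
    (D.Tel x y : Mat) * D.Yo a b c * (((D.Tel x y)⁻¹ : GL5) : Mat) =
      D.Yo (a / x) (b * y / x) (c / (x * y)) := by
  have h : (D.Tel x y : Mat) * D.Yo a b c =
      D.Yo (a / x) (b * y / x) (c / (x * y)) * (D.Tel x y : Mat) := by
    rw [Tel_val, Yo, Yo, cb_mul, cb_mul, Ny_conj _ _ _ _ _ _ _ x.ne_zero y.ne_zero]
  have h1 : (D.Tel x y : Mat) * (((D.Tel x y)⁻¹ : GL5) : Mat) = 1 := by
    rw [← Units.val_mul, mul_inv_cancel, Units.val_one]
  rw [h, Matrix.mul_assoc, h1, Matrix.mul_one]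

theorem mem_tangentOf {H : Subgroup GL5} {a b c : ℂ} :
    D.Yo a b c ∈ tangentOf J D.o H ↔ ∀ s : ℂ, D.EG (s * a) (s * b) (s * c) ∈ H := by
  constructor
  · rintro ⟨-, h⟩ s
    obtain ⟨g, hg, hg'⟩ := h s
    rw [exp_smul_Yo] at hg'
    rw [← Units.ext hg']
    exact hg
  · intro h
    exact ⟨D.Yo_mem a b c, fun s => ⟨_, h s, (D.exp_smul_Yo s a b c).symm⟩⟩

/-- The plane spanned by the lines of `u` and `o₃`. -/
noncomputable def Vp : Submodule ℂ Mat := Submodule.span ℂ {D.Yo 1 0 0, D.Yo 0 0 1}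

theorem mem_Vp {Y : Mat} : Y ∈ D.Vp ↔ ∃ a c, Y = D.Yo a 0 c := by
  unfold Vp
  rw [Submodule.mem_span_pair]
  constructor
  · rintro ⟨a, c, rfl⟩
    exact ⟨a, c, by rw [Yo_lin]; simp⟩
  · rintro ⟨a, c, rfl⟩
    exact ⟨a, c, by rw [Yo_lin]; simp⟩

theorem Vp_le : D.Vp ≤ tangent J D.o := by
  intro Y hY
  obtain ⟨a, c, rfl⟩ := D.mem_Vp.1 hY
  exact D.Yo_mem _ _ _

theorem finrank_Vp : Module.finrank ℂ D.Vp = 2 := by
  have h : LinearIndependent ℂ ![D.Yo 1 0 0, D.Yo 0 0 1] := by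
    rw [LinearIndependent.pair_iff]
    intro s t hst
    rw [Yo_lin, ← Yo_zero] at hst
    have h1 := D.Yo_inj hst
    refine ⟨by simpa using h1.1, by simpa using h1.2.2⟩
  have h2 := finrank_span_eq_card h
  have h3 : Set.range ![D.Yo 1 0 0, D.Yo 0 0 1] = {D.Yo 1 0 0, D.Yo 0 0 1} := by
    simp
    ext x
    simp
    tauto
  rw [h3] at h2
  exact h2.trans (Fintype.card_fin 2)

/-- The basis of the tangent space. -/
noncomputable def bs : Fin 3 → Mat := ![D.Yo 1 0 0, D.Yo 0 1 0, D.Yo 0 0 1]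

theorem bs_comb {R : Type*} [Semiring R] [Module R Mat] (f : R → ℂ)
    (hf : ∀ (r : R) (Y : Mat), r • Y = f r • Y) (g : Fin 3 → R) :
    ∑ i, g i • D.bs i = D.Yo (f (g 0)) (f (g 1)) (f (g 2)) := by
  rw [Fin.sum_univ_three, hf, hf, hf]
  simp only [bs]
  have h : ∀ a b c, D.Yo a b c = a • D.Yo 1 0 0 + b • D.Yo 0 1 0 + c • D.Yo 0 0 1 := by
    intro a b c
    have h1 := D.Yo_lin a 1 0 0 b 0 1 0
    have h2 := D.Yo_lin 1 (a * 1 + b * 0) (a * 0 + b * 1) (a * 0 + b * 0) c 0 0 1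
    rw [one_smul] at h2
    rw [h1, h2]
    simp
  rw [h (f (g 0))]
  simp

theorem bs_indep : LinearIndependent ℂ D.bs := by
  rw [Fintype.linearIndependent_iff]
  intro g hg
  rw [D.bs_comb (R := ℂ) id (fun _ _ => rfl), ← Yo_zero] at hg
  obtain ⟨h1, h2, h3⟩ := D.Yo_inj hg
  intro i
  fin_cases i
  · exact h1
  · exact h2
  · exact h3

theorem span_bs : Submodule.span ℂ (Set.range D.bs) = tangent J D.o := by
  ext Y
  rw [mem_tangent, Submodule.mem_span_range_iff_exists_fun]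
  constructor
  · rintro ⟨g, rfl⟩
    exact ⟨_, _, _, D.bs_comb (R := ℂ) id (fun _ _ => rfl) g⟩
  · rintro ⟨a, b, c, rfl⟩
    exact ⟨![a, b, c], D.bs_comb (R := ℂ) id (fun _ _ => rfl) _⟩

theorem finrank_tangent : Module.finrank ℂ (tangent J D.o) = 3 := by
  have h2 := finrank_span_eq_card D.bs_indep
  rw [D.span_bs] at h2
  simpa using h2

/-- The conjugates of the exponentials. -/
noncomputable def Bm (m ν : ℂ) (t : ℂ) : Mat :=
  !![1, 0, 0, t * ν, 0; 0, 1, 0, 0, 0; -(t * m), 0, 1, -(t * t / 2 * (m * ν)), 0;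
    0, 0, 0, 1, 0; 0, 0, 0, 0, 1]

theorem Bm_mul (m ν s t : ℂ) : Bm m ν s * Bm m ν t = Bm m ν (s + t) := by
  ext i j
  rw [Matrix.mul_apply, Fin.sum_univ_five]
  fin_cases i <;> fin_cases j <;> simp [Bm] <;> ring

theorem Bm_zero (m ν : ℂ) : Bm m ν 0 = 1 := by
  ext i j
  fin_cases i <;> fin_cases j <;> simp [Bm]

/-- The conjugates of the exponentials as elements of `GL₅(ℂ)`. -/
noncomputable def BG (t : ℂ) : GL5 :=
  ⟨D.cb (Bm D.m D.ν t), D.cb (Bm D.m D.ν (-t)),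
    by rw [cb_mul, Bm_mul]; simp [Bm_zero, cb_one],
    by rw [cb_mul, Bm_mul]; simp [Bm_zero, cb_one]⟩

theorem BG_val (t : ℂ) : (D.BG t : Mat) = D.cb (Bm D.m D.ν t) := rfl

theorem BG_comm (t : ℂ) :
    D.EG D.μ 0 0 * D.BG t = D.EG 0 (t * (D.m * D.μ)) 0 * (D.BG t * D.EG D.μ 0 0) := by
  have hq := D.hμ
  apply Units.ext
  rw [Units.val_mul, Units.val_mul, Units.val_mul, EG_val, EG_val, BG_val, cb_mul, cb_mul,
    cb_mul]
  congr 1
  ext i j
  simp only [Matrix.mul_apply, Fin.sum_univ_five]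
  fin_cases i <;> fin_cases j <;> simp [Bm, Em] <;> field_simp <;> ring

end Frame

end Pool.Agent.Y973.HS
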