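import Pool.Agent.Y973.HS.Orth

/-!
# The general theorem
-/

set_option autoImplicit false

namespace Pool.Agent.Y973.HS

open Matrix
open Pool.Agent.H320R4.HS (Mat Vec GL5 toC form SO cone hodge HodgeIn IsQSubgroup MT IsTorus
  IsMaximalTorus tangent tangentOf IsHarishChandra Qbar IsStructure StabStable IsRational fam
  mem_of_infinite infinite_rat infinite_circle lam XM cM evG evG_apply evG_X evG_XT evG_c
  exp_nil torus_comm Signature32 hodge_smul_mat toC_mul toC_one)

/-- The conclusion of the theorem for a point `o`. -/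
def Concl (J : Matrix (Fin 5) (Fin 5) ℚ) (o : Vec) (cyc : Prop) : Prop :=
  IsMaximalTorus (SO J) (MT J o) ∧ Module.finrank ℂ (tangent J o) = 3 ∧
    (∃ L : Submodule Qbar Mat, IsStructure L (tangent J o) ∧ StabStable J o L) ∧
    ∃ W : Submodule ℂ Mat, W ≤ tangent J o ∧ Module.finrank ℂ W = 2 ∧
      (∀ L : Submodule Qbar Mat, IsStructure L (tangent J o) → StabStable J o L →
        IsRational L W) ∧
      (BadSet J o W).Infinite ∧
      (cyc → ∀ H : Subgroup GL5, IsQSubgroup H → H ≤ SO J → HodgeIn J o H →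
        tangentOf J o H ⊆ (W : Set Mat) → tangentOf J o H ⊆ {0})

theorem badSet_smul (J : Matrix (Fin 5) (Fin 5) ℚ) (o : Vec) {k : ℂ} (hk : k ≠ 0)
    (ho : o ∈ cone J) (W : Submodule ℂ Mat) : BadSet J (k • o) W = BadSet J o W := by
  have hj := joined_smul J o hk ho
  ext Y
  unfold BadSet
  simp only [Set.mem_setOf_eq, hc_smul J o hk, hodgeIn_smul J o hk, tangentOf_smul J o hk]
  constructor
  · rintro ⟨h1, z, h2, h3, h4⟩
    exact ⟨h1, z, h2, hj.trans h3, h4⟩
  · rintro ⟨h1, z, h2, h3, h4⟩
    exact ⟨h1, z, h2, hj.symm.trans h3, h4⟩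

theorem concl_smul {J : Matrix (Fin 5) (Fin 5) ℚ} {o : Vec} {k : ℂ} (hk : k ≠ 0)
    (ho : o ∈ cone J) {cyc : Prop} (h : Concl J (k • o) cyc) : Concl J o cyc := by
  obtain ⟨h1, h2, ⟨L, h3, h3'⟩, W, h4, h5, h6, h7, h8⟩ := h
  rw [MT_smul J o hk] at h1
  rw [tangent_smul J o hk] at h2 h3 h4
  rw [stabStable_smul J o hk] at h3'
  rw [badSet_smul J o hk ho] at h7
  refine ⟨h1, h2, ⟨L, h3, h3'⟩, W, h4, h5, ?_, h7, ?_⟩
  · intro L hL hst
    exact h6 L (by rwa [tangent_smul J o hk]) ((stabStable_smul J o hk L).2 hst)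
  · intro hc H hH hH' hh hW
    have := h8 hc H hH hH' ((hodgeIn_smul J o hk H).2 hh) (by rwa [tangentOf_smul J o hk])
    rwa [tangentOf_smul J o hk] at this

namespace VecDat

variable {K : Type} [Field K] [Algebra ℚ K] {G : GalDat K} {J : Matrix (Fin 5) (Fin 5) ℚ}
  (V : VecDat G J)

theorem concl [Algebra.IsAlgebraic ℚ K] {cyc : Prop} (hcyc : cyc → ∀ x, G.σ (G.σ x) = G.c x)
    (hinf : (BadSet J V.frame.o V.frame.Vp).Infinite) : Concl J V.frame.o cyc :=
  ⟨V.maximal_MT, V.frame.finrank_tangent, V.exists_stable, V.frame.Vp, V.frame.Vp_le,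
    V.frame.finrank_Vp, fun _ hL hst => V.rational_Vp hL hst, hinf,
    fun hc _ hH _ hh hW => V.tangent_cyc (hcyc hc) hH hh hW⟩

end VecDat

theorem concl_of {K : Type} [Field K] [Algebra ℚ K] [Algebra.IsAlgebraic ℚ K] (G : GalDat K)
    (hfin : Module.finrank ℚ K = 4)
    {J : Matrix (Fin 5) (Fin 5) ℚ} (hJ : Signature32 J) (o : Fin 5 → K)
    (oo : formK J o o = 0) (os : formK J o (fun i => G.σ (o i)) = 0)
    (ocs : formK J o (fun i => G.c (G.σ (o i))) = 0)
    (hcone : (fun i => G.ι (o i)) ∈ cone J) {cyc : Prop}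
    (hcyc : cyc → ∀ x, G.σ (G.σ x) = G.c x) : Concl J (fun i => G.ι (o i)) cyc := by
  have := VecDat.charZ G
  obtain ⟨V, hV, hμ, hm, hν⟩ := exists_vec G hfin hJ o oo os ocs hcone
  have hVo : V.frame.o = fun i => G.ι (o i) := by rw [V.frame_o, hV]
  rcases G.sq with hsq | hsq
  · rw [← hVo]
    exact V.concl hcyc (V.infinite_cyc hfin hJ hsq hμ hm hν)
  · by_cases hne : V.νR = -V.μR
    · -- change of the normalization of `o`
      have hνμ : V.ν = -V.μ := by
        apply G.ι.toRingHom.injective
        change G.ι _ = G.ι _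
        rw [map_neg]
        change V.frame.ν = -V.frame.μ
        rw [← V.νR_eq, ← V.μR_eq, hne]
        push_cast
        rfl
      have hσμ : G.σ V.μ = -V.μ := hνμ
      set k : K := 1 + V.μ with hk
      have hk0 : k ≠ 0 := by
        intro h
        have h1 : V.μ = -1 := by linear_combination h
        have h2 : G.σ V.μ = -1 := by rw [h1, map_neg, map_one]
        rw [hσμ, h1, neg_neg] at h2
        have h3 : (2 : K) = 0 := by linear_combination h2
        exact two_ne_zero h3
      have hck : G.c k = k := by rw [hk, map_add, map_one, V.cμ]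
      have hσk : G.σ k = 1 - V.μ := by rw [hk, map_add, map_one, hσμ]; ring
      have hkι : G.ι k ≠ 0 := (map_ne_zero G.ι).2 hk0
      have hσv : (fun i => G.σ ((k • o) i)) = G.σ k • fun i => G.σ (o i) := by
        funext i
        simp
      have hcσv : (fun i => G.c (G.σ ((k • o) i))) = G.c (G.σ k) • fun i => G.c (G.σ (o i)) := by
        funext i
        simp
      have hcv : (fun i => G.c ((k • o) i)) = G.c k • fun i => G.c (o i) := by
        funext i
        simp
      have hιv : (fun i => G.ι ((k • o) i)) = G.ι k • fun i => G.ι (o i) := by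
        funext i
        simp
      have hcone' : (fun i => G.ι ((k • o) i)) ∈ cone J := by
        rw [hιv]
        exact (cone_smul J _ hkι).2 hcone
      obtain ⟨V', hV', hμ', hm', hν'⟩ := exists_vec G hfin hJ (k • o)
        (by rw [formK_smul_left, formK_smul_right, oo, mul_zero, mul_zero])
        (by rw [hσv, formK_smul_left, formK_smul_right, os, mul_zero, mul_zero])
        (by rw [hcσv, formK_smul_left, formK_smul_right, ocs, mul_zero, mul_zero]) hcone'
      have hV'o : V'.frame.o = G.ι k • fun i => G.ι (o i) := by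
        rw [V'.frame_o, hV', hιv]
      have hμ1 : V.μ = formK J o (fun i => G.c (o i)) := by
        have : V.μ = formK J V.o (fun i => G.c (V.o i)) := rfl
        rw [this, hV]
      have hμ2 : V'.μ = k ^ 2 * V.μ := by
        have : V'.μ = formK J V'.o (fun i => G.c (V'.o i)) := rfl
        rw [this, hV', hcv, formK_smul_left, formK_smul_right, ← hμ1, hck]
        ring
      have hν2 : V'.ν = (G.σ k) ^ 2 * V.ν := by
        have : V'.ν = G.σ V'.μ := rfl
        rw [this, hμ2, map_mul, map_pow]
        rfl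
      have hne' : V'.νR ≠ -V'.μR := by
        intro h
        have h1 : V'.ν = -V'.μ := by
          apply G.ι.toRingHom.injective
          change G.ι _ = G.ι _
          rw [map_neg]
          change V'.frame.ν = -V'.frame.μ
          rw [← V'.νR_eq, ← V'.μR_eq, h]
          push_cast
          rfl
        rw [hμ2, hν2, hνμ, hσk, hk] at h1
        have h2 : (4 * V.μ) * V.μ = 0 := by linear_combination h1
        rcases mul_eq_zero.1 h2 with h3 | h3
        · rcases mul_eq_zero.1 h3 with h4 | h4
          · have h5 : (4 : K) ≠ 0 := by norm_num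
            exact h5 h4
          · exact V.μ_ne h4
        · exact V.μ_ne h3
      have h1 := V'.concl hcyc (V'.infinite_biq hfin hJ hsq hμ' hm' hν' hne')
      rw [hV'o] at h1
      exact concl_smul hkι hcone h1
    · rw [← hVo]
      exact V.concl hcyc (V.infinite_biq hfin hJ hsq hμ hm hν hne)

/-- **The general theorem.** -/
theorem main_thm (J : Matrix (Fin 5) (Fin 5) ℚ) (K : IntermediateField ℚ ℂ) (o : Fin 5 → K)
    (hJ : Signature32 J) (hgal : IsGalois ℚ K) (hfin : Module.finrank ℚ K = 4)
    (hcone : (fun i => (o i : ℂ)) ∈ cone J) (hT : IsTorus (MT J fun i => (o i : ℂ)))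
    (hline : ∀ τ : K ≃ₐ[ℚ] K, (∃ k : K, ∀ i, τ (o i) = k * o i) → τ = 1) :
    Concl J (fun i => (o i : ℂ)) (IsCyclic (K ≃ₐ[ℚ] K)) := by
  have : FiniteDimensional ℚ K := Module.finite_of_finrank_pos (by rw [hfin]; norm_num)
  have hreal : ∃ x : K, star (x : ℂ) ≠ x := by
    by_contra h
    push Not at h
    have h1 : star (fun i => (o i : ℂ)) = fun i => (o i : ℂ) := by
      funext i
      exact h (o i)
    have h2 := hcone.2
    rw [h1, hcone.1] at h2
    simp at h2
  obtain ⟨G, hι, hall⟩ := exists_gal K hfin hreal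
  have hιo : (fun i => G.ι (o i)) = fun i => (o i : ℂ) := by
    rw [hι]
    rfl
  have horth : ∀ τ : K ≃ₐ[ℚ] K, τ ≠ G.c → formK J o (fun i => τ (o i)) = 0 := by
    intro τ hτ
    by_contra hne
    obtain ⟨k, hk, h⟩ := orth_of_torus G hJ.1 o (by rw [hιo]; exact hcone)
      (by rw [hιo]; exact hT) τ hne
    have h1 : τ * G.c = 1 := by
      apply hline
      refine ⟨k⁻¹, fun i => ?_⟩
      conv_rhs => rw [h i, inv_mul_cancel_left₀ hk]
      rfl
    apply hτ
    have h2 : G.c * G.c = 1 := by
      ext x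
      exact congrArg _ (G.cc x)
    calc τ = τ * (G.c * G.c) := by rw [h2, mul_one]
      _ = (τ * G.c) * G.c := by rw [mul_assoc]
      _ = G.c := by rw [h1, one_mul]
  -- `σ` and `c σ` are not `c`
  have hσc : G.σ ≠ G.c := by
    intro h
    have h1 : (2 : Fin 5) = 4 := by
      apply G.hθ
      change G.σ G.θ = G.c G.θ
      rw [h]
    exact absurd h1 (by decide)
  have hσ1 : G.σ ≠ 1 := by
    intro h
    have h1 : (1 : Fin 5) = 2 := by
      apply G.hθ
      change G.θ = G.σ G.θ
      rw [h]
      rfl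
    exact absurd h1 (by decide)
  have hcσ : G.c * G.σ ≠ G.c := fun h => hσ1 (mul_eq_left.1 h)
  have hc1 : G.c ≠ 1 := by
    intro h
    have h1 : (1 : Fin 5) = 4 := by
      apply G.hθ
      change G.θ = G.c G.θ
      rw [h]
      rfl
    exact absurd h1 (by decide)
  have oo : formK J o o = 0 := by
    have := horth 1 hc1.symm
    exact this
  have os := horth G.σ hσc
  have ocs : formK J o (fun i => G.c (G.σ (o i))) = 0 := horth (G.c * G.σ) hcσ
  rw [← hιo]
  refine concl_of G hfin hJ o oo os ocs (by rw [hιo]; exact hcone) ?_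
  intro hcyc
  rcases G.sq with h | h
  · exact h
  · exfalso
    obtain ⟨g, hg⟩ := hcyc.exists_generator
    have hord : orderOf g = 4 := by
      rw [orderOf_eq_card_of_forall_mem_zpowers hg, IsGalois.card_aut_eq_finrank, hfin]
    have hσσ : G.σ * G.σ = 1 := by
      ext x
      exact congrArg _ (h x)
    have hcc : G.c * G.c = 1 := by
      ext x
      exact congrArg _ (G.cc x)
    have hcomm : G.σ * G.c = G.c * G.σ := by
      ext x
      exact congrArg _ (G.comm x)
    have hsq : ∀ τ : K ≃ₐ[ℚ] K, τ ^ 2 = 1 := by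
      intro τ
      rw [pow_two]
      rcases hall τ with h1 | h1 | h1 | h1
      · rw [h1, one_mul]
      · rw [h1, hcc]
      · rw [h1, hσσ]
      · rw [h1]
        calc G.σ * G.c * (G.σ * G.c) = G.σ * (G.c * G.σ) * G.c := by simp only [mul_assoc]
          _ = G.σ * (G.σ * G.c) * G.c := by rw [hcomm]
          _ = (G.σ * G.σ) * (G.c * G.c) := by simp only [mul_assoc]
          _ = 1 := by rw [hσσ, hcc, one_mul]
    have h2 := orderOf_dvd_of_pow_eq_one (hsq g)
    rw [hord] at h2
    norm_num at h2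

end Pool.Agent.Y973.HS
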